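import Pool.Agent.N917.MB.Stm

/-!
Project MB (helper917), part ALL (helper774): the sum of all weights.
-/

namespace Pool.Agent.N917.MB

open Finset
open Pool.Agent.Results.MP_76b19e_co.ForcedCliques (nn cnb cl Admissible minCliques mem_cl mem_cnb)
open Pool.Agent.N917.KR (gw es)

namespace ALL

variable {V : Type} [DecidableEq V]

/-- the classes cover all cliques -/
theorem cover (G : SimpleGraph V) [DecidableRel G.Adj] (X : Finset V) (q m B : ℕ) :
    cl G X m ⊆ ((((K0 G X q m ∪ K1 G X q m B) ∪ K2 G X q m) ∪ K3 G X q m B) ∪ K4 G X q m B) := by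
  intro S hS
  by_cases h0 : S ∈ K0 G X q m
  · simp only [mem_union]
    tauto
  have h0' : ¬ 2 * es G q X S ≤ q := by
    intro h
    exact h0 (by unfold K0; exact mem_filter.2 ⟨hS, h⟩)
  by_cases h1 : ∃ P ∈ Co G X q m B, P ⊆ S
  · have : S ∈ K1 G X q m B := by
      unfold K1
      exact mem_filter.2 ⟨hS, h1⟩
    simp only [mem_union]
    tauto
  by_cases h3 : es G q X S + 1 ≤ q
  · have : S ∈ K3 G X q m B := by
      unfold K3
      exact mem_filter.2 ⟨hS, by omega, h3, h1⟩
    simp only [mem_union]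
    tauto
  by_cases h2 : ∃ R ∈ K0 G X q m, (S ∩ R).card = m - 1
  · have : S ∈ K2 G X q m := by
      unfold K2
      exact mem_filter.2 ⟨hS, by omega, h2⟩
    simp only [mem_union]
    tauto
  · have : S ∈ K4 G X q m B := by
      unfold K4
      exact mem_filter.2 ⟨hS, by omega, h1, h2⟩
    simp only [mem_union]
    tauto

/-- a sum over a union is at most the sum of the sums -/
theorem sum_union_le' {α : Type} [DecidableEq α] (A B : Finset α) (f : α → ℝ)
    (h : ∀ a ∈ A ∪ B, 0 ≤ f a) : ∑ a ∈ A ∪ B, f a ≤ ∑ a ∈ A, f a + ∑ a ∈ B, f a := by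
  have h1 : ∑ a ∈ A ∪ B, f a + ∑ a ∈ A ∩ B, f a = ∑ a ∈ A, f a + ∑ a ∈ B, f a :=
    Finset.sum_union_inter
  have h2 : 0 ≤ ∑ a ∈ A ∩ B, f a := by
    apply Finset.sum_nonneg
    intro a ha
    exact h a (mem_union_left _ (mem_inter.1 ha).1)
  linarith

theorem sum_biUnion_le' {α β : Type} [DecidableEq α] [DecidableEq β] (s : Finset β)
    (t : β → Finset α) (f : α → ℝ) (h : ∀ b ∈ s, ∀ a ∈ t b, 0 ≤ f a) :
    ∑ a ∈ s.biUnion t, f a ≤ ∑ b ∈ s, ∑ a ∈ t b, f a := by
  classical
  induction s using Finset.induction_on with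
  | empty => simp
  | insert b s hb ih =>
    rw [Finset.biUnion_insert, Finset.sum_insert hb]
    have h1 := sum_union_le' (t b) (s.biUnion t) f (by
      intro a ha
      rcases mem_union.1 ha with ha | ha
      · exact h b (mem_insert_self _ _) a ha
      · obtain ⟨c, hc, hac⟩ := mem_biUnion.1 ha
        exact h c (mem_insert_of_mem hc) a hac)
    have h2 := ih (fun c hc a ha => h c (mem_insert_of_mem hc) a ha)
    linarith

end ALL

open ALL in
theorem t_ALL : S_W0 → S_UNQ → S_ALL := by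
  intro hW0 hUNQ V _ G _ X q m B hX hB
  obtain ⟨hW, -, -⟩ := hW0 V G X q m hX
  obtain ⟨-, h2, h3, -⟩ := hUNQ V G X q m B hX hB
  have hsum := KR.t_SUM V G q m X (le_of_eq hX.hX.symm) hX.hc
  have htot : ∑ S ∈ cl G X m, wt G q m X S = (q : ℝ) ^ (m - 1) := by
    unfold wt
    rw [← Finset.mul_sum, hsum, mul_one]
  have hsub : ∀ {A : Finset (Finset V)}, A ⊆ cl G X m → ∀ S ∈ A, 0 ≤ wt G q m X S :=
    fun hA S hS => (hW S (hA hS)).1
  have c0 : K0 G X q m ⊆ cl G X m := Finset.filter_subset _ _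
  have c1 : K1 G X q m B ⊆ cl G X m := Finset.filter_subset _ _
  have c2 : K2 G X q m ⊆ cl G X m := Finset.filter_subset _ _
  have c3 : K3 G X q m B ⊆ cl G X m := Finset.filter_subset _ _
  have c4 : K4 G X q m B ⊆ cl G X m := Finset.filter_subset _ _
  have c01 := union_subset c0 c1
  have c012 := union_subset c01 c2
  have c0123 := union_subset c012 c3
  have c01234 := union_subset c0123 c4
  have e1 : ∑ S ∈ cl G X m, wt G q m X S ≤
      ∑ S ∈ ((((K0 G X q m ∪ K1 G X q m B) ∪ K2 G X q m) ∪ K3 G X q m B) ∪ K4 G X q m B),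
        wt G q m X S :=
    Finset.sum_le_sum_of_subset_of_nonneg (cover G X q m B) (fun S hS _ => hsub c01234 S hS)
  have e2 := sum_union_le' _ _ (wt G q m X) (hsub c01234)
  have e3 := sum_union_le' _ _ (wt G q m X) (hsub c0123)
  have e4 := sum_union_le' _ _ (wt G q m X) (hsub c012)
  have e5 := sum_union_le' _ _ (wt G q m X) (hsub c01)
  have hK1 : K1 G X q m B ⊆ (Co G X q m B).biUnion
      (fun P => (cnb G X P).image (fun v => insert v P)) := by
    intro S hS
    obtain ⟨P, hP, v, hv, rfl⟩ := h3 S hS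
    exact mem_biUnion.2 ⟨P, hP, mem_image.2 ⟨v, hv, rfl⟩⟩
  have hK1' : (Co G X q m B).biUnion
      (fun P => (cnb G X P).image (fun v => insert v P)) ⊆ cl G X m := by
    intro S hS
    obtain ⟨P, hP, hS⟩ := mem_biUnion.1 hS
    obtain ⟨v, hv, rfl⟩ := mem_image.1 hS
    exact c1 (h2 P hP v hv)
  have e6 : ∑ S ∈ K1 G X q m B, wt G q m X S ≤ ∑ S ∈ (Co G X q m B).biUnion
      (fun P => (cnb G X P).image (fun v => insert v P)), wt G q m X S :=
    Finset.sum_le_sum_of_subset_of_nonneg hK1 (fun S hS _ => hsub hK1' S hS)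
  have e7 := sum_biUnion_le' (Co G X q m B)
    (fun P => (cnb G X P).image (fun v => insert v P)) (wt G q m X) (by
      intro P hP S hS
      exact hsub hK1' S (mem_biUnion.2 ⟨P, hP, hS⟩))
  have e8 : ∑ P ∈ Co G X q m B, ∑ S ∈ (cnb G X P).image (fun v => insert v P), wt G q m X S =
      ∑ P ∈ Co G X q m B, om G q m X P := by
    apply Finset.sum_congr rfl
    intro P hP
    unfold om
    rw [Finset.sum_image]
    intro v hv w hw hvw
    have hv' : v ∉ P := by
      intro h
      exact G.loopless.irrefl v (((mem_cnb G).1 hv).2 v h)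
    have hw' : w ∉ P := by
      intro h
      exact G.loopless.irrefl w (((mem_cnb G).1 hw).2 w h)
    exact (Finset.insert_inj hv').1 hvw
  linarith

end Pool.Agent.N917.MB
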