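import Pool.Agent.N917.MB.Stm

/-!
Project MB, part BKOF: splitting off the first block.
-/

set_option autoImplicit false

namespace Pool.Agent.N917.MB

open Finset
open Pool.Agent.Results.MP_76b19e_co.ForcedCliques (nn cnb cl Admissible minCliques)
open Pool.Agent.N917.KR (gw es)

namespace BKOF

theorem exists_m (l : ℕ) (τ : ℕ → ℕ) (hl : 1 ≤ l) : ∃ m, 1 ≤ m ∧ m ≤ l ∧
    (∀ i < m, τ i = τ 0) ∧ (m < l → τ m ≠ τ 0) := by
  classical
  by_cases h : ∃ j, j < l ∧ τ j ≠ τ 0
  · refine ⟨Nat.find h, ?_, (Nat.find_spec h).1.le, ?_, fun _ => (Nat.find_spec h).2⟩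
    · rw [Nat.one_le_iff_ne_zero]
      intro h0
      have h1 := (Nat.find_spec h).2
      rw [h0] at h1
      exact h1 rfl
    · intro i hi
      by_contra h1
      exact Nat.find_min h hi ⟨hi.trans (Nat.find_spec h).1, h1⟩
  · refine ⟨l, hl, le_rfl, ?_, fun h1 => absurd h1 (lt_irrefl l)⟩
    intro i hi
    by_contra h1
    exact h ⟨i, hi, h1⟩

theorem pr_split (l m : ℕ) (τ : ℕ → ℕ) (h1 : 1 ≤ m) (h2 : m ≤ l) (h3 : ∀ i < m, τ i = τ 0)
    (h4 : m < l → τ m ≠ τ 0) :
    pr l τ = (τ 0) ^ (m - 1) * pr (l - m) (fun i => τ (m + i)) := by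
  have h5 : ∏ j ∈ range (m - 1), (if τ (j + 1) = τ j then τ j else 1) = (τ 0) ^ (m - 1) := by
    rw [← card_range (m - 1), ← prod_const, card_range]
    refine prod_congr rfl fun j hj => ?_
    rw [mem_range] at hj
    rw [h3 (j + 1) (by omega), h3 j (by omega), if_pos rfl]
  unfold pr
  rcases Nat.lt_or_ge m l with h | h
  · obtain ⟨d, rfl⟩ : ∃ d, l = m + 1 + d := ⟨l - (m + 1), by omega⟩
    obtain ⟨e, rfl⟩ : ∃ e, m = e + 1 := ⟨m - 1, by omega⟩
    have e1 : e + 1 + 1 + d - 1 = e + 1 + d := by omega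
    have e2 : e + 1 + 1 + d - (e + 1) - 1 = d := by omega
    have e3 : e + 1 - 1 = e := by omega
    rw [e3] at h5
    rw [e1, e2, e3, prod_range_add, prod_range_succ, h5]
    have h6 : τ (e + 1) ≠ τ e := by
      rw [h3 e (by omega)]
      exact h4 h
    rw [if_neg h6, mul_one]
    rfl
  · have e1 : m = l := le_antisymm h2 h
    subst e1
    rw [h5, Nat.sub_self]
    simp

theorem sum_split (m j : ℕ) (τ : ℕ → ℕ) (h3 : ∀ i < m, τ i = τ 0) :
    ∑ i ∈ range (m + j), τ i = m * τ 0 + ∑ i ∈ range j, τ (m + i) := by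
  rw [sum_range_add]
  congr 1
  rw [sum_congr rfl fun i hi => h3 i (mem_range.1 hi), sum_const, card_range, smul_eq_mul]

end BKOF

open BKOF

theorem t_BKOF : S_BKOF := by
  intro V _ G _ W l τ σ hS hl
  obtain ⟨m, h1, h2, h3, h4⟩ := exists_m l τ hl
  refine ⟨m, h1, h2, pr_split l m τ h1 h2 h3 h4, ?_⟩
  intro hm Y hY hYW
  have h5 := hS.lev (m - 1) (by omega)
  have h6 : ∑ i ∈ range (m - 1), τ i = (m - 1) * τ 0 := by
    rw [sum_congr rfl fun i hi => h3 i (by have := mem_range.1 hi; omega), sum_const, card_range,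
      smul_eq_mul]
  rw [h6, h3 (m - 1) (by omega)] at h5
  have h7 : Y ⊆ W.filter (fun v => nn G W v ≤ τ 0) := by
    intro y hy
    rw [mem_filter]
    exact hYW y hy
  obtain ⟨X, hYX, hXF, hX⟩ := exists_subsuperset_card_eq h7 (n := (m - 1) * τ 0 + 1)
    (by omega) (by omega)
  refine ⟨X, hYX, ⟨hm, ?_, hX, ?_, ?_, ?_, ?_, ?_⟩⟩
  · exact fun x hx => (mem_filter.1 (hXF hx)).1
  · exact fun x hx => (mem_filter.1 (hXF hx)).2
  · intro i hi
    exact hS.mono (m + i) (by omega)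
  · intro h8
    have h9 : m < l := by omega
    have h10 := h4 h9
    have h11 := hS.mono (m - 1) (by omega)
    have h12 : m - 1 + 1 = m := by omega
    rw [h12, h3 (m - 1) (by omega)] at h11
    exact lt_of_le_of_ne h11 (Ne.symm h10)
  · intro j hj
    have h8 := hS.lev (m + j) (by omega)
    rw [sum_split m j τ h3] at h8
    exact h8
  · have h8 := hS.tot
    have h9 : l = m + (l - m) := by omega
    rw [h9, sum_split m (l - m) τ h3] at h8
    exact h8

end Pool.Agent.N917.MB
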