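import Pool.Agent.N917.MB.Stm

/-!
Project MB, leaf CRD: crude count.
-/

set_option autoImplicit false

namespace Pool.Agent.N917.MB

open Finset
open Pool.Agent.Results.MP_76b19e_co.ForcedCliques (nn cnb cl mem_cl cl_one)

namespace CRD

theorem double {V : Type} [DecidableEq V] (C : Finset (Finset V)) (Y : Finset V) (k : ℕ)
    (hC : ∀ K ∈ C, K.card = k) : ∑ v ∈ Y, (C.filter (fun K => v ∈ K)).card ≤ k * C.card := by
  calc ∑ v ∈ Y, (C.filter (fun K => v ∈ K)).card
      = ∑ v ∈ Y, ∑ K ∈ C, if v ∈ K then 1 else 0 := by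
        refine Finset.sum_congr rfl fun v _ => ?_
        rw [Finset.card_filter]
    _ = ∑ K ∈ C, ∑ v ∈ Y, if v ∈ K then 1 else 0 := Finset.sum_comm
    _ ≤ ∑ K ∈ C, k := by
        refine Finset.sum_le_sum fun K hK => ?_
        rw [← Finset.card_filter, ← hC K hK]
        refine Finset.card_le_card fun v hv => ?_
        exact (Finset.mem_filter.1 hv).2
    _ = k * C.card := by rw [Finset.sum_const, smul_eq_mul, mul_comm]

end CRD

theorem t_CRD : S_NB → S_CRD := by
  intro hNB V _ G _ l
  induction l with
  | zero =>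
    intro W τ σ h
    have h1 := h.tot
    simp only [Finset.range_zero, Finset.sum_empty, zero_add] at h1
    rw [zero_add, cl_one]
    simp only [pr, Nat.factorial_one, one_mul, Nat.zero_sub, Finset.range_zero, Finset.prod_empty,
      mul_one]
    exact h1
  | succ l ih =>
    intro W τ σ h
    obtain ⟨Y, hY⟩ : ∃ Y : Finset V, Y = W.filter (fun v => nn G W v ≤ τ 0) := ⟨_, rfl⟩
    have hl0 := h.lev 0 (by omega)
    simp only [Finset.range_zero, Finset.sum_empty, zero_add] at hl0
    rw [← hY] at hl0
    -- every vertex of `Y`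
    have hv : ∀ v ∈ Y, (1 + σ) * pr l (fun i => τ (i + 1)) ≤
        (l + 1).factorial * ((cl G W (l + 2)).filter (fun K => v ∈ K)).card := by
      intro v hv
      rw [hY, Finset.mem_filter] at hv
      obtain ⟨h1, h2⟩ := hNB V G W l τ σ h v hv.1 hv.2
      have h3 := ih (Pool.Agent.Results.MP_76b19e_co.ForcedCliques.cnb G W {v})
        (fun i => τ (i + 1)) (σ + (τ 0 - nn G W v)) h1
      rw [h2] at h3
      refine le_trans (Nat.mul_le_mul_right _ ?_) h3
      omega
    have hsum : Y.card * ((1 + σ) * pr l (fun i => τ (i + 1))) ≤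
        (l + 1).factorial * ((l + 2) * (cl G W (l + 2)).card) := by
      calc Y.card * ((1 + σ) * pr l (fun i => τ (i + 1)))
          = ∑ v ∈ Y, (1 + σ) * pr l (fun i => τ (i + 1)) := by
            rw [Finset.sum_const, smul_eq_mul]
        _ ≤ ∑ v ∈ Y, (l + 1).factorial * ((cl G W (l + 2)).filter (fun K => v ∈ K)).card :=
            Finset.sum_le_sum hv
        _ = (l + 1).factorial * ∑ v ∈ Y, ((cl G W (l + 2)).filter (fun K => v ∈ K)).card := by
            rw [Finset.mul_sum]
        _ ≤ _ := by
            refine Nat.mul_le_mul_left _ (CRD.double _ Y (l + 2) fun K hK => ?_)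
            exact ((mem_cl G).1 hK).2.2
    have hpr : pr (l + 1) τ ≤ Y.card * pr l (fun i => τ (i + 1)) := by
      unfold pr
      rcases l with _ | l
      · simp only [zero_add, Nat.sub_self, Nat.zero_sub, Finset.range_zero, Finset.prod_empty, mul_one]
        omega
      · rw [show l + 1 + 1 - 1 = l + 1 by omega, show l + 1 - 1 = l by omega,
          Finset.prod_range_succ', mul_comm]
        refine Nat.mul_le_mul_right _ ?_
        rw [zero_add]
        by_cases h01 : τ 1 = τ 0
        · rw [if_pos h01]
          have h1 := h.lev 1 (by omega)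
          rw [Finset.sum_range_one, h01, ← hY] at h1
          omega
        · rw [if_neg h01]
          omega
    calc (1 + σ) * pr (l + 1) τ ≤ (1 + σ) * (Y.card * pr l (fun i => τ (i + 1))) :=
          Nat.mul_le_mul_left _ hpr
      _ = Y.card * ((1 + σ) * pr l (fun i => τ (i + 1))) := by ring
      _ ≤ (l + 1).factorial * ((l + 2) * (cl G W (l + 2)).card) := hsum
      _ = (l + 1 + 1).factorial * (cl G W (l + 1 + 1)).card := by
          rw [Nat.factorial_succ (l + 1)]
          ring

end Pool.Agent.N917.MB
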