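import Pool.Agent.N917.MB.Stm

/-!
Project MB (helper917): the first block with a tail.
-/

set_option autoImplicit false

namespace Pool.Agent.N917.MB

open Finset
open Pool.Agent.Results.MP_76b19e_co.ForcedCliques (nn cnb cl Admissible minCliques nn_mono mem_cl)
open Pool.Agent.N917.KR (gw es)

/-- size conditions -/
structure Par (q B m l : ℕ) (c : ℝ) : Prop where
  h1 : 16 * m ^ 2 ≤ q
  h2 : 16 * (m : ℝ) ≤ c * q
  h3 : 4 * (m + 2 * m ^ 4) * (l + 1).factorial ≤ q
  h4 : 8 * B ≤ q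
  h5 : 1 ≤ B
  h6 : 1000 * (m : ℝ) ^ 2 * 2 ^ (m + l + 1) ≤ c * B
  h7 : 4000 * (B : ℝ) * (m : ℝ) ^ 2 ≤ c * q
  h8 : 800 * m ≤ q

section

variable {V : Type} [DecidableEq V] {G : SimpleGraph V} [DecidableRel G.Adj]

theorem Str.mono_slack {W : Finset V} {l : ℕ} {τ : ℕ → ℕ} {σ σ' : ℕ} (H : Str G W l τ σ)
    (h : σ' ≤ σ) : Str G W l τ σ' :=
  ⟨H.mono, fun j hj => by have := H.lev j hj; omega, by have := H.tot; omega⟩

theorem Bk.toHX {W X : Finset V} {q m l : ℕ} {τ : ℕ → ℕ} {σ : ℕ} (H : Bk G W X q m l τ σ)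
    (hq : 16 * m ^ 2 ≤ q) : HX G X q m :=
  ⟨hq, H.hm, H.hX, fun x hx => (nn_mono G H.hXW x).trans (H.hc x hx)⟩

theorem card_Tr {W X : Finset V} {j : ℕ} (A : Finset (Finset V)) :
    ∑ R ∈ A, (Tr G W X j R).card = ((cl G W j).filter (fun K => K ∩ X ∈ A)).card := by
  classical
  rw [Finset.card_eq_sum_card_fiberwise (f := fun K => K ∩ X) (t := A)]
  · apply Finset.sum_congr rfl
    intro R hR
    congr 1
    unfold Tr
    ext K
    simp only [mem_filter]
    constructor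
    · rintro ⟨h1, h2⟩
      exact ⟨⟨h1, by rw [h2]; exact hR⟩, h2⟩
    · rintro ⟨⟨h1, _⟩, h2⟩
      exact ⟨h1, h2⟩
  · intro K hK
    exact (mem_filter.1 (mem_coe.1 hK)).2

theorem sum_biUnion_le {α β : Type} [DecidableEq α] [DecidableEq β] (s : Finset α)
    (t : α → Finset β) (f : β → ℝ) (hf : ∀ a ∈ s, ∀ b ∈ t a, 0 ≤ f b) :
    ∑ b ∈ s.biUnion t, f b ≤ ∑ a ∈ s, ∑ b ∈ t a, f b := by
  induction s using Finset.induction_on with
  | empty => simp
  | insert a s ha ih =>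
    rw [Finset.biUnion_insert, Finset.sum_insert ha]
    have h1 := ih fun b hb => hf b (mem_insert_of_mem hb)
    have h2 : ∑ b ∈ t a ∪ s.biUnion t, f b + ∑ b ∈ t a ∩ s.biUnion t, f b =
        ∑ b ∈ t a, f b + ∑ b ∈ s.biUnion t, f b := Finset.sum_union_inter
    have h3 : 0 ≤ ∑ b ∈ t a ∩ s.biUnion t, f b :=
      Finset.sum_nonneg fun b hb => hf a (mem_insert_self _ _) b (mem_inter.1 hb).1
    linarith

theorem K0_sub {X : Finset V} {q m : ℕ} : K0 G X q m ⊆ cl G X m := filter_subset _ _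
theorem K3_sub {X : Finset V} {q m B : ℕ} : K3 G X q m B ⊆ cl G X m := filter_subset _ _
theorem K4_sub {X : Finset V} {q m B : ℕ} : K4 G X q m B ⊆ cl G X m := filter_subset _ _

theorem K03 {X : Finset V} {q m B : ℕ} : Disjoint (K0 G X q m) (K3 G X q m B) := by
  rw [Finset.disjoint_left]
  intro S h h'
  unfold K0 at h
  unfold K3 at h'
  rw [mem_filter] at h h'
  omega

/-- weights of classes 0 and 2 -/
theorem class02 (hW0 : S_W0) (hW2 : S_W2) (hRI : S_RI) {W X : Finset V} {q m l : ℕ}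
    {τ : ℕ → ℕ} {σ B : ℕ} {c : ℝ} (H : Bk G W X q m l τ σ) (P : Par q B m l c) :
    2 * ((∑ S ∈ K0 G X q m, wt G q m X S + ∑ S ∈ K2 G X q m, wt G q m X S) * (pr l τ : ℝ)) ≤
      (((cl G W (m + l + 1)).filter (fun K => K ∩ X ∈ K0 G X q m)).card : ℝ) := by
  classical
  have hX := H.toHX P.h1
  obtain ⟨w0, _, _⟩ := hW0 V G X q m hX
  have e1 : ∑ S ∈ K0 G X q m, wt G q m X S ≤ ∑ _S ∈ K0 G X q m, (m : ℝ) :=
    Finset.sum_le_sum fun S hS => (w0 S (K0_sub hS)).2
  have e2 : ∑ S ∈ K2 G X q m, wt G q m X S ≤ ∑ _S ∈ K0 G X q m, 2 * (m : ℝ) ^ 4 := by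
    calc ∑ S ∈ K2 G X q m, wt G q m X S
        ≤ ∑ S ∈ (K0 G X q m).biUnion (fun R => (cl G X m).filter
            (fun S => q ≤ es G q X S ∧ (S ∩ R).card = m - 1)), wt G q m X S := by
          apply Finset.sum_le_sum_of_subset_of_nonneg
          · intro S hS
            unfold K2 at hS
            rw [mem_filter] at hS
            obtain ⟨hS1, hS2, R, hR, hRS⟩ := hS
            rw [mem_biUnion]
            exact ⟨R, hR, mem_filter.2 ⟨hS1, hS2, hRS⟩⟩
          · intro S hS _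
            rw [mem_biUnion] at hS
            obtain ⟨R, _, hS⟩ := hS
            exact (w0 S (mem_filter.1 hS).1).1
      _ ≤ ∑ R ∈ K0 G X q m, ∑ S ∈ (cl G X m).filter
            (fun S => q ≤ es G q X S ∧ (S ∩ R).card = m - 1), wt G q m X S := by
          apply sum_biUnion_le
          intro R _ S hS
          exact (w0 S (mem_filter.1 hS).1).1
      _ ≤ _ := Finset.sum_le_sum fun R hR => hW2 V G X q m hX R hR
  have e3 : ∑ _S ∈ K0 G X q m, ((2 * (m + 2 * m ^ 4) * pr l τ : ℕ) : ℝ) ≤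
      ∑ R ∈ K0 G X q m, ((Tr G W X (m + l + 1) R).card : ℝ) :=
    Finset.sum_le_sum fun R hR => by
      exact_mod_cast hRI V G W X q m l τ σ H P.h3 R hR
  have e4 : (∑ R ∈ K0 G X q m, ((Tr G W X (m + l + 1) R).card : ℝ)) =
      (((cl G W (m + l + 1)).filter (fun K => K ∩ X ∈ K0 G X q m)).card : ℝ) := by
    rw [← card_Tr]
    push_cast
    rfl
  rw [← e4]
  refine le_trans ?_ e3
  rw [Finset.sum_const, nsmul_eq_mul] at e1 e2 ⊢
  have hp : (0 : ℝ) ≤ pr l τ := Nat.cast_nonneg _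
  calc 2 * ((∑ S ∈ K0 G X q m, wt G q m X S + ∑ S ∈ K2 G X q m, wt G q m X S) * (pr l τ : ℝ))
      ≤ 2 * ((((K0 G X q m).card : ℝ) * m + ((K0 G X q m).card : ℝ) * (2 * (m : ℝ) ^ 4)) *
          (pr l τ : ℝ)) := by
        have := mul_le_mul_of_nonneg_right (add_le_add e1 e2) hp
        linarith
    _ = _ := by push_cast; ring

theorem Gp_out (hOUT : S_OUT) {W X : Finset V} {q m l : ℕ} {τ : ℕ → ℕ} {σ B : ℕ} {c : ℝ}
    (H : Bk G W X q m l τ σ) (P : Par q B m l c) {i : Finset V} (hi : i ∈ Co G X q m B) :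
    Gp G W X (m + l + 1) i ⊆
      (cl G W (m + l + 1)).filter (fun K => K ∩ X ∉ K0 G X q m ∪ K3 G X q m B) := by
  intro K hK
  have hK' : K ∈ cl G W (m + l + 1) := (mem_filter.1 hK).1
  rw [mem_filter]
  refine ⟨hK', fun h => ?_⟩
  have h4 := P.h4
  exact (hOUT V G W X q m l τ σ B H (H.toHX P.h1) (by omega) K hK' h).1 i hi hK

theorem K4_out (hOUT : S_OUT) {W X : Finset V} {q m l : ℕ} {τ : ℕ → ℕ} {σ B : ℕ} {c : ℝ}
    (H : Bk G W X q m l τ σ) (P : Par q B m l c) {i : Finset V} (hi : i ∈ K4 G X q m B) :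
    (cl G W (m + l + 1)).filter (fun K => i ⊆ K) ⊆
      (cl G W (m + l + 1)).filter (fun K => K ∩ X ∉ K0 G X q m ∪ K3 G X q m B) := by
  intro K hK
  have hK' : K ∈ cl G W (m + l + 1) := (mem_filter.1 hK).1
  rw [mem_filter]
  refine ⟨hK', fun h => ?_⟩
  have h4 := P.h4
  exact (hOUT V G W X q m l τ σ B H (H.toHX P.h1) (by omega) K hK' h).2 i hi (mem_filter.1 hK).2

theorem Par.mδ {q B m l : ℕ} {c : ℝ} (P : Par q B m l c) (hc1 : c ≤ 1) (hc : 0 < c) :
    ((2 ^ (m + l + 1) : ℕ) : ℝ) * ((m : ℝ) ^ 2 / B) ≤ c / 1000 := by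
  have hB : (0 : ℝ) < B := by exact_mod_cast P.h5
  have h6 := P.h6
  rw [mul_div_assoc', div_le_iff₀ hB]
  push_cast
  nlinarith

theorem Par.s {q B m l : ℕ} {c : ℝ} (P : Par q B m l c) (hc1 : c ≤ 1) (hc : 0 < c) :
    4 * (B : ℝ) * (m : ℝ) ^ 2 / q ≤ c / 1000 := by
  have hq : (0 : ℝ) < q := by
    have := P.h4
    have := P.h5
    have : 0 < q := by omega
    exact_mod_cast this
  have h7 := P.h7
  rw [div_le_iff₀ hq]
  nlinarith

/-- few `K4` sets in a clique, each with few weight -/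
theorem classK4 (hW5 : S_W5) (hTSS : S_TSS) (hOUT : S_OUT) (hDC : S_DC)
    {W X : Finset V} {q m l : ℕ}
    {τ : ℕ → ℕ} {σ B q0 : ℕ} {c : ℝ} (H : Bk G W X q m l τ σ) (P : Par q B m l c)
    (hCA : CA l q0) (hq0 : q0 ≤ q) :
    (∀ i ∈ K4 G X q m B, wt G q m X i * (pr l τ : ℝ) ≤
      ((m : ℝ) ^ 2 / B) * (((cl G W (m + l + 1)).filter (fun K => i ⊆ K)).card : ℝ)) ∧
    (∀ k ∈ (cl G W (m + l + 1)).filter (fun K => K ∩ X ∉ K0 G X q m ∪ K3 G X q m B),
      ((K4 G X q m B).filter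
        (fun i => k ∈ (cl G W (m + l + 1)).filter (fun K => i ⊆ K))).card ≤
          2 ^ (m + l + 1)) := by
  classical
  have hX := H.toHX P.h1
  constructor
  · intro i hi
    obtain ⟨t1, t2, _⟩ := hTSS V G W X q m l τ σ H i (K4_sub hi)
    have t3 := hCA V G (cnb G W i) τ (t1.mono_slack (Nat.zero_le _))
      (fun hl => hq0.trans (H.hτ hl).le)
    rw [t2] at t3
    have h5 := hW5 V G X q m B hX P.h5 i hi
    have h6 : (0 : ℝ) ≤ (m : ℝ) ^ 2 / B := by positivity
    have t4 : (pr l τ : ℝ) ≤ (((cl G W (m + l + 1)).filter (fun K => i ⊆ K)).card : ℝ) := by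
      exact_mod_cast t3
    have h7 : (0 : ℝ) ≤ pr l τ := Nat.cast_nonneg _
    calc wt G q m X i * (pr l τ : ℝ) ≤ ((m : ℝ) ^ 2 / B) * (pr l τ : ℝ) :=
          mul_le_mul_of_nonneg_right h5 h7
      _ ≤ _ := mul_le_mul_of_nonneg_left t4 h6
  · intro k hk
    have hkc : k.card = m + l + 1 := ((mem_cl G).1 (mem_filter.1 hk).1).2.2
    calc ((K4 G X q m B).filter
        (fun i => k ∈ (cl G W (m + l + 1)).filter (fun K => i ⊆ K))).card
        ≤ k.powerset.card := by
          apply Finset.card_le_card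
          intro i hi
          rw [mem_filter, mem_filter] at hi
          exact mem_powerset.2 hi.2.2
      _ = 2 ^ (m + l + 1) := by rw [card_powerset, hkc]

/-- The core: the part of the weight which is not in tight cliques is counted with a gain. -/
theorem core (hW0 : S_W0) (hW2 : S_W2) (hW3 : S_W3) (hW5 : S_W5)
    (hUNQ : S_UNQ) (hALL : S_ALL) (hTSS : S_TSS) (hGP : S_GP) (hGP0 : S_GP0) (hTL : S_TL)
    (hRI : S_RI) (hDC : S_DC) (hOUT : S_OUT)
    {W X : Finset V} {q m l : ℕ} {τ : ℕ → ℕ} {σ B q0 : ℕ} {c : ℝ}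
    (H : Bk G W X q m l τ σ) (P : Par q B m l c) (hl : 1 ≤ l ∨ 1 ≤ σ)
    (hCA : CA l q0) (hCA1 : CA1 l q0 c) (hCG : 1 ≤ l → CG l q0 c) (hq0 : q0 ≤ q)
    (hc : 0 < c) (hc1 : c ≤ 1) :
    ∃ T : Finset (Finset V), (1 ≤ σ → T = ∅) ∧ (∀ R ∈ T, ∀ v ∈ R, ¬ nn G W v < q) ∧
      (∑ R ∈ T, wt G q m X R) * (pr l τ : ℝ) ≤
        (((cl G W (m + l + 1)).filter (fun K => K ∩ X ∈ T)).card : ℝ) ∧
      (1 + c / 4) * (((q : ℝ) ^ (m - 1) - ∑ R ∈ T, wt G q m X R) * (pr l τ : ℝ)) ≤
        (((cl G W (m + l + 1)).filter (fun K => K ∩ X ∉ T)).card : ℝ) := by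
  classical
  have hX := H.toHX P.h1
  obtain ⟨w0, _, _⟩ := hW0 V G X q m hX
  set p : ℝ := (pr l τ : ℝ) with hp
  have hp0 : (0 : ℝ) ≤ p := Nat.cast_nonneg _
  have h4 := P.h4
  obtain ⟨u1, u2, u3, u4⟩ := hUNQ V G X q m B hX (by omega)
  set Kl := cl G W (m + l + 1) with hKl
  set T := (K3 G X q m B).filter
    (fun R => ¬ ((1 + c / 4) * (wt G q m X R * p) ≤ (Tr G W X (m + l + 1) R).card)) with hT
  have hTL' : ∀ R ∈ K3 G X q m B, wt G q m X R * p ≤ (Tr G W X (m + l + 1) R).card ∧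
      ((1 ≤ σ ∨ ∃ v ∈ R, nn G W v < q) →
        (1 + c / 4) * (wt G q m X R * p) ≤ (Tr G W X (m + l + 1) R).card) := by
    intro R hR
    unfold K3 at hR
    rw [mem_filter] at hR
    exact hTL V G W X q m l τ σ q0 c H hCA hCA1 hq0 hc hc1 P.h1 P.h2 R hR.1 hR.2.2.1 hR.2.1.le
  refine ⟨T, ?_, ?_, ?_, ?_⟩
  · intro hσ
    rw [Finset.eq_empty_iff_forall_notMem]
    intro R hR
    rw [hT, mem_filter] at hR
    exact hR.2 ((hTL' R hR.1).2 (Or.inl hσ))
  · intro R hR v hv hlow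
    rw [hT, mem_filter] at hR
    exact hR.2 ((hTL' R hR.1).2 (Or.inr ⟨v, hv, hlow⟩))
  · rw [Finset.sum_mul, ← card_Tr]
    push_cast
    apply Finset.sum_le_sum
    intro R hR
    rw [hT, mem_filter] at hR
    exact (hTL' R hR.1).1
  · -- the group part
    set O := Kl.filter (fun K => K ∩ X ∉ K0 G X q m ∪ K3 G X q m B) with hO
    obtain ⟨k1, k2⟩ := classK4 (G := G) hW5 hTSS hOUT hDC H P hCA hq0
    have hGp : ∀ i ∈ Co G X q m B, (1 + c) * p ≤ (Gp G W X (m + l + 1) i).card := by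
      intro i hi
      have hi' := hi
      unfold Co at hi'
      rw [mem_filter] at hi'
      rcases Nat.eq_zero_or_pos l with h0 | h0
      · subst h0
        have hσ : 1 ≤ σ := by omega
        have hg := hGP0 V G W X q m τ σ H i hi'.1 hi'.2.1
        rcases hg with hg | hg
        · have hp1 : p = 1 := by rw [hp]; simp [pr]
          rw [hp1]
          have : (2 : ℝ) ≤ ((Gp G W X (m + 1) i).card : ℝ) := by exact_mod_cast hg
          simp only [add_zero]
          linarith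
        · omega
      · exact hGP V G W X q m l τ σ q0 c H h0 hCA (hCG h0) hq0 hc hc1 i hi'.1 hi'.2.1
    have hdc := hDC (Finset V) O (Co G X q m B) (K4 G X q m B) (Gp G W X (m + l + 1))
      (fun i => Kl.filter (fun K => i ⊆ K)) (om G q m X) (wt G q m X) p
      ((1 + c / 1000) / (1 + c)) ((m : ℝ) ^ 2 / B) (2 ^ (m + l + 1))
      (fun i hi => Gp_out hOUT H P hi) (fun i hi => K4_out hOUT H P hi)
      (by
        intro i hi
        have h3 := hW3 V G X q m B hX (by omega) i hi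
        have hs := P.s hc1 hc
        have h1c : (0 : ℝ) < 1 + c := by linarith
        calc om G q m X i * p ≤ (1 + c / 1000) * p :=
              mul_le_mul_of_nonneg_right (by linarith) hp0
          _ = ((1 + c / 1000) / (1 + c)) * ((1 + c) * p) := by field_simp
          _ ≤ _ := mul_le_mul_of_nonneg_left (hGp i hi) (by positivity))
      k1
      (by
        intro k hk
        rw [Finset.card_le_one]
        intro i hi j hj
        rw [mem_filter] at hi hj
        have hi2 := hi.2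
        have hj2 := hj.2
        unfold Gp at hi2 hj2
        rw [mem_filter] at hi2 hj2
        exact u1 i hi.1 j hj.1 (m + l + 1) k ((mem_cl G).1 hi2.1).2 hi2.2.1 hj2.2.1)
      k2 (by positivity) (by positivity)
    have hmδ := P.mδ hc1 hc
    have hfac : (1 + c / 4) * ((1 + c / 1000) / (1 + c) +
        ((2 ^ (m + l + 1) : ℕ) : ℝ) * ((m : ℝ) ^ 2 / B)) ≤ 1 := by
      have h1c : (0 : ℝ) < 1 + c := by linarith
      have h1 : (1 + c / 1000) / (1 + c) ≤ 1 - c / 2 + c / 1000 := by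
        rw [div_le_iff₀ h1c]
        nlinarith
      calc _ ≤ (1 + c / 4) * (1 - c / 2 + c / 1000 + c / 1000) := by
            apply mul_le_mul_of_nonneg_left _ (by linarith)
            linarith
        _ ≤ 1 := by nlinarith
    have hOO : (1 + c / 4) * ((∑ i ∈ Co G X q m B, om G q m X i +
        ∑ i ∈ K4 G X q m B, wt G q m X i) * p) ≤ (O.card : ℝ) := by
      calc _ ≤ (1 + c / 4) * (((1 + c / 1000) / (1 + c) +
            ((2 ^ (m + l + 1) : ℕ) : ℝ) * ((m : ℝ) ^ 2 / B)) * (O.card : ℝ)) :=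
            mul_le_mul_of_nonneg_left hdc (by linarith)
        _ = ((1 + c / 4) * ((1 + c / 1000) / (1 + c) +
            ((2 ^ (m + l + 1) : ℕ) : ℝ) * ((m : ℝ) ^ 2 / B))) * (O.card : ℝ) := by ring
        _ ≤ 1 * (O.card : ℝ) := mul_le_mul_of_nonneg_right hfac (Nat.cast_nonneg _)
        _ = _ := one_mul _
    have h02 := class02 (G := G) hW0 hW2 hRI H P
    rw [← hp, ← hKl] at h02
    -- class 3, not tight
    have h3' : (1 + c / 4) * ((∑ R ∈ (K3 G X q m B) \ T, wt G q m X R) * p) ≤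
        ((Kl.filter (fun K => K ∩ X ∈ (K3 G X q m B) \ T)).card : ℝ) := by
      rw [hKl, ← card_Tr, Finset.sum_mul, Finset.mul_sum]
      push_cast
      apply Finset.sum_le_sum
      intro R hR
      rw [mem_sdiff] at hR
      by_contra hcon
      apply hR.2
      rw [hT, mem_filter]
      exact ⟨hR.1, hcon⟩
    -- disjointness
    have hdis : (Kl.filter (fun K => K ∩ X ∈ K0 G X q m)).card +
        (Kl.filter (fun K => K ∩ X ∈ (K3 G X q m B) \ T)).card + O.card ≤
        (Kl.filter (fun K => K ∩ X ∉ T)).card := by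
      rw [← Finset.card_union_of_disjoint, ← Finset.card_union_of_disjoint]
      · apply Finset.card_le_card
        intro K hK
        rw [mem_union, mem_union, mem_filter, mem_filter, hO, mem_filter] at hK
        rw [mem_filter]
        rcases hK with (hK | hK) | hK
        · refine ⟨hK.1, fun h => ?_⟩
          have h1 : K ∩ X ∈ K3 G X q m B := (mem_filter.1 (hT ▸ h)).1
          exact (Finset.disjoint_left.1 K03) hK.2 h1
        · exact ⟨hK.1, (mem_sdiff.1 hK.2).2⟩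
        · refine ⟨hK.1, fun h => hK.2 (mem_union_right _ (mem_filter.1 (hT ▸ h)).1)⟩
      · rw [Finset.disjoint_left]
        intro K hK hK'
        rw [mem_union, mem_filter, mem_filter] at hK
        rw [hO, mem_filter] at hK'
        rcases hK with hK | hK
        · exact hK'.2 (mem_union_left _ hK.2)
        · exact hK'.2 (mem_union_right _ (mem_sdiff.1 hK.2).1)
      · rw [Finset.disjoint_left]
        intro K hK hK'
        rw [mem_filter] at hK hK'
        exact (Finset.disjoint_left.1 K03) hK.2 (mem_sdiff.1 hK'.2).1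
    have hdis' : ((Kl.filter (fun K => K ∩ X ∈ K0 G X q m)).card : ℝ) +
        ((Kl.filter (fun K => K ∩ X ∈ (K3 G X q m B) \ T)).card : ℝ) + (O.card : ℝ) ≤
        ((Kl.filter (fun K => K ∩ X ∉ T)).card : ℝ) := by exact_mod_cast hdis
    have hall := hALL V G X q m B hX (by omega)
    have hs3 : ∑ S ∈ K3 G X q m B, wt G q m X S =
        ∑ S ∈ (K3 G X q m B) \ T, wt G q m X S + ∑ S ∈ T, wt G q m X S :=
      (Finset.sum_sdiff (filter_subset _ _)).symm
    have hA0 : 0 ≤ ∑ S ∈ K0 G X q m, wt G q m X S + ∑ S ∈ K2 G X q m, wt G q m X S := by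
      apply add_nonneg
      · exact Finset.sum_nonneg fun S hS => (w0 S (K0_sub hS)).1
      · exact Finset.sum_nonneg fun S hS => (w0 S (mem_filter.1 hS).1).1
    have h02' : (1 + c / 4) * ((∑ S ∈ K0 G X q m, wt G q m X S +
        ∑ S ∈ K2 G X q m, wt G q m X S) * p) ≤
        ((Kl.filter (fun K => K ∩ X ∈ K0 G X q m)).card : ℝ) := by
      refine le_trans ?_ h02
      apply mul_le_mul_of_nonneg_right (by linarith) (mul_nonneg hA0 hp0)
    have hfin : ((q : ℝ) ^ (m - 1) - ∑ R ∈ T, wt G q m X R) * p ≤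
        (∑ S ∈ K0 G X q m, wt G q m X S + ∑ S ∈ K2 G X q m, wt G q m X S) * p +
        (∑ R ∈ (K3 G X q m B) \ T, wt G q m X R) * p +
        (∑ i ∈ Co G X q m B, om G q m X i + ∑ i ∈ K4 G X q m B, wt G q m X i) * p := by
      rw [← add_mul, ← add_mul]
      apply mul_le_mul_of_nonneg_right _ hp0
      linarith
    calc (1 + c / 4) * (((q : ℝ) ^ (m - 1) - ∑ R ∈ T, wt G q m X R) * p)
        ≤ (1 + c / 4) * ((∑ S ∈ K0 G X q m, wt G q m X S +
            ∑ S ∈ K2 G X q m, wt G q m X S) * p +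
          (∑ R ∈ (K3 G X q m B) \ T, wt G q m X R) * p +
          (∑ i ∈ Co G X q m B, om G q m X i + ∑ i ∈ K4 G X q m B, wt G q m X i) * p) :=
          mul_le_mul_of_nonneg_left hfin (by linarith)
      _ ≤ _ := by rw [mul_add, mul_add]; linarith

end

end Pool.Agent.N917.MB
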