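import Pool.Agent.N917.MB.Stm

/-! Double counting. -/

namespace Pool.Agent.N917.MB

namespace DC

theorem sum_card_le {α : Type} [DecidableEq α] (K P : Finset α) (A : α → Finset α) (N : ℕ)
    (hA : ∀ i ∈ P, A i ⊆ K) (hN : ∀ k ∈ K, (P.filter (fun i => k ∈ A i)).card ≤ N) :
    ∑ i ∈ P, (A i).card ≤ N * K.card := by
  have h1 : ∑ i ∈ P, (A i).card = ∑ i ∈ P, (K.filter (fun k => k ∈ A i)).card := by
    refine Finset.sum_congr rfl fun i hi => ?_
    congr 1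
    ext k
    rw [Finset.mem_filter]
    exact ⟨fun h => ⟨hA i hi h, h⟩, fun h => h.2⟩
  have h2 : ∑ i ∈ P, (K.filter (fun k => k ∈ A i)).card = ∑ k ∈ K, (P.filter (fun i => k ∈ A i)).card :=
    Finset.sum_card_bipartiteAbove_eq_sum_card_bipartiteBelow (fun i k => k ∈ A i)
  rw [h1, h2]
  calc ∑ k ∈ K, (P.filter (fun i => k ∈ A i)).card ≤ ∑ k ∈ K, N := Finset.sum_le_sum hN
    _ = N * K.card := by rw [Finset.sum_const, smul_eq_mul, mul_comm]

end DC

theorem t_DC : S_DC := by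
  intro α _ K P Q A A' ω w p a δ M hA hA' h1 h2 h3 h4 ha hδ
  have e1 := DC.sum_card_le K P A 1 hA h3
  have e2 := DC.sum_card_le K Q A' M hA' h4
  have f1 : (∑ i ∈ P, ω i) * p ≤ a * K.card := by
    calc (∑ i ∈ P, ω i) * p = ∑ i ∈ P, ω i * p := Finset.sum_mul _ _ _
      _ ≤ ∑ i ∈ P, a * ((A i).card : ℝ) := Finset.sum_le_sum h1
      _ = a * ((∑ i ∈ P, (A i).card : ℕ) : ℝ) := by rw [← Finset.mul_sum]; push_cast; rfl
      _ ≤ a * ((1 * K.card : ℕ) : ℝ) := by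
          apply mul_le_mul_of_nonneg_left _ ha
          exact_mod_cast e1
      _ = a * K.card := by push_cast; ring
  have f2 : (∑ i ∈ Q, w i) * p ≤ M * δ * K.card := by
    calc (∑ i ∈ Q, w i) * p = ∑ i ∈ Q, w i * p := Finset.sum_mul _ _ _
      _ ≤ ∑ i ∈ Q, δ * ((A' i).card : ℝ) := Finset.sum_le_sum h2
      _ = δ * ((∑ i ∈ Q, (A' i).card : ℕ) : ℝ) := by rw [← Finset.mul_sum]; push_cast; rfl
      _ ≤ δ * ((M * K.card : ℕ) : ℝ) := by
          apply mul_le_mul_of_nonneg_left _ hδ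
          exact_mod_cast e2
      _ = M * δ * K.card := by push_cast; ring
  calc (∑ i ∈ P, ω i + ∑ i ∈ Q, w i) * p = (∑ i ∈ P, ω i) * p + (∑ i ∈ Q, w i) * p := by ring
    _ ≤ a * K.card + M * δ * K.card := add_le_add f1 f2
    _ = (a + M * δ) * K.card := by ring

end Pool.Agent.N917.MB
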