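import Pool.Agent.N917.MB.Stm

/-!
Project MB (helper917), part FIN2: the final step (helper478, adapted from FIN.lean of helper216).
-/

set_option autoImplicit false

namespace Pool.Agent.N917.MB

open Finset
open Pool.Agent.Results.MP_76b19e_co.ForcedCliques (nn cnb cl Admissible minCliques SeqHyp
  jumps_sum exists_seq cliqueCount cliqueCount_eq)

namespace FIN2

/-- the number of jumps before `r` -/
def J (q : ℕ → ℕ) (k : ℕ) : ℕ := ((range k).filter (fun i => q i ≠ q (i + 1))).card

lemma count (q : ℕ → ℕ) (k : ℕ) :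
    ((range k).filter (fun i => q (i + 1) = q i)).card + J q k = k := by
  have h := Finset.card_filter_add_card_filter_not (s := range k) (fun i => q (i + 1) = q i)
  rw [Finset.card_range] at h
  have h2 : (range k).filter (fun i => ¬ q (i + 1) = q i) =
      (range k).filter (fun i => q i ≠ q (i + 1)) := by
    refine Finset.filter_congr fun i _ => ?_
    exact ⟨fun h3 h4 => h3 h4.symm, fun h3 h4 => h3 h4.symm⟩
  rw [h2] at h
  exact h

lemma pr_ge {q : ℕ → ℕ} {r D : ℕ} (hm : ∀ i, i + 1 < r → q i ≤ q (i + 1)) (h0 : q 0 = D) :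
    D ^ (r - 1 - J q (r - 1)) ≤ pr r q := by
  have hq : ∀ i < r, D ≤ q i := by
    intro i
    induction i with
    | zero => intro _; exact h0.symm.le
    | succ i ih => intro h; exact (ih (by omega)).trans (hm i h)
  have h1 : ∏ j ∈ range (r - 1), (if q (j + 1) = q j then D else 1) ≤ pr r q := by
    unfold pr
    refine Finset.prod_le_prod' fun j hj => ?_
    rw [mem_range] at hj
    by_cases h : q (j + 1) = q j
    · rw [if_pos h, if_pos h]
      exact hq j (by omega)
    · rw [if_neg h, if_neg h]
  refine le_trans (le_of_eq ?_) h1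
  rw [Finset.prod_ite, Finset.prod_const, Finset.prod_const_one, mul_one]
  congr 1
  have h2 := count q (r - 1)
  omega

end FIN2

open FIN2 in
/-- the final statement -/
theorem t_FIN2 : S_FIN2 := by
  intro hCA r hr
  obtain ⟨q0, hq0⟩ := hCA r (by omega)
  refine ⟨max q0 1, fun n k hk hD hdom s hs hst hst2 => ?_⟩
  have hres := Pool.Agent.Results.MP_76b19e_co.ForcedCliques.result n k r hr
  apply le_antisymm
  · exact (hres.2 hk hdom s hs hst hst2).1
  · have hne : {N | ∃ G : SimpleGraph (Fin n), Admissible n k r G ∧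
        cliqueCount G (r + 1) = N}.Nonempty := by
      obtain ⟨G, hG⟩ := hres.1.2 ⟨hk, hdom⟩
      exact ⟨_, G, hG, rfl⟩
    obtain ⟨G, hG, hGc⟩ := Nat.sInf_mem hne
    unfold minCliques
    rw [← hGc]
    classical
    obtain ⟨q, hq, hq1⟩ := exists_seq G (by omega) hG
    rw [cliqueCount_eq]
    have hStr : Str G univ r q 0 :=
      ⟨hq.hm, fun j hj => by simpa using hq.hX j hj, by simpa using hq.hW⟩
    have h1 := hq0 (Fin n) G univ q hStr (fun _ => by
      rw [hq1]
      exact (le_max_left _ _).trans hD)
    refine le_trans ?_ h1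
    refine le_trans ?_ (pr_ge (q := q) (r := r) (D := n - k) hq.hm hq1)
    refine Nat.pow_le_pow_right ((le_max_right q0 1).trans hD) ?_
    have hW := hq.hW
    rw [card_univ, Fintype.card_fin] at hW
    have hJ1 := (jumps_sum q (r - 1) (fun i hi => hq.hm i (by omega))).2
    have hrr : r - 1 + 1 = r := by omega
    rw [hrr, hq1] at hJ1
    have hJdef : J q (r - 1) = ((range (r - 1)).filter (fun i => q i ≠ q (i + 1))).card := rfl
    rw [← hJdef] at hJ1
    have hJr := count q (r - 1)
    have hJs : J q (r - 1) ≤ s := by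
      rcases hst2 with h2 | h2
      · omega
      · by_contra hcon
        push Not at hcon
        have h3 : (s + 1) * (s + 2) ≤ J q (r - 1) * (J q (r - 1) + 1) :=
          Nat.mul_le_mul (by omega) (by omega)
        omega
    omega

end Pool.Agent.N917.MB
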