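import Pool.Agent.N917.MB.Stm

/-!
Project MB (helper917), part GP (helper545): the gain from two vertices of small codegree.
-/

set_option autoImplicit false
set_option linter.all false

namespace Pool.Agent.N917.MB

open Finset
open Pool.Agent.Results.MP_76b19e_co.ForcedCliques (nn cnb cl mem_cl mem_cnb nn_mono)
open Pool.Agent.N917.KR (gw es)

namespace GP

theorem str_zero {V : Type} [DecidableEq V] {G : SimpleGraph V} [DecidableRel G.Adj]
    {W : Finset V} {l : ℕ} {τ : ℕ → ℕ} {σ : ℕ} (h : Str G W l τ σ) : Str G W l τ 0 := by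
  refine ⟨h.mono, fun j hj => ?_, ?_⟩
  · have := h.lev j hj
    omega
  · have := h.tot
    omega

end GP

open GP in
theorem t_GP : S_TSS → S_GP := by
  intro hTSS V _ G _ W X q m l τ σ q0 c hB hl hCA hCG hq hc hc1 P hP h2
  obtain ⟨u, hu, y, hy, huy⟩ := Finset.one_lt_card.1 h2
  have hPX := (mem_cl G).1 hP
  have hτ := hB.hτ hl
  have hins : ∀ v ∈ cnb G X P, insert v P ∈ cl G X m := by
    intro v hv
    have hv' := (mem_cnb G).1 hv
    rw [mem_cl]
    refine ⟨Finset.insert_subset hv'.1 hPX.1, ?_⟩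
    have h3 := hPX.2.insert (a := v) fun b hb => (hv'.2 b hb).symm
    have h4 : m - 1 + 1 = m := by
      have := hB.hm
      omega
    rwa [h4] at h3
  have hA : ∀ v ∈ cnb G X P,
      pr l τ ≤ ((cl G W (m + l + 1)).filter (fun K => insert v P ⊆ K)).card := by
    intro v hv
    obtain ⟨t1, t2, -⟩ := hTSS V G W X q m l τ σ hB (insert v P) (hins v hv)
    rw [← t2]
    exact hCA V G _ τ (str_zero t1) fun _ => hq.trans hτ.le
  have hsub : ∀ v ∈ cnb G X P,
      (cl G W (m + l + 1)).filter (fun K => insert v P ⊆ K) ⊆ Gp G W X (m + l + 1) P := by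
    intro v hv K hK
    rw [Finset.mem_filter] at hK
    unfold Gp
    rw [Finset.mem_filter]
    exact ⟨hK.1, (Finset.subset_insert v P).trans hK.2, v, hv, hK.2 (Finset.mem_insert_self v P)⟩
  set Au := (cl G W (m + l + 1)).filter (fun K => insert u P ⊆ K) with hAu
  set Ay := (cl G W (m + l + 1)).filter (fun K => insert y P ⊆ K) with hAy
  have hun : Au ∪ Ay ⊆ Gp G W X (m + l + 1) P := Finset.union_subset (hsub u hu) (hsub y hy)
  have hcu : ((Au ∪ Ay).card : ℝ) ≤ ((Gp G W X (m + l + 1) P).card : ℝ) := by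
    exact_mod_cast Finset.card_le_card hun
  have hcc : ((Au ∪ Ay).card : ℝ) + ((Au ∩ Ay).card : ℝ) = (Au.card : ℝ) + (Ay.card : ℝ) := by
    exact_mod_cast Finset.card_union_add_card_inter Au Ay
  have hpu : (pr l τ : ℝ) ≤ (Au.card : ℝ) := by exact_mod_cast hA u hu
  have hpy : (pr l τ : ℝ) ≤ (Ay.card : ℝ) := by exact_mod_cast hA y hy
  have hp0 : (0 : ℝ) ≤ (pr l τ : ℝ) := Nat.cast_nonneg _
  by_cases hadj : G.Adj u y
  · have hyX := (mem_cnb G).1 hy
    have hyc : y ∈ cnb G W (insert u P) := by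
      rw [mem_cnb]
      refine ⟨hB.hXW hyX.1, fun s hs => ?_⟩
      rcases Finset.mem_insert.1 hs with rfl | hs
      · exact hadj
      · exact hyX.2 s hs
    have hsubW : cnb G W (insert u P) ⊆ W := Finset.filter_subset _ _
    have hn : nn G (cnb G W (insert u P)) y < τ 0 :=
      lt_of_le_of_lt ((nn_mono G hsubW y).trans (hB.hc y hyX.1)) hτ
    obtain ⟨t1, t2, t3⟩ := hTSS V G W X q m l τ σ hB (insert u P) (hins u hu)
    rcases hCG V G (cnb G W (insert u P)) τ y (str_zero t1) (hq.trans hτ.le) hyc hn with h | h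
    · rw [t2] at h
      have h5 : (Au.card : ℝ) ≤ ((Gp G W X (m + l + 1) P).card : ℝ) := by
        exact_mod_cast Finset.card_le_card (hsub u hu)
      exact h.trans h5
    · rw [t3 y hyc] at h
      have h5 : Au ∩ Ay ⊆ (cl G W (m + l + 1)).filter (fun K => insert u P ⊆ K ∧ y ∈ K) := by
        intro K hK
        rw [Finset.mem_inter, hAu, hAy, Finset.mem_filter, Finset.mem_filter] at hK
        rw [Finset.mem_filter]
        exact ⟨hK.1.1, hK.1.2, hK.2.2 (Finset.mem_insert_self y P)⟩
      have h6 : ((Au ∩ Ay).card : ℝ) ≤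
          (((cl G W (m + l + 1)).filter (fun K => insert u P ⊆ K ∧ y ∈ K)).card : ℝ) := by
        exact_mod_cast Finset.card_le_card h5
      linarith
  · have hdis : Au ∩ Ay = ∅ := by
      rw [Finset.eq_empty_iff_forall_notMem]
      intro K hK
      rw [Finset.mem_inter, hAu, hAy, Finset.mem_filter, Finset.mem_filter] at hK
      have hKc := ((mem_cl G).1 hK.1.1).2.1
      exact hadj (hKc (hK.1.2 (Finset.mem_insert_self u P)) (hK.2.2 (Finset.mem_insert_self y P))
        huy)
    rw [hdis, Finset.card_empty, Nat.cast_zero, add_zero] at hcc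
    nlinarith

end Pool.Agent.N917.MB
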