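import Pool.Agent.N917.MB.Stm

/-!
# MB/GP0: groups in the case without tail

Author: helper488 (project MB of helper917, page MP_76b19e_co).
-/

namespace Pool.Agent.N917.MB

open Finset
open Pool.Agent.Results.MP_76b19e_co.ForcedCliques (nn cnb cl miss mem_cl mem_cnb card_cnb_add_miss
  Admissible minCliques)
open Pool.Agent.N917.KR (gw es)

namespace GP0

variable {V : Type} [DecidableEq V] (G : SimpleGraph V) [DecidableRel G.Adj]

theorem card_miss_sum (W S : Finset V) : (miss G W S).card ≤ ∑ s ∈ S, nn G W s := by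
  have : miss G W S ⊆ S.biUnion (fun s => W.filter (fun w => ¬ G.Adj s w)) := by
    intro w hw
    rw [Pool.Agent.Results.MP_76b19e_co.ForcedCliques.mem_miss] at hw
    obtain ⟨hw, s, hs, h⟩ := hw
    exact mem_biUnion.2 ⟨s, hs, mem_filter.2 ⟨hw, h⟩⟩
  exact (card_le_card this).trans card_biUnion_le

end GP0

open GP0 in
theorem t_GP0 : S_TSS → S_GP0 := by
  intro _ V _ G _ W X q m τ σ hB P hP hU
  obtain ⟨hPX, hPc⟩ := (mem_cl G).1 hP
  have hm := hB.hm
  by_cases h2 : 2 ≤ (Gp G W X (m + 1) P).card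
  · exact Or.inl h2
  refine Or.inr ?_
  have h1 : (Gp G W X (m + 1) P).card ≤ 1 := by omega
  have heq : ∀ K ∈ Gp G W X (m + 1) P, ∀ K' ∈ Gp G W X (m + 1) P, K = K' :=
    fun K hK K' hK' => card_le_one.1 h1 K hK K' hK'
  -- basic facts on `U`
  have huP : ∀ u ∈ cnb G X P, u ∉ P := fun u hu h =>
    G.loopless.irrefl u (((mem_cnb G).1 hu).2 u h)
  have hS : ∀ u ∈ cnb G X P, insert u P ⊆ X ∧ G.IsNClique m (insert u P) := by
    intro u hu
    have hu' := (mem_cnb G).1 hu
    refine ⟨insert_subset hu'.1 hPX, ?_⟩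
    have := hPc.insert (a := u) (fun b hb => (hu'.2 b hb).symm)
    rwa [show m - 1 + 1 = m by omega] at this
  have hzS : ∀ u ∈ cnb G X P, ∀ z ∈ cnb G W (insert u P), z ∉ insert u P := fun u _ z hz h =>
    G.loopless.irrefl z (((mem_cnb G).1 hz).2 z h)
  have hmem : ∀ u ∈ cnb G X P, ∀ z ∈ cnb G W (insert u P),
      insert z (insert u P) ∈ Gp G W X (m + 1) P := by
    intro u hu z hz
    have hz' := (mem_cnb G).1 hz
    refine mem_filter.2 ⟨(mem_cl G).2 ⟨?_, ?_⟩, ?_, u, hu, ?_⟩
    · exact insert_subset hz'.1 ((hS u hu).1.trans hB.hXW)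
    · exact (hS u hu).2.insert (a := z) (fun b hb => (hz'.2 b hb).symm)
    · exact (subset_insert _ _).trans (subset_insert _ _)
    · exact mem_insert_of_mem (mem_insert_self _ _)
  have hcard : ∀ u ∈ cnb G X P, 1 + σ + (q - nn G W u) ≤ (cnb G W (insert u P)).card := by
    intro u hu
    have a1 := card_cnb_add_miss G W (insert u P)
    have a2 := card_miss_sum G W (insert u P)
    rw [sum_insert (huP u hu)] at a2
    have a3 : ∑ s ∈ P, nn G W s ≤ ∑ s ∈ P, q := sum_le_sum fun s hs => hB.hc s (hPX hs)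
    rw [sum_const, smul_eq_mul, hPc.2] at a3
    have a4 := hB.tot
    simp only [range_zero, sum_empty, add_zero] at a4
    have a5 : nn G W u ≤ q := hB.hc u ((mem_cnb G).1 hu).1
    have a6 : m * q = (m - 1) * q + q := by
      obtain ⟨k, rfl⟩ : ∃ k, m = k + 1 := ⟨m - 1, by omega⟩
      simp [add_mul]
    omega
  have hone : ∀ u ∈ cnb G X P, (cnb G W (insert u P)).card ≤ 1 := by
    intro u hu
    by_contra hcon
    obtain ⟨z, hz, z', hz', hne⟩ := one_lt_card.1 (by omega : 1 < (cnb G W (insert u P)).card)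
    have := heq _ (hmem u hu z hz) _ (hmem u hu z' hz')
    have h3 : z ∈ insert z' (insert u P) := this ▸ mem_insert_self z _
    rcases mem_insert.1 h3 with h | h
    · exact hne h
    · exact hzS u hu z hz h
  obtain ⟨u0, hu0⟩ : (cnb G X P).Nonempty := card_pos.1 (by omega)
  refine ⟨?_, ?_, ?_⟩
  · have := hcard u0 hu0
    have := hone u0 hu0
    omega
  · obtain ⟨z0, hz0⟩ : (cnb G W (insert u0 P)).Nonempty := card_pos.1 (by
      have := hcard u0 hu0
      omega)
    have hK := hmem u0 hu0 z0 hz0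
    have hsub : P ∪ cnb G X P ⊆ insert z0 (insert u0 P) := by
      refine union_subset ((subset_insert _ _).trans (subset_insert _ _)) ?_
      intro u hu
      obtain ⟨z, hz⟩ : (cnb G W (insert u P)).Nonempty := card_pos.1 (by
        have := hcard u hu
        omega)
      rw [heq _ hK _ (hmem u hu z hz)]
      exact mem_insert_of_mem (mem_insert_self _ _)
    have hKe : P ∪ cnb G X P = insert z0 (insert u0 P) := by
      refine eq_of_subset_of_card_le hsub ?_
      have hd : Disjoint P (cnb G X P) := disjoint_left.2 fun a ha hb => huP a hb ha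
      rw [card_union_of_disjoint hd, hPc.2]
      have : (insert z0 (insert u0 P)).card = m + 1 :=
        ((mem_cl G).1 (mem_filter.1 hK).1).2.2
      omega
    rw [hKe]
    exact eq_singleton_iff_unique_mem.2 ⟨hK, fun K' hK' => heq _ hK' _ hK⟩
  · intro u hu h
    have := hcard u hu
    have := hone u hu
    omega

end Pool.Agent.N917.MB
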