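import Pool.Agent.N917.MB.Stm

namespace Pool.Agent.N917.MB

open Finset
open Pool.Agent.Results.MP_76b19e_co.ForcedCliques

namespace NB

variable {V : Type} [DecidableEq V] (G : SimpleGraph V) [DecidableRel G.Adj]

lemma cnb_eq (W : Finset V) (v : V) : cnb G W {v} = W.filter (fun w => G.Adj v w) := by
  ext w; simp [cnb]

lemma card_F (W : Finset V) (v : V) (t : ℕ) :
    (W.filter (fun u => nn G W u ≤ t)).card ≤
      ((cnb G W {v}).filter (fun u => nn G (cnb G W {v}) u ≤ t)).card + nn G W v := by
  have h : W.filter (fun u => nn G W u ≤ t) ⊆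
      ((cnb G W {v}).filter (fun u => nn G (cnb G W {v}) u ≤ t)) ∪
        W.filter (fun w => ¬ G.Adj v w) := by
    intro u hu
    rw [mem_filter] at hu
    by_cases ha : G.Adj v u
    · apply mem_union_left
      rw [mem_filter, mem_cnb]
      exact ⟨⟨hu.1, by simpa using ha⟩, (nn_mono G (filter_subset _ _) u).trans hu.2⟩
    · apply mem_union_right
      rw [mem_filter]
      exact ⟨hu.1, ha⟩
  exact (card_le_card h).trans (card_union_le _ _)

lemma card_cl (W : Finset V) (v : V) (hv : v ∈ W) (l : ℕ) :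
    (cl G (cnb G W {v}) (l + 1)).card = ((cl G W (l + 2)).filter (fun K => v ∈ K)).card := by
  have hS : G.IsNClique 1 ({v} : Finset V) := by simp
  refine card_nbij' (fun K => insert v K) (fun K => K.erase v) ?_ ?_ ?_ ?_
  · intro K hK
    have h1 := union_clique G hS hK
    have h2 := ((mem_cl G).1 hK).1
    simp only [coe_filter, Set.mem_ofPred_eq]
    rw [insert_eq]
    refine ⟨(mem_cl G).2 ⟨union_subset (by simpa using hv) (h2.trans (filter_subset _ _)), ?_⟩,
      by simp⟩
    have h3 := h1.2
    rwa [show 1 + (l + 1) = l + 2 by ring] at h3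
  · intro K hK
    simp only [coe_filter, Set.mem_ofPred_eq] at hK
    obtain ⟨h1, h2⟩ := hK
    rw [mem_cl] at h1
    show K.erase v ∈ cl G (cnb G W {v}) (l + 1)
    rw [mem_cl]
    refine ⟨?_, ?_, ?_⟩
    · intro u hu
      rw [mem_erase] at hu
      rw [mem_cnb]
      refine ⟨h1.1 hu.2, ?_⟩
      intro s hs
      rw [mem_singleton] at hs
      subst hs
      exact h1.2.1 h2 hu.2 (Ne.symm hu.1)
    · intro a ha b hb hab
      rw [mem_coe, mem_erase] at ha hb
      exact h1.2.1 ha.2 hb.2 hab
    · rw [card_erase_of_mem h2, h1.2.2]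
      omega
  · intro K hK
    have h1 := (union_clique G hS hK).1
    have h2 : v ∉ K := by simpa using h1
    exact erase_insert h2
  · intro K hK
    simp only [coe_filter, Set.mem_ofPred_eq] at hK
    exact insert_erase hK.2

end NB

theorem t_NB : S_NB := by
  intro V _ G _ W l τ σ h v hv hnn
  refine ⟨⟨?_, ?_, ?_⟩, NB.card_cl G W v hv l⟩
  · intro i hi
    exact h.mono (i + 1) (by omega)
  · intro j hj
    have h1 := h.lev (j + 1) (by omega)
    rw [sum_range_succ'] at h1
    have h2 := NB.card_F G W v (τ (j + 1))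
    show ∑ i ∈ range j, τ (i + 1) + 1 + (σ + (τ 0 - nn G W v)) ≤ _
    omega
  · have h1 := h.tot
    rw [sum_range_succ'] at h1
    have h2 := card_nb G W v
    rw [NB.cnb_eq]
    show ∑ i ∈ range l, τ (i + 1) + 1 + (σ + (τ 0 - nn G W v)) ≤ _
    omega

end Pool.Agent.N917.MB
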