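import Pool.Agent.N917.MB.Stm

/-!
Project MB (helper917): classes 0 and 3 are disjoint from the rest.
-/

namespace Pool.Agent.N917.MB

open Finset
open Pool.Agent.Results.MP_76b19e_co.ForcedCliques (nn cnb cl mem_cl mem_cnb)
open Pool.Agent.N917.KR (gw es)

/-- classes 0 and 3 are disjoint from the rest -/
theorem t_OUT : S_UNQ → S_OUT := by
  intro hU V _ G _ W X q m l τ σ B hBk hHX hB K hK hR
  have hU' := hU V G X q m B hHX hB
  have hm := hHX.hm
  have hq := hHX.hq
  have hq64 : 64 ≤ q := by nlinarith
  have hRc : K ∩ X ∈ cl G X m := by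
    rcases Finset.mem_union.1 hR with h | h
    · exact (Finset.mem_filter.1 h).1
    · exact (Finset.mem_filter.1 h).1
  have hRcard : (K ∩ X).card = m := ((mem_cl G).1 hRc).2.2
  constructor
  · intro P hP hKP
    have hPc := (Finset.mem_filter.1 hP).1
    obtain ⟨hPX, hPcl⟩ := (mem_cl G).1 hPc
    obtain ⟨hPK, u, hu, huK⟩ := (Finset.mem_filter.1 hKP).2
    obtain ⟨huX, hua⟩ := (mem_cnb G).1 hu
    have hunP : u ∉ P := fun h => G.loopless.irrefl u (hua u h)
    have hcard : (insert u P).card = m := by
      rw [Finset.card_insert_of_notMem hunP, hPcl.2]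
      omega
    have hsub : insert u P ⊆ K ∩ X := by
      intro v hv
      rw [Finset.mem_inter]
      rcases Finset.mem_insert.1 hv with rfl | hv
      · exact ⟨huK, huX⟩
      · exact ⟨hPK hv, hPX hv⟩
    have heq : insert u P = K ∩ X := Finset.eq_of_subset_of_card_le hsub (by omega)
    have h1 := hU'.2.2.2 _ (hU'.2.1 P hP u hu)
    rw [heq] at h1
    rcases Finset.mem_union.1 hR with h | h
    · have := (Finset.mem_filter.1 h).2
      omega
    · exact (Finset.mem_filter.1 h).2.2.2 ⟨P, hP, (Finset.subset_insert u P).trans hsub⟩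
  · intro S hS hSK
    obtain ⟨hSc, hSe, -⟩ := Finset.mem_filter.1 hS
    obtain ⟨hSX, hScl⟩ := (mem_cl G).1 hSc
    have heq : S = K ∩ X :=
      Finset.eq_of_subset_of_card_le (Finset.subset_inter hSK hSX) (by rw [hRcard, hScl.2])
    rw [heq] at hSe
    rcases Finset.mem_union.1 hR with h | h
    · have := (Finset.mem_filter.1 h).2
      omega
    · have := (Finset.mem_filter.1 h).2
      omega

end Pool.Agent.N917.MB
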