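import Pool.Agent.N917.MB.Stm

/-!
Project MB (helper917), part RI (helper413): cliques over a trace of small deficit.
-/

namespace Pool.Agent.N917.MB

open Finset
open Pool.Agent.Results.MP_76b19e_co.ForcedCliques (nn cnb cl Admissible minCliques)
open Pool.Agent.N917.KR (gw es)

theorem t_RI : S_TRS → S_CRD → S_RI := by
  intro hT hC V _ G _ W X q m l τ σ hB hq R hR
  have hR' := mem_filter.1 hR
  have hE : 2 * es G q X R ≤ q := hR'.2
  have hf : 1 ≤ (l + 1).factorial := Nat.factorial_pos _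
  have hm := hB.hm
  have hq2 : 2 ≤ q := by
    have h1 : 1 * 1 ≤ (m + 2 * m ^ 4) * (l + 1).factorial := Nat.mul_le_mul (by omega) hf
    have h2 : 4 * (m + 2 * m ^ 4) * (l + 1).factorial =
      4 * ((m + 2 * m ^ 4) * (l + 1).factorial) := by ring
    omega
  obtain ⟨h3, -, h4⟩ := hT V G W X q m l τ σ hB R hR'.1 (by omega)
  have h5 := hC V G l _ τ _ h3
  have h6 : 2 * (m + 2 * m ^ 4) * (l + 1).factorial ≤ 1 + (q - 1 - es G q X R + σ) := by
    have h2 : 4 * (m + 2 * m ^ 4) * (l + 1).factorial =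
      2 * (2 * (m + 2 * m ^ 4) * (l + 1).factorial) := by ring
    omega
  have h7 : (l + 1).factorial * (2 * (m + 2 * m ^ 4) * pr l τ) ≤
      (l + 1).factorial * (Tr G W X (m + l + 1) R).card := by
    calc (l + 1).factorial * (2 * (m + 2 * m ^ 4) * pr l τ) =
          (2 * (m + 2 * m ^ 4) * (l + 1).factorial) * pr l τ := by ring
      _ ≤ (1 + (q - 1 - es G q X R + σ)) * pr l τ := Nat.mul_le_mul_right _ h6
      _ ≤ _ := h5
      _ ≤ _ := Nat.mul_le_mul_left _ h4
  exact Nat.le_of_mul_le_mul_left h7 (by omega)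

end Pool.Agent.N917.MB
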