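import Pool.Agent.N917.MB.Stm

/-!
Project MB (helper917), part TL (helper971): cliques whose trace has medium deficit.
-/

set_option autoImplicit false

namespace Pool.Agent.N917.MB

open Finset
open Pool.Agent.Results.MP_76b19e_co.ForcedCliques (nn cnb cl nn_mono)
open Pool.Agent.N917.KR (gw es t_CRUDE t_ID t_P1)

namespace TL

variable {V : Type} [DecidableEq V] {G : SimpleGraph V} [DecidableRel G.Adj]

theorem str_mono {W : Finset V} {l : ℕ} {τ : ℕ → ℕ} {s s' : ℕ} (h : s' ≤ s)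
    (hs : Str G W l τ s) : Str G W l τ s' :=
  ⟨hs.mono, fun j hj => (Nat.add_le_add_left h _).trans (hs.lev j hj),
    (Nat.add_le_add_left h _).trans hs.tot⟩

theorem hx {W X : Finset V} {q m l : ℕ} {τ : ℕ → ℕ} {σ : ℕ} (h : Bk G W X q m l τ σ)
    (hq : 16 * m ^ 2 ≤ q) : HX G X q m :=
  ⟨hq, h.hm, h.hX, fun x hx => (nn_mono G h.hXW x).trans (h.hc x hx)⟩

end TL

open TL in
theorem t_TL : S_TRS → S_W1 → S_TL := by
  intro hT hW V _ G _ W X q m l τ σ q0 c hB hA hA1 hq0 hc hc1 hq hmc R hR hE hE2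
  obtain ⟨h1, h2, h3⟩ := hT V G W X q m l τ σ hB R hR hE
  have hw := hW V G X q m (hx hB hq) R hR hE2
  obtain ⟨w, hw0⟩ : ∃ w, w = wt G q m X R := ⟨_, rfl⟩
  obtain ⟨N, hN⟩ : ∃ N, N = (Tr G W X (m + l + 1) R).card := ⟨_, rfl⟩
  obtain ⟨p, hp⟩ : ∃ p, p = (pr l τ : ℝ) := ⟨_, rfl⟩
  have hp0 : 0 ≤ p := by
    rw [hp]
    exact Nat.cast_nonneg _
  rw [← hw0, ← hN, ← hp]
  rw [← hw0] at hw
  rw [← hN] at h3
  have h3' : ((cl G (cnb G (W \ X) R) (l + 1)).card : ℝ) ≤ N := by exact_mod_cast h3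
  have hτ : 1 ≤ l → q0 ≤ τ 0 := fun hl => hq0.trans (hB.hτ hl).le
  have hm0 : (2 : ℝ) ≤ m := by exact_mod_cast hB.hm
  have hq1 : (0 : ℝ) < q := by
    by_contra hcon
    have h4 : (q : ℝ) ≤ 0 := not_lt.1 hcon
    nlinarith
  have hw1 : w ≤ 1 + c / 4 := by
    refine hw.trans ?_
    have h4 : 4 * (m : ℝ) / q ≤ c / 4 := by
      rw [div_le_div_iff₀ hq1 (by norm_num)]
      linarith
    linarith
  have hwp : w * p ≤ (1 + c / 4) * p := mul_le_mul_of_nonneg_right hw1 hp0
  have key : ∀ s, 1 ≤ s → Str G (cnb G (W \ X) R) l τ s →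
      w * p ≤ N ∧ (1 + c / 4) * (w * p) ≤ N := by
    intro s hs hS
    have h4 := hA1 V G (cnb G (W \ X) R) τ (str_mono hs hS) hτ
    rw [← hp] at h4
    have h5 := h4.trans h3'
    have h6 : (1 + c / 4) * (w * p) ≤ (1 + c / 4) * ((1 + c / 4) * p) :=
      mul_le_mul_of_nonneg_left hwp (by linarith)
    have h7 : (1 + c / 4) * ((1 + c / 4) * p) ≤ (1 + c) * p := by
      have h8 : (1 + c / 4) * (1 + c / 4) ≤ 1 + c := by nlinarith
      calc (1 + c / 4) * ((1 + c / 4) * p) = (1 + c / 4) * (1 + c / 4) * p := by ring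
        _ ≤ (1 + c) * p := mul_le_mul_of_nonneg_right h8 hp0
    refine ⟨hwp.trans (le_trans ?_ h5), h6.trans (h7.trans h5)⟩
    exact mul_le_mul_of_nonneg_right (by linarith) hp0
  constructor
  · by_cases hcase : es G q X R + 2 ≤ q
    · exact (key _ (by omega) h1).1
    · have hw2 : w ≤ 1 := by
        have h4 := t_P1 t_CRUDE t_ID V G q m X R (by have := hB.hm; omega) hq hB.hX.ge
          (hx hB hq).hc hR hE
        have h5 : (q : ℝ) - es G q X R = 1 := by
          have h6 : q = es G q X R + 1 := by omega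
          have h7 : (q : ℝ) = es G q X R + 1 := by exact_mod_cast h6
          linarith
        rw [h5] at h4
        rw [hw0]
        exact h4
      have h4 := hA V G (cnb G (W \ X) R) τ (str_mono (Nat.zero_le _) h1) hτ
      have h5 : p ≤ N := by
        rw [hp]
        exact_mod_cast h4.trans h3
      calc w * p ≤ 1 * p := mul_le_mul_of_nonneg_right hw2 hp0
        _ ≤ N := by rw [one_mul]; exact h5
  · rintro (hσ | hv)
    · exact (key _ (by omega) h1).2
    · exact (key _ (by omega) (h2 hv)).2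

end Pool.Agent.N917.MB
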