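import Pool.Agent.N917.MB.Stm

/-!
Project MB (helper917), part TRS: structure of the outside of a trace. By helper426.
-/

namespace Pool.Agent.N917.MB

open Finset
open Pool.Agent.Results.MP_76b19e_co.ForcedCliques
open Pool.Agent.N917.KR (gw es)

namespace TRS

variable {V : Type} [DecidableEq V] (G : SimpleGraph V) [DecidableRel G.Adj]

/-- the structure outside of `X` -/
theorem str_of {W X R : Finset V} {q m l σ s : ℕ} {τ : ℕ → ℕ} (H : Bk G W X q m l τ σ)
    (hs : s + (miss G (W \ X) R).card + 1 ≤ q + σ) : Str G (cnb G (W \ X) R) l τ s := by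
  have hm1 : m * q = (m - 1) * q + q := by
    obtain ⟨k, rfl⟩ : ∃ k, m = k + 1 := ⟨m - 1, by have := H.hm; omega⟩
    simp only [Nat.add_sub_cancel]
    ring
  have h3 := H.hX
  refine ⟨H.mono, fun j hj => ?_, ?_⟩
  · have h1 := H.lev j hj
    have h2 : (W.filter (fun v => nn G W v ≤ τ j)).card ≤
        (W.filter (fun v => nn G W v ≤ τ j) ∩ cnb G (W \ X) R).card +
          (X.card + (miss G (W \ X) R).card) := by
      have : W.filter (fun v => nn G W v ≤ τ j) ⊆
          (W.filter (fun v => nn G W v ≤ τ j) ∩ cnb G (W \ X) R) ∪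
            (X ∪ miss G (W \ X) R) := by
        intro w hw
        by_cases hx : w ∈ X
        · exact mem_union_right _ (mem_union_left _ hx)
        · have hwW : w ∈ W \ X := mem_sdiff.2 ⟨(mem_filter.1 hw).1, hx⟩
          by_cases ha : ∀ s ∈ R, G.Adj s w
          · exact mem_union_left _ (mem_inter.2 ⟨hw, (mem_cnb G).2 ⟨hwW, ha⟩⟩)
          · push Not at ha
            exact mem_union_right _ (mem_union_right _ ((mem_miss G).2 ⟨hwW, ha⟩))
      refine (card_le_card this).trans ((card_union_le _ _).trans ?_)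
      exact Nat.add_le_add_left (card_union_le _ _) _
    have h4 : (W.filter (fun v => nn G W v ≤ τ j) ∩ cnb G (W \ X) R).card ≤
        ((cnb G (W \ X) R).filter (fun v => nn G (cnb G (W \ X) R) v ≤ τ j)).card := by
      apply card_le_card
      intro v hv
      obtain ⟨hv1, hv2⟩ := mem_inter.1 hv
      refine mem_filter.2 ⟨hv2, (nn_mono G ?_ v).trans (mem_filter.1 hv1).2⟩
      exact (filter_subset _ _).trans sdiff_subset
    omega
  · have h1 := H.tot
    have hU := card_cnb_add_miss G (W \ X) R
    have hWX : (W \ X).card + X.card = W.card := by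
      rw [card_sdiff_add_card_eq_card H.hXW]
    omega

end TRS

theorem t_TRS : S_TRS := by
  intro V _ G _ W X q m l τ σ H R hR hes
  rw [mem_cl] at hR
  obtain ⟨hRX, hRc⟩ := hR
  have hle : ∀ v ∈ R, nn G (W \ X) v ≤ nn G (W \ X) v + 0 ∧ nn G X v ≤ nn G W v ∧
      nn G (W \ X) v ≤ q - nn G X v := by
    intro v hv
    have h1 := nn_split G H.hXW v
    have h2 := H.hc v (hRX hv)
    omega
  refine ⟨TRS.str_of G H ?_, ?_, ?_⟩
  · have hmiss : (miss G (W \ X) R).card ≤ es G q X R := by
      refine (card_miss_le G (W \ X) R).trans ?_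
      rw [es]
      exact sum_le_sum fun v hv => (hle v hv).2.2
    omega
  · rintro ⟨v, hv, hvq⟩
    refine TRS.str_of G H ?_
    have hmiss : (miss G (W \ X) R).card + 1 ≤ es G q X R := by
      refine (Nat.add_le_add_right (card_miss_le G (W \ X) R) 1).trans ?_
      rw [es]
      refine Nat.succ_le_of_lt (sum_lt_sum (fun v hv => (hle v hv).2.2) ⟨v, hv, ?_⟩)
      have h1 := nn_split G H.hXW v
      omega
    omega
  · have h1 := Pool.Agent.N917.KR.TR.inj G (j := l + 1) H.hXW hRX hRc
    have e : m + (l + 1) = m + l + 1 := by ring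
    rw [e] at h1
    exact h1

end Pool.Agent.N917.MB
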