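import Pool.Agent.N917.MB.Stm

/-!
Project MB (helper917): the structure of the common neighbourhood of an `m`-clique (by helper386).
-/

namespace Pool.Agent.N917.MB

open Finset
open Pool.Agent.Results.MP_76b19e_co.ForcedCliques (nn cnb cl mem_cl mem_cnb nn_mono
  card_cnb_add_miss card_miss_le union_clique)

namespace TSS

variable {V : Type} [DecidableEq V] {G : SimpleGraph V} [DecidableRel G.Adj]

lemma cnb_card {W Y S : Finset V} {q m : ℕ} (hY : Y ⊆ W) (hS : S.card = m)
    (hc : ∀ s ∈ S, nn G W s ≤ q) : Y.card ≤ (cnb G Y S).card + m * q := by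
  have h1 := card_cnb_add_miss G Y S
  have h2 := card_miss_le G Y S
  have h3 : ∑ s ∈ S, nn G Y s ≤ ∑ s ∈ S, q :=
    Finset.sum_le_sum fun s hs => (nn_mono G hY s).trans (hc s hs)
  rw [Finset.sum_const, hS, smul_eq_mul] at h3
  omega

lemma not_mem {W S : Finset V} {y : V} (hy : y ∈ cnb G W S) : y ∉ S := fun h =>
  G.loopless.irrefl y (((mem_cnb G).1 hy).2 y h)

lemma count {W S : Finset V} {m l : ℕ} (hSW : S ⊆ W) (hS : G.IsNClique m S)
    (p p' : Finset V → Prop) [DecidablePred p] [DecidablePred p']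
    (hp : ∀ K ∈ cl G (cnb G W S) l, p K ↔ p' (S ∪ K)) :
    ((cl G (cnb G W S) l).filter p).card =
      ((cl G W (m + l)).filter (fun K => S ⊆ K ∧ p' K)).card := by
  refine Finset.card_bij (fun K _ => S ∪ K) ?_ ?_ ?_
  · intro K hK
    rw [Finset.mem_filter] at hK ⊢
    obtain ⟨hK, hpK⟩ := hK
    have h1 := union_clique G hS hK
    refine ⟨(mem_cl G).2 ⟨?_, h1.2⟩, Finset.subset_union_left, (hp K hK).1 hpK⟩
    exact Finset.union_subset hSW (((mem_cl G).1 hK).1.trans (Finset.filter_subset _ _))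
  · intro K hK K' hK' h
    rw [Finset.mem_filter] at hK hK'
    have h1 := (union_clique G hS hK.1).1
    have h2 := (union_clique G hS hK'.1).1
    have e1 : (S ∪ K) \ S = K := by
      rw [Finset.union_sdiff_left]
      exact Finset.sdiff_eq_self_of_disjoint h1.symm
    have e2 : (S ∪ K') \ S = K' := by
      rw [Finset.union_sdiff_left]
      exact Finset.sdiff_eq_self_of_disjoint h2.symm
    have h : S ∪ K = S ∪ K' := h
    rw [← e1, ← e2, h]
  · intro L hL
    rw [Finset.mem_filter, mem_cl] at hL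
    obtain ⟨⟨hLW, hLc⟩, hSL, hpL⟩ := hL
    have e : S ∪ L \ S = L := Finset.union_sdiff_of_subset hSL
    have hK : L \ S ∈ cl G (cnb G W S) l := by
      rw [mem_cl]
      refine ⟨?_, ?_, ?_⟩
      · intro v hv
        rw [Finset.mem_sdiff] at hv
        rw [mem_cnb]
        refine ⟨hLW hv.1, fun s hs => ?_⟩
        exact hLc.1 (hSL hs) hv.1 fun h => hv.2 (h ▸ hs)
      · exact hLc.1.subset (by exact_mod_cast Finset.sdiff_subset)
      · rw [Finset.card_sdiff_of_subset hSL, hLc.2, hS.2]
        omega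
    refine ⟨L \ S, ?_, e⟩
    rw [Finset.mem_filter]
    refine ⟨hK, (hp _ hK).2 ?_⟩
    rwa [e]

end TSS

open TSS

theorem t_TSS : S_TSS := by
  intro V _ G _ W X q m l τ σ hB S hS
  rw [mem_cl] at hS
  obtain ⟨hSX, hSc⟩ := hS
  have hSW : S ⊆ W := hSX.trans hB.hXW
  have hc : ∀ s ∈ S, nn G W s ≤ q := fun s hs => hB.hc s (hSX hs)
  refine ⟨⟨hB.mono, ?_, ?_⟩, ?_, ?_⟩
  · intro j hj
    have h1 := hB.lev j hj
    have h2 := cnb_card (G := G) (Y := W.filter (fun v => nn G W v ≤ τ j))
      (Finset.filter_subset _ _) hSc.2 hc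
    have h3 : (cnb G (W.filter (fun v => nn G W v ≤ τ j)) S).card ≤
        ((cnb G W S).filter (fun v => nn G (cnb G W S) v ≤ τ j)).card := by
      apply Finset.card_le_card
      intro v hv
      rw [mem_cnb, Finset.mem_filter] at hv
      rw [Finset.mem_filter, mem_cnb]
      exact ⟨⟨hv.1.1, hv.2⟩, (nn_mono G (Finset.filter_subset _ _) v).trans hv.1.2⟩
    omega
  · have h1 := hB.tot
    have h2 := cnb_card (G := G) (Y := W) (Finset.Subset.refl W) hSc.2 hc
    omega
  · have h1 := count (G := G) (l := l + 1) hSW hSc (fun _ => True) (fun _ => True)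
      (fun _ _ => Iff.rfl)
    rw [Finset.filter_true_of_mem (fun _ _ => trivial)] at h1
    rw [h1]
    congr 1
    ext K
    simp only [Finset.mem_filter, and_true]
    rw [← add_assoc]
  · intro y hy
    have h1 := count (G := G) (l := l + 1) hSW hSc (fun K => y ∈ K) (fun K => y ∈ K)
      (fun K _ => by
        rw [Finset.mem_union]
        exact ⟨Or.inr, fun h => h.resolve_left (not_mem hy)⟩)
    rw [h1, ← add_assoc]

end Pool.Agent.N917.MB
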