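import Pool.Agent.N917.MB.Stm

/-!
Project MB (helper917): uniqueness of cores, and the classes.
-/

set_option autoImplicit false

namespace Pool.Agent.N917.MB

open Finset
open Pool.Agent.Results.MP_76b19e_co.ForcedCliques (nn cnb cl Admissible minCliques mem_cl mem_cnb)
open Pool.Agent.N917.KR (gw es)

namespace UNQ

variable {V : Type} [DecidableEq V] (G : SimpleGraph V) [DecidableRel G.Adj]

/-- `1 + E(P) ≤ b(P)` -/
lemma budget {X : Finset V} {q m : ℕ} (h : HX G X q m) {P : Finset V}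
    (hP : P ∈ cl G X (m - 1)) : 1 + es G q X P ≤ (cnb G X P).card := by
  have h1 := (Pool.Agent.N917.KR.t_BUD V G X P).2.1
  rw [mem_cl] at hP
  have h2 : es G q X P + ∑ v ∈ P, nn G X v = (m - 1) * q := by
    unfold Pool.Agent.N917.KR.es
    rw [← Finset.sum_add_distrib]
    have h3 : ∀ v ∈ P, q - nn G X v + nn G X v = q := fun v hv => by
      have := h.hc v (hP.1 hv)
      omega
    rw [Finset.sum_congr rfl h3, Finset.sum_const, hP.2.2, smul_eq_mul]
  have h4 := h.hX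
  omega

lemma not_mem {X P : Finset V} {v : V} (hv : v ∈ cnb G X P) : v ∉ P := by
  intro h
  rw [mem_cnb] at hv
  exact G.loopless.irrefl v (hv.2 v h)

lemma insert_mem {X P : Finset V} {v : V} {m : ℕ} (hm : 2 ≤ m) (hP : P ∈ cl G X (m - 1))
    (hv : v ∈ cnb G X P) : insert v P ∈ cl G X m := by
  have hvP := not_mem G hv
  rw [mem_cl] at hP ⊢
  rw [mem_cnb] at hv
  refine ⟨Finset.insert_subset hv.1 hP.1, ?_⟩
  have h1 : G.IsNClique (m - 1 + 1) (insert v P) := hP.2.insert fun b hb => (hv.2 b hb).symm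
  rwa [Nat.sub_add_cancel (by omega)] at h1

lemma mem_Co {X : Finset V} {q m B : ℕ} {P : Finset V} :
    P ∈ Co G X q m B ↔ P ∈ cl G X (m - 1) ∧ 2 ≤ (cnb G X P).card ∧ (cnb G X P).card ≤ B ∧
    ∀ v ∈ cnb G X P, q < 2 * es G q X (insert v P) := by
  unfold Co
  rw [Finset.mem_filter]

lemma es_insert {X : Finset V} {q : ℕ} {P : Finset V} {v : V} (hv : v ∉ P) :
    es G q X (insert v P) = (q - nn G X v) + es G q X P := by
  unfold Pool.Agent.N917.KR.es
  rw [Finset.sum_insert hv]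

lemma le_es {X : Finset V} {q : ℕ} {P : Finset V} {v : V} (hv : v ∈ P) :
    q - nn G X v ≤ es G q X P := by
  unfold Pool.Agent.N917.KR.es
  exact Finset.single_le_sum (f := fun v => q - nn G X v) (fun _ _ => Nat.zero_le _) hv

lemma unique {X : Finset V} {q m B : ℕ} (h : HX G X q m) (hB : 4 * B ≤ q) {P P' : Finset V}
    (hP : P ∈ Co G X q m B) (hP' : P' ∈ Co G X q m B) {j : ℕ} {K : Finset V}
    (hK : G.IsNClique j K) (h1 : P ⊆ K) (h2 : P' ⊆ K) : P = P' := by
  by_contra hne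
  rw [mem_Co] at hP hP'
  have hc : P.card = m - 1 := ((mem_cl G).1 hP.1).2.2
  have hc' : P'.card = m - 1 := ((mem_cl G).1 hP'.1).2.2
  have hns : ¬ P' ⊆ P := fun hs =>
    hne (Finset.eq_of_subset_of_card_le hs (by omega)).symm
  obtain ⟨v, hv', hv⟩ := Finset.not_subset.1 hns
  have hvc : v ∈ cnb G X P := by
    rw [mem_cnb]
    refine ⟨((mem_cl G).1 hP'.1).1 hv', fun s hs => ?_⟩
    refine hK.1 (Finset.mem_coe.2 (h1 hs)) (Finset.mem_coe.2 (h2 hv')) ?_
    rintro rfl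
    exact hv hs
  have h3 := hP.2.2.2 v hvc
  rw [es_insert G hv] at h3
  have h4 := le_es G (X := X) (q := q) hv'
  have h5 := budget G h hP.1
  have h6 := budget G h hP'.1
  have h7 := hP.2.2.1
  have h8 := hP'.2.2.1
  omega

lemma of_K1 {X : Finset V} {q m B : ℕ} (h : HX G X q m) {S : Finset V}
    (hS : S ∈ K1 G X q m B) : ∃ P ∈ Co G X q m B, ∃ v ∈ cnb G X P, S = insert v P := by
  unfold K1 at hS
  rw [Finset.mem_filter, mem_cl] at hS
  obtain ⟨⟨hSX, hSc⟩, P, hP, hPS⟩ := hS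
  refine ⟨P, hP, ?_⟩
  have hc : P.card = m - 1 := ((mem_cl G).1 ((mem_Co G).1 hP).1).2.2
  have hcs : S.card = m := hSc.2
  have hm := h.hm
  have hd : (S \ P).card = 1 := by
    rw [Finset.card_sdiff_of_subset hPS]
    omega
  obtain ⟨v, hv⟩ := Finset.card_eq_one.1 hd
  have hvm : v ∈ S \ P := by rw [hv]; exact Finset.mem_singleton_self v
  rw [Finset.mem_sdiff] at hvm
  refine ⟨v, ?_, ?_⟩
  · rw [mem_cnb]
    refine ⟨hSX hvm.1, fun s hs => ?_⟩
    refine hSc.1 (Finset.mem_coe.2 (hPS hs)) (Finset.mem_coe.2 hvm.1) ?_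
    rintro rfl
    exact hvm.2 hs
  · rw [Finset.insert_eq, ← hv, Finset.sdiff_union_of_subset hPS]

end UNQ

theorem t_UNQ : S_W0 → S_UNQ := by
  intro _ V _ G _ X q m B h hB
  refine ⟨fun P hP P' hP' j K hK h1 h2 => UNQ.unique G h hB hP hP' hK h1 h2,
    fun P hP v hv => ?_, fun S hS => UNQ.of_K1 G h hS, fun S hS => ?_⟩
  · unfold K1
    rw [Finset.mem_filter]
    exact ⟨UNQ.insert_mem G h.hm ((UNQ.mem_Co G).1 hP).1 hv, P, hP, Finset.subset_insert v P⟩
  · obtain ⟨P, hP, v, hv, rfl⟩ := UNQ.of_K1 G h hS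
    exact ((UNQ.mem_Co G).1 hP).2.2.2 v hv

end Pool.Agent.N917.MB
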