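import Pool.Agent.N917.MB.Stm

/-!
Project MB (helper917), part W1: weight of a clique with large deficit.
-/

namespace Pool.Agent.N917.MB

open Finset
open Pool.Agent.Results.MP_76b19e_co.ForcedCliques (nn cnb cl Admissible minCliques)
open Pool.Agent.N917.KR (gw es)

theorem t_W1 : S_W1 := by
  intro V _ G _ X q m hX S hS hE
  obtain ⟨hq, hm, hXc, hc⟩ := hX
  obtain ⟨j, rfl⟩ : ∃ j, m = j + 1 := ⟨m - 1, by omega⟩
  obtain ⟨hSX, hSc⟩ :=
    (Pool.Agent.Results.MP_76b19e_co.ForcedCliques.mem_cl G).1 hS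
  have hcard : S.card = j + 1 := hSc.card_eq
  have hcr := (Pool.Agent.N917.KR.t_CRUDE V G q j 1 (fun v => q - nn G X v) X S hcard le_rfl
    (by rw [hXc, Nat.add_sub_cancel]; omega)
    (fun v hv => by have := hc v (hSX hv); show nn G X v + (q - nn G X v) ≤ q; omega)).2
  have hq64 : 64 ≤ q := by nlinarith
  have hE1 : 1 ≤ es G q X S := by omega
  have hrl := Pool.Agent.N917.KR.t_RL V (es G q X S) 0 (fun v => q - nn G X v) S hE1
    (Finset.card_pos.1 (by omega)) le_rfl (fun w _ => Nat.zero_le _)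
  have h1 : wt G q (j + 1) X S = (q : ℝ) ^ j * gw G (j + 1) X S := rfl
  rw [h1]
  rw [Nat.cast_one] at hcr
  refine hcr.trans (hrl.trans ?_)
  rw [hcard]
  push_cast
  have hq0 : (0 : ℝ) < q := by exact_mod_cast (by omega : 0 < q)
  have hE0 : (0 : ℝ) < es G q X S := by exact_mod_cast hE1
  have hE2 : (q : ℝ) ≤ 2 * es G q X S := by exact_mod_cast hE
  have h2 : 2 * ((j : ℝ) + 1 - 1) / (es G q X S : ℝ) ≤ 4 * ((j : ℝ) + 1) / q := by
    rw [div_le_div_iff₀ hE0 hq0]
    have hj : (0 : ℝ) ≤ j := Nat.cast_nonneg j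
    nlinarith
  have h3 : (1 : ℝ) / (1 + 0) = 1 := by norm_num
  rw [h3]
  linarith

end Pool.Agent.N917.MB
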