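import Pool.Agent.N917.MB.Stm

/-!
Project MB (helper917), leaf W2 (helper492): total weight next to a clique of small deficit.
-/

set_option autoImplicit false

namespace Pool.Agent.N917.MB

open Finset
open Pool.Agent.Results.MP_76b19e_co.ForcedCliques (nn cnb cl mem_cl mem_cnb)
open Pool.Agent.N917.KR (gw es erase_cl es_erase t_LAST)

namespace W2

variable {V : Type} [DecidableEq V]

theorem shape {S R : Finset V} {m : ℕ} (hS : S.card = m) (hR : R.card = m) (hm : 1 ≤ m)
    (h : (S ∩ R).card = m - 1) :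
    ∃ v ∈ R, ∃ y ∈ S, y ∉ R ∧ R.erase v = S.erase y ∧ S = insert y (R.erase v) := by
  have h1 : (S \ R).card = 1 := by
    have := Finset.card_sdiff_add_card_inter S R
    omega
  have h2 : (R \ S).card = 1 := by
    have := Finset.card_sdiff_add_card_inter R S
    rw [Finset.inter_comm] at this
    omega
  obtain ⟨y, hy⟩ := Finset.card_eq_one.1 h1
  obtain ⟨v, hv⟩ := Finset.card_eq_one.1 h2
  have hy' : y ∈ S ∧ y ∉ R := by
    have : y ∈ S \ R := by rw [hy]; exact Finset.mem_singleton_self _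
    rwa [Finset.mem_sdiff] at this
  have hv' : v ∈ R ∧ v ∉ S := by
    have : v ∈ R \ S := by rw [hv]; exact Finset.mem_singleton_self _
    rwa [Finset.mem_sdiff] at this
  have he : R.erase v = S.erase y := by
    ext u
    rw [Finset.mem_erase, Finset.mem_erase]
    constructor
    · rintro ⟨hu, huR⟩
      refine ⟨fun h => hy'.2 (h ▸ huR), ?_⟩
      by_contra huS
      have : u ∈ R \ S := Finset.mem_sdiff.2 ⟨huR, huS⟩
      rw [hv, Finset.mem_singleton] at this
      exact hu this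
    · rintro ⟨hu, huS⟩
      refine ⟨fun h => hv'.2 (h ▸ huS), ?_⟩
      by_contra huR
      have : u ∈ S \ R := Finset.mem_sdiff.2 ⟨huS, huR⟩
      rw [hy, Finset.mem_singleton] at this
      exact hu this
  exact ⟨v, hv'.1, y, hy'.1, hy'.2, he, by rw [he, Finset.insert_erase hy'.1]⟩

theorem single (hW0 : S_W0) (G : SimpleGraph V) [DecidableRel G.Adj] {X : Finset V} {q m : ℕ}
    (hX : HX G X q m) {S : Finset V} (hS : S ∈ cl G X m) {y : V} (hy : y ∈ S)
    (hey : q ≤ 2 * (q - nn G X y)) :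
    wt G q m X S ≤ (q : ℝ) ^ (m - 1) * gw G (m - 1) X (S.erase y) /
      (cnb G X (S.erase y)).card + 2 * ((m : ℝ) - 1) ^ 2 / q := by
  obtain ⟨w1, w2, w3⟩ := hW0 V G X q m hX
  have hm := hX.hm
  have hq := hX.hq
  have hq1 : 1 ≤ q := by nlinarith
  have hqr : (0 : ℝ) < q := by exact_mod_cast hq1
  have hmr : (2 : ℝ) ≤ m := by exact_mod_cast hm
  obtain ⟨j, rfl⟩ : ∃ j, m = j + 1 := ⟨m - 1, by omega⟩
  have hcard : S.card = j + 1 := ((mem_cl G).1 hS).2.2
  have hl := t_LAST V G j X S hcard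
  have hj : j + 1 - 1 = j := by omega
  have hjr : ((j + 1 : ℕ) : ℝ) - 1 = j := by push_cast; ring
  rw [hj] at w2 ⊢
  unfold wt
  rw [hj, hl, Finset.mul_sum, ← Finset.add_sum_erase _ _ hy, mul_div_assoc]
  refine add_le_add le_rfl ?_
  have key : ∀ u ∈ S.erase y, (q : ℝ) ^ j * (gw G j X (S.erase u) /
      ((cnb G X (S.erase u)).card : ℝ)) ≤ 2 * (j : ℝ) / q := by
    intro u hu
    obtain ⟨huy, huS⟩ := Finset.mem_erase.1 hu
    have h1 := w2 (S.erase u) (erase_cl G hS huS)
    rw [hjr] at h1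
    have h2 := w3 S hS u huS
    have h3 : q - nn G X y ≤ es G q X (S.erase u) := by
      unfold es
      exact Finset.single_le_sum (f := fun v => q - nn G X v) (fun _ _ => Nat.zero_le _)
        (Finset.mem_erase.2 ⟨fun h => huy h.symm, hy⟩)
    have h4 : q ≤ 2 * (cnb G X (S.erase u)).card := by omega
    have h5 : (q : ℝ) ≤ 2 * ((cnb G X (S.erase u)).card : ℝ) := by exact_mod_cast h4
    have h6 : (0 : ℝ) < ((cnb G X (S.erase u)).card : ℝ) := by linarith
    rw [← mul_div_assoc, div_le_div_iff₀ h6 hqr]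
    have h7 : 0 ≤ (q : ℝ) ^ j * gw G j X (S.erase u) := mul_nonneg (by positivity) h1.1
    calc (q : ℝ) ^ j * gw G j X (S.erase u) * q ≤ (j : ℝ) * q :=
          mul_le_mul_of_nonneg_right h1.2 hqr.le
      _ ≤ (j : ℝ) * (2 * ((cnb G X (S.erase u)).card : ℝ)) :=
          mul_le_mul_of_nonneg_left h5 (Nat.cast_nonneg _)
      _ = 2 * (j : ℝ) * ((cnb G X (S.erase u)).card : ℝ) := by ring
  have hcard' : (S.erase y).card = j := by
    rw [Finset.card_erase_of_mem hy, hcard]
    rfl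
  refine (Finset.sum_le_card_nsmul _ _ _ key).trans (le_of_eq ?_)
  rw [hcard', hjr, nsmul_eq_mul]
  ring

end W2

open W2 in
theorem t_W2 : S_W0 → S_W2 := by
  intro hW0 V _ G _ X q m hX R hR
  classical
  obtain ⟨hRc, hRe⟩ := Finset.mem_filter.1 hR
  obtain ⟨w1, w2, w3⟩ := hW0 V G X q m hX
  have hm := hX.hm
  have hq := hX.hq
  have hq1 : 1 ≤ q := by nlinarith
  have hqr : (0 : ℝ) < q := by exact_mod_cast hq1
  have hmr : (2 : ℝ) ≤ m := by exact_mod_cast hm
  have hRcard : R.card = m := ((mem_cl G).1 hRc).2.2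
  have hRX : R ⊆ X := ((mem_cl G).1 hRc).1
  set T : Finset (V × V) := (R ×ˢ X).filter fun p => p.2 ∈ cnb G X (R.erase p.1) with hT
  set F : V × V → ℝ := fun p => (q : ℝ) ^ (m - 1) * gw G (m - 1) X (R.erase p.1) /
      (cnb G X (R.erase p.1)).card + 2 * ((m : ℝ) - 1) ^ 2 / q with hF
  have hPcl : ∀ v ∈ R, R.erase v ∈ cl G X (m - 1) := by
    intro v hv
    have h1 : R ∈ cl G X (m - 1 + 1) := by rwa [Nat.sub_add_cancel (by omega)]
    exact erase_cl G h1 hv
  have hF0 : ∀ p ∈ T, 0 ≤ F p := by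
    intro p hp
    have hp1 := (Finset.mem_product.1 (Finset.mem_filter.1 hp).1).1
    have h1 := (w2 _ (hPcl _ hp1)).1
    simp only [hF]
    positivity
  have hstep : ∀ S ∈ (cl G X m).filter (fun S => q ≤ es G q X S ∧ (S ∩ R).card = m - 1),
      wt G q m X S ≤ ∑ p ∈ T with insert p.2 (R.erase p.1) = S, F p := by
    intro S hS
    obtain ⟨hSc, hSe, hSR⟩ := Finset.mem_filter.1 hS
    have hScard : S.card = m := ((mem_cl G).1 hSc).2.2
    obtain ⟨v, hv, y, hy, hyR, he, hins⟩ := shape hScard hRcard (by omega) hSR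
    have hyc : y ∈ cnb G X (R.erase v) := by
      rw [mem_cnb]
      refine ⟨((mem_cl G).1 hSc).1 hy, fun s hs => ?_⟩
      rw [he] at hs
      obtain ⟨hsy, hsS⟩ := Finset.mem_erase.1 hs
      exact ((mem_cl G).1 hSc).2.1 (Finset.mem_coe.2 hsS) (Finset.mem_coe.2 hy) hsy
    have hpT : (v, y) ∈ T.filter fun p => insert p.2 (R.erase p.1) = S := by
      refine Finset.mem_filter.2 ⟨Finset.mem_filter.2 ⟨Finset.mem_product.2
        ⟨hv, ((mem_cl G).1 hSc).1 hy⟩, hyc⟩, hins.symm⟩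
    have hle : es G q X (R.erase v) ≤ es G q X R := by
      have := es_erase G (q := q) (X := X) hv
      omega
    have hes := es_erase G (q := q) (X := X) hy
    rw [← he] at hes
    have hey : q ≤ 2 * (q - nn G X y) := by omega
    have h1 := single hW0 G hX hSc hy hey
    rw [← he] at h1
    refine h1.trans ?_
    have h2 := Finset.single_le_sum (f := F) (s := T.filter fun p =>
      insert p.2 (R.erase p.1) = S) (fun p hp => hF0 p (Finset.mem_filter.1 hp).1) hpT
    exact h2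
  refine (Finset.sum_le_sum hstep).trans ?_
  refine (Finset.sum_fiberwise_le_sum_of_sum_fiber_nonneg (s := T)
    (g := fun p => insert p.2 (R.erase p.1)) (f := F) fun S _ => ?_).trans ?_
  · exact Finset.sum_nonneg fun p hp => hF0 p (Finset.mem_filter.1 hp).1
  have hsum : ∑ p ∈ T, F p = ∑ v ∈ R, ∑ y ∈ X.filter (fun y => y ∈ cnb G X (R.erase v)),
      F (v, y) := by
    rw [hT, Finset.sum_filter, Finset.sum_product]
    refine Finset.sum_congr rfl fun v _ => ?_
    rw [Finset.sum_filter]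
  rw [hsum]
  have hv : ∀ v ∈ R, ∑ y ∈ X.filter (fun y => y ∈ cnb G X (R.erase v)), F (v, y) ≤
      ((m : ℝ) - 1) + 2 * m * ((m : ℝ) - 1) ^ 2 := by
    intro v hv
    have h1 : X.filter (fun y => y ∈ cnb G X (R.erase v)) = cnb G X (R.erase v) := by
      ext y
      rw [Finset.mem_filter, mem_cnb]
      exact ⟨fun h => h.2, fun h => ⟨h.1, h⟩⟩
    rw [h1]
    have h2 : ∑ y ∈ cnb G X (R.erase v), F (v, y) = ((cnb G X (R.erase v)).card : ℝ) *
        ((q : ℝ) ^ (m - 1) * gw G (m - 1) X (R.erase v) /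
          (cnb G X (R.erase v)).card + 2 * ((m : ℝ) - 1) ^ 2 / q) := by
      simp only [hF]
      rw [Finset.sum_const, nsmul_eq_mul]
    rw [h2, mul_add]
    obtain ⟨g1, g2⟩ := w2 _ (hPcl v hv)
    have h3 : ((cnb G X (R.erase v)).card : ℝ) * ((q : ℝ) ^ (m - 1) * gw G (m - 1) X (R.erase v) /
        (cnb G X (R.erase v)).card) ≤ (m : ℝ) - 1 := by
      by_cases h0 : ((cnb G X (R.erase v)).card : ℝ) = 0
      · rw [h0, zero_mul]
        linarith
      · rw [mul_div_cancel₀ _ h0]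
        exact g2
    have h4 : ((cnb G X (R.erase v)).card : ℝ) ≤ m * q := by
      have h5 : (cnb G X (R.erase v)).card ≤ X.card := Finset.card_le_card fun y hy =>
        ((mem_cnb G).1 hy).1
      rw [hX.hX] at h5
      have h6 : (m - 1) * q + 1 ≤ m * q := by
        obtain ⟨j, rfl⟩ : ∃ j, m = j + 1 := ⟨m - 1, by omega⟩
        rw [Nat.add_sub_cancel, add_mul, one_mul]
        omega
      exact_mod_cast h5.trans h6
    have h7 : ((cnb G X (R.erase v)).card : ℝ) * (2 * ((m : ℝ) - 1) ^ 2 / q) ≤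
        2 * m * ((m : ℝ) - 1) ^ 2 := by
      calc ((cnb G X (R.erase v)).card : ℝ) * (2 * ((m : ℝ) - 1) ^ 2 / q) ≤
          (m * q) * (2 * ((m : ℝ) - 1) ^ 2 / q) := mul_le_mul_of_nonneg_right h4 (by positivity)
        _ = 2 * m * ((m : ℝ) - 1) ^ 2 := by field_simp
    linarith
  refine (Finset.sum_le_card_nsmul _ _ _ hv).trans ?_
  rw [hRcard, nsmul_eq_mul]
  nlinarith [mul_nonneg (mul_nonneg (by linarith : (0 : ℝ) ≤ m) (by linarith : (0 : ℝ) ≤ m))
    (by linarith : (0 : ℝ) ≤ (m : ℝ) - 2), mul_nonneg (by linarith : (0 : ℝ) ≤ m)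
    (by linarith : (0 : ℝ) ≤ m)]

end Pool.Agent.N917.MB
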