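import Pool.Agent.N917.MB.Stm

/-!
Project MB (helper917), part W3 (helper186): the weight of the group of a core.
-/

namespace Pool.Agent.N917.MB

open Finset
open Pool.Agent.Results.MP_76b19e_co.ForcedCliques
open Pool.Agent.N917.KR (gw es)

namespace W3

/-- product bound -/
theorem prod_bound {V : Type} [DecidableEq V] (P : Finset V) (q : ℕ) (b e : V → ℕ) (hq : 1 ≤ q)
    (hb : ∀ v ∈ P, b v + e v = q) (hb1 : ∀ v ∈ P, 1 ≤ b v) (E : ℕ) (hE : ∑ v ∈ P, e v = E)
    (hE4 : 4 * E ≤ q) :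
    ∏ v ∈ P, ((q : ℝ) * (1 / (b v : ℝ))) ≤ 1 + 2 * (E : ℝ) / q := by
  have hq0 : (0 : ℝ) < q := by exact_mod_cast hq
  have h1 : 1 - (E : ℝ) / q ≤ ∏ v ∈ P, ((b v : ℝ) / q) := by
    have key : ∀ S : Finset V, S ⊆ P →
        1 - (∑ v ∈ S, (e v : ℝ)) / q ≤ ∏ v ∈ S, ((b v : ℝ) / q) ∧
        0 ≤ ∏ v ∈ S, ((b v : ℝ) / q) ∧ ∏ v ∈ S, ((b v : ℝ) / q) ≤ 1 := by
      intro S
      induction S using Finset.induction_on with
      | empty => intro _; simp
      | insert a S ha ih =>
        intro hS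
        obtain ⟨i1, i2, i3⟩ := ih ((Finset.subset_insert a S).trans hS)
        have haP : a ∈ P := hS (Finset.mem_insert_self a S)
        have hba : (b a : ℝ) = q - e a := by
          have := hb a haP
          have h' : (b a : ℝ) + e a = q := by exact_mod_cast this
          linarith
        have hr : (b a : ℝ) / q = 1 - (e a : ℝ) / q := by
          rw [hba]; field_simp
        have he0 : 0 ≤ (e a : ℝ) / q := by positivity
        have hb0 : 0 ≤ (b a : ℝ) / q := by positivity
        rw [Finset.prod_insert ha, Finset.sum_insert ha]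
        refine ⟨?_, mul_nonneg hb0 i2, ?_⟩
        · have hexp : 1 - ((e a : ℝ) + ∑ v ∈ S, (e v : ℝ)) / q =
              (1 - (∑ v ∈ S, (e v : ℝ)) / q) - (e a : ℝ) / q := by ring
          rw [hexp, hr]
          nlinarith
        · rw [hr]
          nlinarith
    have := (key P (Finset.Subset.refl _)).1
    rw [← hE]
    push_cast
    exact this
  have h2 : (∏ v ∈ P, ((q : ℝ) * (1 / (b v : ℝ)))) * (∏ v ∈ P, ((b v : ℝ) / q)) = 1 := by
    rw [← Finset.prod_mul_distrib]
    apply Finset.prod_eq_one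
    intro v hv
    have : (0 : ℝ) < b v := by exact_mod_cast hb1 v hv
    field_simp
  have h3 : 0 ≤ ∏ v ∈ P, ((q : ℝ) * (1 / (b v : ℝ))) :=
    Finset.prod_nonneg (fun v _ => by positivity)
  have hE4' : 4 * (E : ℝ) ≤ q := by exact_mod_cast hE4
  set x : ℝ := (E : ℝ) / q with hx
  have hx0 : 0 ≤ x := by positivity
  have hx1 : 4 * x ≤ 1 := by
    rw [hx, ← mul_div_assoc, div_le_one hq0]
    exact hE4'
  have hx2 : 1 + 2 * (E : ℝ) / q = 1 + 2 * x := by rw [hx]; ring
  rw [hx2]
  set A := ∏ v ∈ P, ((q : ℝ) * (1 / (b v : ℝ))) with hA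
  have h4 : A * (1 - x) ≤ 1 := by
    calc A * (1 - x) ≤ A * ∏ v ∈ P, ((b v : ℝ) / q) := mul_le_mul_of_nonneg_left h1 h3
      _ = 1 := h2
  -- A ≤ 1/(1-x) ≤ 1 + 2x
  have h5 : 1 ≤ (1 + 2 * x) * (1 - x) := by nlinarith
  have h6 : A * (1 - x) ≤ (1 + 2 * x) * (1 - x) := h4.trans h5
  exact le_of_mul_le_mul_right h6 (by linarith)

end W3

theorem t_W3 : S_W0 → S_W3 := by
  intro hW0 V _ G _ X q m B H hB P hP
  obtain ⟨w1, w2, w3⟩ := hW0 V G X q m H
  unfold Co at hP
  rw [Finset.mem_filter] at hP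
  obtain ⟨hPc, hb2, hbB, hv⟩ := hP
  obtain ⟨hPX, hPcl⟩ := (mem_cl G).1 hPc
  have hm := H.hm
  obtain ⟨j, rfl⟩ : ∃ j, m = j + 1 := ⟨m - 1, by omega⟩
  have hj : 1 ≤ j := by omega
  simp only [Nat.add_sub_cancel] at *
  have hXc := H.hX
  simp only [Nat.add_sub_cancel] at hXc
  have hqq := H.hq
  have hq1 : 1 ≤ q := by nlinarith
  have hq0 : (0 : ℝ) < q := by exact_mod_cast hq1
  have hadd := KR.es_add G hPX H.hc
  rw [hPcl.2] at hadd
  have hbud := (KR.t_BUD V G X P).2.1
  -- 1 + E(P) ≤ b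
  set E := es G q X P with hE
  set b := (cnb G X P).card with hb
  have hEb : 1 + E ≤ b := by omega
  have hnn1 : ∀ v ∈ P, 1 ≤ nn G X v := fun v hv => KR.nn_pos G (hPX hv)
  -- first term
  have hID : gw G j X P ≤ ∏ v ∈ P, 1 / (nn G X v : ℝ) := by
    refine KR.t_ID V G j (fun v => nn G X v) X P hPcl.2 (fun v hv => ⟨le_refl _, hnn1 v hv⟩) ?_
    omega
  have hA : (q : ℝ) ^ j * gw G j X P ≤ 1 + 2 * (E : ℝ) / q := by
    have h1 : (q : ℝ) ^ j * gw G j X P ≤ ∏ v ∈ P, ((q : ℝ) * (1 / (nn G X v : ℝ))) := by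
      rw [Finset.prod_mul_distrib, Finset.prod_const, hPcl.2]
      exact mul_le_mul_of_nonneg_left hID (by positivity)
    refine h1.trans (W3.prod_bound P q (fun v => nn G X v) (fun v => q - nn G X v) hq1 ?_ hnn1 E rfl
      (by omega))
    intro v hv
    have := H.hc v (hPX hv)
    omega
  -- one member of the group
  have hone : ∀ v ∈ cnb G X P, wt G q (j + 1) X (insert v P) ≤
      (q : ℝ) ^ j * gw G j X P / b + j * (4 * (j : ℝ) / q) := by
    intro v hvc
    obtain ⟨hvX, hvadj⟩ := (mem_cnb G).1 hvc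
    have hvP : v ∉ P := fun h => (G.irrefl (hvadj v h)).elim
    have hSc : G.IsNClique (j + 1) (insert v P) := by
      refine hPcl.insert (fun u hu => (hvadj u hu).symm)
    have hScl : insert v P ∈ cl G X (j + 1) := by
      rw [mem_cl]
      exact ⟨Finset.insert_subset hvX hPX, hSc⟩
    have hmed := hv v hvc
    have hesi : es G q X (insert v P) = (q - nn G X v) + E := by
      unfold es
      rw [Finset.sum_insert hvP]
      rfl
    rw [hesi] at hmed
    have h4e : q ≤ 4 * (q - nn G X v) := by omega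
    unfold wt
    simp only [Nat.add_sub_cancel]
    rw [KR.t_LAST V G j X (insert v P) hSc.2, Finset.sum_insert hvP, Finset.erase_insert hvP,
      mul_add, Finset.mul_sum]
    refine add_le_add ?_ ?_
    · rw [← hb, mul_div_assoc]
    · have hbd : ∀ u ∈ P, (q : ℝ) ^ j * (gw G j X ((insert v P).erase u) /
          (cnb G X ((insert v P).erase u)).card) ≤ 4 * (j : ℝ) / q := by
        intro u hu
        have huS : u ∈ insert v P := Finset.mem_insert_of_mem hu
        have hT : (insert v P).erase u ∈ cl G X j := KR.erase_cl G hScl huS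
        have h2 := w2 _ hT
        have h3 := w3 _ hScl u huS
        have hvu : v ≠ u := fun h => hvP (h ▸ hu)
        have hle : q - nn G X v ≤ es G q X ((insert v P).erase u) := by
          unfold es
          exact Finset.single_le_sum (f := fun w => q - nn G X w) (fun _ _ => Nat.zero_le _)
            (Finset.mem_erase.2 ⟨hvu, Finset.mem_insert_self v P⟩)
        set c := (cnb G X ((insert v P).erase u)).card with hc
        have hc4 : q ≤ 4 * c := by omega
        have hc4' : (q : ℝ) ≤ 4 * c := by exact_mod_cast hc4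
        have hc0 : (0 : ℝ) < c := by linarith
        rw [← mul_div_assoc, div_le_div_iff₀ hc0 hq0]
        have h2' : (q : ℝ) ^ j * gw G j X ((insert v P).erase u) ≤ j := by
          have := h2.2
          push_cast at this
          linarith
        have hj0 : (0 : ℝ) ≤ j := by positivity
        calc (q : ℝ) ^ j * gw G j X ((insert v P).erase u) * q ≤ j * q :=
              mul_le_mul_of_nonneg_right h2' hq0.le
          _ ≤ j * (4 * c) := mul_le_mul_of_nonneg_left hc4' hj0
          _ = 4 * (j : ℝ) * c := by ring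
      calc ∑ u ∈ P, (q : ℝ) ^ j * (gw G j X ((insert v P).erase u) /
            (cnb G X ((insert v P).erase u)).card) ≤ ∑ u ∈ P, 4 * (j : ℝ) / q :=
            Finset.sum_le_sum hbd
        _ = j * (4 * (j : ℝ) / q) := by
            rw [Finset.sum_const, hPcl.2, nsmul_eq_mul]
  unfold om
  have hb0 : (0 : ℝ) < b := by
    have : 0 < b := by omega
    exact_mod_cast this
  have hbB' : (b : ℝ) ≤ B := by exact_mod_cast hbB
  have hEB : (E : ℝ) ≤ B := by
    have : E ≤ B := by omega
    exact_mod_cast this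
  have hB0 : (0 : ℝ) ≤ B := by positivity
  have hj1 : (1 : ℝ) ≤ j := by exact_mod_cast hj
  calc ∑ v ∈ cnb G X P, wt G q (j + 1) X (insert v P)
      ≤ ∑ v ∈ cnb G X P, ((q : ℝ) ^ j * gw G j X P / b + j * (4 * (j : ℝ) / q)) :=
        Finset.sum_le_sum hone
    _ = (b : ℝ) * ((q : ℝ) ^ j * gw G j X P / b + j * (4 * (j : ℝ) / q)) := by
        rw [Finset.sum_const, ← hb, nsmul_eq_mul]
    _ = (q : ℝ) ^ j * gw G j X P + b * (j * (4 * (j : ℝ) / q)) := by
        rw [mul_add, mul_div_cancel₀ _ hb0.ne']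
    _ ≤ (1 + 2 * (E : ℝ) / q) + B * (j * (4 * (j : ℝ) / q)) := by
        refine add_le_add hA (mul_le_mul_of_nonneg_right hbB' (by positivity))
    _ ≤ (1 + 2 * (B : ℝ) / q) + B * (j * (4 * (j : ℝ) / q)) := by
        gcongr
    _ ≤ 1 + 4 * (B : ℝ) * ((j + 1 : ℕ) : ℝ) ^ 2 / q := by
        have e1 : (1 + 2 * (B : ℝ) / q) + B * (j * (4 * (j : ℝ) / q)) =
            1 + (2 * (B : ℝ) + 4 * B * (j * j)) / q := by ring
        rw [e1]
        push_cast
        have e2 : 2 * (B : ℝ) + 4 * B * (j * j) ≤ 4 * (B : ℝ) * ((j : ℝ) + 1) ^ 2 := by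
          nlinarith [mul_nonneg hB0 (by linarith : (0 : ℝ) ≤ j)]
        gcongr

end Pool.Agent.N917.MB
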