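import Pool.Agent.N917.MB.Stm

set_option autoImplicit false

/-!
Project MB (helper917), W5: class 4 has small weights.
-/

namespace Pool.Agent.N917.MB

open Finset
open Pool.Agent.Results.MP_76b19e_co.ForcedCliques (nn cnb cl mem_cl)
open Pool.Agent.N917.KR (gw es)

namespace W5

variable {V : Type} [DecidableEq V] (G : SimpleGraph V) [DecidableRel G.Adj]

theorem mem_cnb' {X S : Finset V} {w : V} : w ∈ cnb G X S ↔ w ∈ X ∧ ∀ s ∈ S, G.Adj s w := by
  unfold cnb
  rw [Finset.mem_filter]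

theorem erase_cl' {X K : Finset V} {m : ℕ} (hK : K ∈ cl G X m) {v : V} (hv : v ∈ K) :
    K.erase v ∈ cl G X (m - 1) := by
  rw [mem_cl] at hK ⊢
  refine ⟨(Finset.erase_subset _ _).trans hK.1, ?_⟩
  rw [SimpleGraph.isNClique_iff] at hK ⊢
  refine ⟨hK.2.1.subset (by exact_mod_cast Finset.erase_subset v K), ?_⟩
  rw [Finset.card_erase_of_mem hv, hK.2.2]

theorem insert_cl' {X P : Finset V} {m : ℕ} (hm : 1 ≤ m) (hP : P ∈ cl G X (m - 1)) {v : V}
    (hv : v ∈ cnb G X P) : insert v P ∈ cl G X m ∧ v ∉ P := by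
  rw [mem_cnb'] at hv
  have hvP : v ∉ P := fun h => (hv.2 v h).ne rfl
  rw [mem_cl] at hP ⊢
  refine ⟨⟨?_, ?_⟩, hvP⟩
  · intro x hx
    rcases Finset.mem_insert.mp hx with rfl | hx
    · exact hv.1
    · exact hP.1 hx
  · have h1 := hP.2.insert (a := v) (fun b hb => (hv.2 b hb).symm)
    rwa [Nat.sub_add_cancel hm] at h1

end W5

open W5 in
theorem t_W5 : S_W0 → S_W5 := by
  intro hW0 V _ G _ X q m B hX hB S hS
  obtain ⟨-, h0P, -⟩ := hW0 V G X q m hX
  unfold K4 at hS
  rw [Finset.mem_filter] at hS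
  obtain ⟨hScl, hSe, hSCo, hSK0⟩ := hS
  have hm := hX.hm
  have hq0 : 0 < q := by
    have := hX.hq
    have h1 : 0 < 16 * m ^ 2 := by positivity
    omega
  have hScard : S.card = m := by
    rw [mem_cl, SimpleGraph.isNClique_iff] at hScl
    exact hScl.2.2
  have hSX : S ⊆ X := ((mem_cl G).mp hScl).1
  have hbud := KR.t_BUD V G X S
  -- the common neighbourhood of `S` is not empty
  have h1 : 1 ≤ (cnb G X S).card := by
    have h2 := hbud.2.1
    have h3 : ∑ v ∈ S, nn G X v + es G q X S = m * q := by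
      unfold es
      rw [← Finset.sum_add_distrib, Finset.sum_congr rfl (g := fun _ => q) (fun v hv => by
        have := hX.hc v (hSX hv)
        omega), Finset.sum_const, hScard, smul_eq_mul]
    have h4 := hX.hX
    have h5 : m * q = (m - 1) * q + q := by
      obtain ⟨j, rfl⟩ : ∃ j, m = j + 1 := ⟨m - 1, by omega⟩
      rw [Nat.add_sub_cancel, Nat.succ_mul]
    omega
  have hlarge : ∀ u ∈ S, B < (cnb G X (S.erase u)).card := by
    intro u hu
    by_contra hle
    push Not at hle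
    have hP := erase_cl' G hScl hu
    have h2 := hbud.2.2.2 (by rw [hScard]; exact hScl) u hu
    apply hSCo
    refine ⟨S.erase u, ?_, Finset.erase_subset _ _⟩
    unfold Co
    rw [Finset.mem_filter]
    refine ⟨hP, by omega, hle, ?_⟩
    intro v hv
    by_contra hnot
    push Not at hnot
    obtain ⟨hins, hvP⟩ := insert_cl' G (by omega) hP hv
    have hvu : v ≠ u := by
      rintro rfl
      rw [Finset.insert_erase hu] at hnot
      omega
    have hvS : v ∉ S := fun h => hvP (Finset.mem_erase.mpr ⟨hvu, h⟩)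
    apply hSK0
    refine ⟨insert v (S.erase u), ?_, ?_⟩
    · unfold K0
      rw [Finset.mem_filter]
      exact ⟨hins, hnot⟩
    · rw [Finset.inter_insert_of_notMem hvS, Finset.inter_eq_right.mpr (Finset.erase_subset _ _),
        Finset.card_erase_of_mem hu, hScard]
  obtain ⟨j, rfl⟩ : ∃ j, m = j + 1 := ⟨m - 1, by omega⟩
  rw [Nat.add_sub_cancel] at h0P
  have hBpos : (0 : ℝ) < B := by exact_mod_cast hB
  unfold wt
  rw [Nat.add_sub_cancel, KR.t_LAST V G j X S hScard, Finset.mul_sum]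
  have hterm : ∀ v ∈ S, (q : ℝ) ^ j * (gw G j X (S.erase v) / (cnb G X (S.erase v)).card) ≤
      ((j + 1 : ℕ) : ℝ) / B := by
    intro v hv
    have hP := erase_cl' G hScl hv
    rw [Nat.add_sub_cancel] at hP
    have h3 := h0P _ hP
    have h4 := hlarge v hv
    have h5 : (B : ℝ) ≤ (cnb G X (S.erase v)).card := by exact_mod_cast h4.le
    rw [← mul_div_assoc]
    have h6 : (q : ℝ) ^ j * gw G j X (S.erase v) ≤ ((j + 1 : ℕ) : ℝ) := by linarith [h3.2]
    have h7 : 0 ≤ (q : ℝ) ^ j * gw G j X (S.erase v) := mul_nonneg (by positivity) h3.1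
    calc (q : ℝ) ^ j * gw G j X (S.erase v) / (cnb G X (S.erase v)).card
        ≤ (q : ℝ) ^ j * gw G j X (S.erase v) / B := div_le_div_of_nonneg_left h7 hBpos h5
      _ ≤ ((j + 1 : ℕ) : ℝ) / B := div_le_div_of_nonneg_right h6 hBpos.le
  refine (Finset.sum_le_sum hterm).trans ?_
  rw [Finset.sum_const, hScard, nsmul_eq_mul, sq, mul_div_assoc]

end Pool.Agent.N917.MB
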