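import Pool.Agent.N917.MB.Stm

/-!
MB/XP: the sum over the groups whose core contains `x` (helper31 for the project MB of helper917).
-/

set_option autoImplicit false

namespace Pool.Agent.N917.MB

open Finset
open Pool.Agent.Results.MP_76b19e_co.ForcedCliques (nn cnb cl mem_cl mem_cnb)
open Pool.Agent.N917.KR (gw es)

namespace XP

variable {V : Type} [DecidableEq V] {G : SimpleGraph V} [DecidableRel G.Adj]

lemma not_mem {X P : Finset V} {v : V} (hv : v ∈ cnb G X P) : v ∉ P := fun h =>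
  (G.loopless.irrefl v) ((mem_cnb G).1 hv |>.2 v h)

lemma ins_cl {X P : Finset V} {m : ℕ} (hm : 1 ≤ m) (hP : P ∈ cl G X (m - 1)) {v : V}
    (hv : v ∈ cnb G X P) : insert v P ∈ cl G X m := by
  rw [mem_cl] at hP ⊢
  rw [mem_cnb] at hv
  refine ⟨insert_subset hv.1 hP.1, ?_⟩
  have h := hP.2.insert (a := v) (fun b hb => (hv.2 b hb).symm)
  rwa [Nat.sub_add_cancel hm] at h

end XP

theorem t_XP : S_W0 → S_W4 → S_UNQ → S_XP := by
  intro hW0 hW4 hUNQ V _ G _ X q m B h hB x
  have hm := h.hm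
  have hq := h.hq
  have hq64 : 64 ≤ q := by nlinarith
  obtain ⟨hw0, -, hw3⟩ := hW0 V G X q m h
  obtain ⟨hunq, -, -, -⟩ := hUNQ V G X q m B h (by omega)
  have hCo : ∀ P ∈ Co G X q m B, P ∈ cl G X (m - 1) ∧ (cnb G X P).card ≤ B ∧
      ∀ v ∈ cnb G X P, q < 2 * es G q X (insert v P) := by
    intro P hP
    unfold Co at hP
    rw [mem_filter] at hP
    exact ⟨hP.1, hP.2.2.1, hP.2.2.2⟩
  set T := ((Co G X q m B).filter (fun P => x ∈ P)).sigma (fun P => cnb G X P) with hT
  have hinj : Set.InjOn (fun a : (_ : Finset V) × V => insert a.2 a.1) (T : Set _) := by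
    rintro ⟨P, v⟩ ha ⟨P', v'⟩ hb hab
    simp only [hT, coe_sigma, Set.mem_sigma_iff, mem_coe, mem_filter] at ha hb
    simp only at hab
    obtain ⟨⟨hP, hxP⟩, hv⟩ := ha
    obtain ⟨⟨hP', hxP'⟩, hv'⟩ := hb
    have hK := XP.ins_cl (by omega) (hCo P hP).1 hv
    have e1 : P = P' := hunq P hP P' hP' m (insert v P) ((mem_cl G).1 hK).2 (subset_insert _ _)
      (by rw [hab]; exact subset_insert _ _)
    subst e1
    have h1 : v ∈ insert v' P := by rw [← hab]; exact mem_insert_self _ _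
    rcases mem_insert.1 h1 with h2 | h2
    · rw [h2]
    · exact absurd h2 (XP.not_mem hv)
  have hsum : ∑ P ∈ (Co G X q m B).filter (fun P => x ∈ P), om G q m X P =
      ∑ S ∈ T.image (fun a : (_ : Finset V) × V => insert a.2 a.1), wt G q m X S := by
    rw [sum_image hinj, hT, sum_sigma]
    rfl
  have hsub : T.image (fun a : (_ : Finset V) × V => insert a.2 a.1) ⊆
      (cl G X m).filter (fun S => x ∈ S ∧ q / 4 ≤ (cnb G X (S.erase x)).card) := by
    intro S hS
    rw [mem_image] at hS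
    obtain ⟨⟨P, v⟩, ha, rfl⟩ := hS
    rw [hT, mem_sigma, mem_filter] at ha
    obtain ⟨⟨hP, hxP⟩, hv⟩ := ha
    simp only at hP hxP hv ⊢
    obtain ⟨hPc, hPB, hPe⟩ := hCo P hP
    have hK := XP.ins_cl (by omega) hPc hv
    have hxS : x ∈ insert v P := mem_insert_of_mem hxP
    rw [mem_filter]
    refine ⟨hK, hxS, ?_⟩
    have h1 := hw3 (insert v P) hK x hxS
    have h2 := hw3 (insert v P) hK v (mem_insert_self _ _)
    rw [erase_insert (XP.not_mem hv)] at h2
    have h3 := hPe v hv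
    have h4 : es G q X ((insert v P).erase x) + (q - nn G X x) = es G q X (insert v P) := by
      unfold es
      exact sum_erase_add _ _ hxS
    have h5 : q - nn G X x ≤ es G q X P := by
      unfold es
      exact single_le_sum (f := fun v => q - nn G X v) (fun _ _ => Nat.zero_le _) hxP
    omega
  rw [hsum]
  refine (sum_le_sum_of_subset_of_nonneg hsub fun S hS _ => (hw0 S (mem_filter.1 hS).1).1).trans ?_
  have h6 := hW4 V G X q m h x (q / 4) (by omega)
  have hc : (q : ℝ) ≤ 8 * ((q / 4 : ℕ) : ℝ) := by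
    have : q ≤ 8 * (q / 4) := by omega
    exact_mod_cast this
  have hq0 : (0 : ℝ) < q := by
    have : 0 < q := by omega
    exact_mod_cast this
  have hc0 : (0 : ℝ) < ((q / 4 : ℕ) : ℝ) := by linarith
  have h7 : (m : ℝ) / ((q / 4 : ℕ) : ℝ) ≤ 8 * (m : ℝ) / q := by
    rw [div_le_div_iff₀ hc0 hq0]
    have hm0 : (0 : ℝ) ≤ m := Nat.cast_nonneg m
    nlinarith
  unfold wt
  rw [← mul_sum]
  exact mul_le_mul_of_nonneg_left (h6.trans h7) (by positivity)

end Pool.Agent.N917.MB
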