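import Pool.Agent.N917.MB.PureCG
import Pool.Agent.N917.MB.ALL
import Pool.Agent.N917.MB.BKOF
import Pool.Agent.N917.MB.CRD
import Pool.Agent.N917.MB.DC
import Pool.Agent.N917.MB.FIN2
import Pool.Agent.N917.MB.GP
import Pool.Agent.N917.MB.GP0
import Pool.Agent.N917.MB.NB
import Pool.Agent.N917.MB.OUT
import Pool.Agent.N917.MB.RI
import Pool.Agent.N917.MB.TL
import Pool.Agent.N917.MB.TRS
import Pool.Agent.N917.MB.TSS
import Pool.Agent.N917.MB.UNQ
import Pool.Agent.N917.MB.W0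
import Pool.Agent.N917.MB.W1
import Pool.Agent.N917.MB.W2
import Pool.Agent.N917.MB.W3
import Pool.Agent.N917.MB.W5
import Pool.Agent.N917.MB.XP

/-!
Project MB (helper917): the induction on the number of levels.
-/

set_option autoImplicit false

namespace Pool.Agent.N917.MB

open Finset
open Pool.Agent.Results.MP_76b19e_co.ForcedCliques (nn cnb cl Admissible minCliques nn_mono mem_cl
  cl_one)
open Pool.Agent.N917.KR (gw es)

theorem Par.weaken {q B m l : ℕ} {c : ℝ} (P : Par q B m l c) (hc1 : c ≤ 1) : Par q B m l 1 := by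
  have hq : (0 : ℝ) ≤ q := Nat.cast_nonneg _
  have hB : (0 : ℝ) ≤ B := Nat.cast_nonneg _
  refine ⟨P.h1, ?_, P.h3, P.h4, P.h5, ?_, ?_, P.h8⟩
  · exact P.h2.trans (mul_le_mul_of_nonneg_right hc1 hq)
  · exact P.h6.trans (mul_le_mul_of_nonneg_right hc1 hB)
  · exact P.h7.trans (mul_le_mul_of_nonneg_right hc1 hq)

/-- the explicit threshold -/
def Q0 (L : ℕ) : ℕ := 10 ^ 6 * L ^ 4 * (512 ^ L + (L + 1).factorial)

theorem Q0_mono (L : ℕ) : Q0 L ≤ Q0 (L + 1) := by
  unfold Q0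
  apply Nat.mul_le_mul
  · exact Nat.mul_le_mul le_rfl (Nat.pow_le_pow_left (by omega) 4)
  · exact Nat.add_le_add (Nat.pow_le_pow_right (by norm_num) (by omega))
      (Nat.factorial_le (by omega))

theorem par_expl {L q : ℕ} (hq : Q0 L ≤ q) {m l : ℕ} (hm : 2 ≤ m) (hml : m + l ≤ L) :
    Par q (500 * L ^ 2 * 32 ^ L) m l (1 / (4 * 16 ^ (L - 1))) := by
  obtain ⟨k, rfl⟩ : ∃ k, L = k + 1 := ⟨L - 1, by omega⟩
  rw [Nat.add_sub_cancel]
  set L := k + 1 with hL
  have hL1 : 1 ≤ L := by omega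
  have hmL : m ≤ L := by omega
  have hm2 : m ^ 2 ≤ L ^ 2 := Nat.pow_le_pow_left hmL 2
  have hm4 : m ^ 4 ≤ L ^ 4 := Nat.pow_le_pow_left hmL 4
  have hL24 : L ^ 2 ≤ L ^ 4 := Nat.pow_le_pow_right hL1 (by norm_num)
  have hL14 : L ≤ L ^ 4 := by
    calc L = L ^ 1 := (pow_one L).symm
      _ ≤ L ^ 4 := Nat.pow_le_pow_right hL1 (by norm_num)
  have hf : (l + 1).factorial ≤ (L + 1).factorial := Nat.factorial_le (by omega)
  have h16k : 16 * 16 ^ k = 16 ^ L := by rw [hL, pow_succ]; ring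
  have h512 : 512 ^ L = 32 ^ L * (16 * 16 ^ k) := by
    rw [h16k, ← mul_pow, show 32 * 16 = 512 by norm_num]
  have h32 : 1 ≤ 32 ^ L := Nat.one_le_pow _ _ (by norm_num)
  have h16 : 1 ≤ 16 ^ k := Nat.one_le_pow _ _ (by norm_num)
  have hL41 : 1 ≤ L ^ 4 := Nat.one_le_pow _ _ hL1
  have hq' : 10 ^ 6 * L ^ 4 * 512 ^ L + 10 ^ 6 * L ^ 4 * (L + 1).factorial ≤ q := by
    unfold Q0 at hq
    rw [← mul_add]
    exact hq
  have hA : L ^ 4 * 512 ^ L = 16 * (L ^ 4 * 32 ^ L * 16 ^ k) := by rw [h512]; ring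
  have hB1 : L ^ 4 ≤ L ^ 4 * 32 ^ L * 16 ^ k := by
    calc L ^ 4 = L ^ 4 * 1 * 1 := by ring
      _ ≤ _ := Nat.mul_le_mul (Nat.mul_le_mul le_rfl h32) h16
  have hB2 : L ^ 4 * 16 ^ k ≤ L ^ 4 * 32 ^ L * 16 ^ k := by
    calc L ^ 4 * 16 ^ k = L ^ 4 * 1 * 16 ^ k := by ring
      _ ≤ _ := Nat.mul_le_mul (Nat.mul_le_mul le_rfl h32) le_rfl
  have hB3 : L ^ 4 * 32 ^ L ≤ L ^ 4 * 32 ^ L * 16 ^ k := Nat.le_mul_of_pos_right _ h16
  set Y := L ^ 4 * 32 ^ L * 16 ^ k with hY
  have hq1 : 16000000 * Y ≤ q := by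
    have : 10 ^ 6 * L ^ 4 * 512 ^ L = 16000000 * Y := by
      rw [mul_assoc, hA]
      ring
    omega
  have hkpos : (0 : ℝ) < 4 * 16 ^ k := by positivity
  refine ⟨?_, ?_, ?_, ?_, ?_, ?_, ?_, ?_⟩
  · omega
  · rw [div_mul_eq_mul_div, one_mul, le_div_iff₀ hkpos]
    have h1 : 16 * m * (4 * 16 ^ k) ≤ q := by
      calc 16 * m * (4 * 16 ^ k) = 64 * (m * 16 ^ k) := by ring
        _ ≤ 64 * (L ^ 4 * 16 ^ k) :=
            Nat.mul_le_mul le_rfl (Nat.mul_le_mul (hmL.trans hL14) le_rfl)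
        _ ≤ q := by omega
    exact_mod_cast h1
  · calc 4 * (m + 2 * m ^ 4) * (l + 1).factorial
        ≤ (10 ^ 6 * L ^ 4) * (L + 1).factorial := Nat.mul_le_mul (by omega) hf
      _ ≤ q := by omega
  · have h1 : L ^ 2 * 32 ^ L ≤ L ^ 4 * 32 ^ L := Nat.mul_le_mul hL24 le_rfl
    have h2 : 8 * (500 * L ^ 2 * 32 ^ L) = 4000 * (L ^ 2 * 32 ^ L) := by ring
    omega
  · have : 1 ≤ L ^ 2 := Nat.one_le_pow _ _ hL1
    calc 1 ≤ 500 * L ^ 2 * 1 := by omega
      _ ≤ _ := Nat.mul_le_mul le_rfl h32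
  · rw [div_mul_eq_mul_div, one_mul, le_div_iff₀ hkpos]
    have h1 : 1000 * m ^ 2 * 2 ^ (m + l + 1) * (4 * 16 ^ k) ≤ 500 * L ^ 2 * 32 ^ L := by
      have h2 : 32 ^ L = 2 ^ L * (16 * 16 ^ k) := by
        rw [h16k, ← mul_pow, show 2 * 16 = 32 by norm_num]
      have h3 : 2 ^ (m + l + 1) ≤ 2 ^ (L + 1) := Nat.pow_le_pow_right (by norm_num) (by omega)
      calc 1000 * m ^ 2 * 2 ^ (m + l + 1) * (4 * 16 ^ k)
          ≤ 1000 * L ^ 2 * 2 ^ (L + 1) * (4 * 16 ^ k) :=
            Nat.mul_le_mul (Nat.mul_le_mul (by omega) h3) le_rfl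
        _ = 500 * L ^ 2 * 32 ^ L := by rw [h2, pow_succ]; ring
    exact_mod_cast h1
  · rw [div_mul_eq_mul_div, one_mul, le_div_iff₀ hkpos]
    have h1 : 4000 * (500 * L ^ 2 * 32 ^ L) * m ^ 2 * (4 * 16 ^ k) ≤ q := by
      calc 4000 * (500 * L ^ 2 * 32 ^ L) * m ^ 2 * (4 * 16 ^ k)
          ≤ 4000 * (500 * L ^ 2 * 32 ^ L) * L ^ 2 * (4 * 16 ^ k) :=
            Nat.mul_le_mul (Nat.mul_le_mul le_rfl hm2) le_rfl
        _ = 8000000 * Y := by rw [hY]; ring
        _ ≤ q := by omega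
    exact_mod_cast h1
  · omega

/-- first block of length one -/
theorem step_one {l q0 : ℕ} {c : ℝ} (hc : 0 < c) (hA : CA l q0) (hA1 : CA1 l q0 c)
    {V : Type} [DecidableEq V] {G : SimpleGraph V} [DecidableRel G.Adj] {W : Finset V}
    {τ : ℕ → ℕ} {σ : ℕ} (H : Str G W (l + 1) τ σ) (hq0 : q0 ≤ τ 0)
    (hpr : pr (l + 1) τ = pr l (fun i => τ (i + 1))) :
    pr (l + 1) τ ≤ (cl G W (l + 2)).card ∧
    ((1 ≤ σ ∨ ∃ x ∈ W, nn G W x < τ 0) → (1 + c) * (pr (l + 1) τ : ℝ) ≤ (cl G W (l + 2)).card) := by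
  classical
  have hl0 : 1 ≤ l → q0 ≤ τ (0 + 1) := fun hl => hq0.trans (H.mono 0 (by omega))
  constructor
  · have h0 := H.lev 0 (by omega)
    have h1 : 0 < (W.filter (fun v => nn G W v ≤ τ 0)).card := by omega
    obtain ⟨v, hv⟩ := Finset.card_pos.1 h1
    rw [mem_filter] at hv
    obtain ⟨h2, h3⟩ := t_NB V G W l τ σ H v hv.1 hv.2
    rw [hpr]
    refine (hA V G _ _ (h2.mono_slack (Nat.zero_le _)) hl0).trans ?_
    rw [h3]
    exact Finset.card_le_card (filter_subset _ _)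
  · intro h
    have key : ∀ v ∈ W, nn G W v ≤ τ 0 → 1 ≤ σ + (τ 0 - nn G W v) →
        (1 + c) * (pr (l + 1) τ : ℝ) ≤ (cl G W (l + 2)).card := by
      intro v hv hv' h1
      obtain ⟨h2, h3⟩ := t_NB V G W l τ σ H v hv hv'
      rw [hpr]
      refine (hA1 V G _ _ (h2.mono_slack h1) hl0).trans ?_
      rw [h3]
      exact_mod_cast Finset.card_le_card (filter_subset _ _)
    rcases h with h | ⟨x, hx, hxl⟩
    · have h0 := H.lev 0 (by omega)
      have h1 : 0 < (W.filter (fun v => nn G W v ≤ τ 0)).card := by omega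
      obtain ⟨v, hv⟩ := Finset.card_pos.1 h1
      rw [mem_filter] at hv
      exact key v hv.1 hv.2 (by omega)
    · exact key x hx hxl.le (by omega)

/-- the induction step -/
theorem step (hW4 : S_W4) {L q0 q2 B : ℕ} {c : ℝ} (hL : 1 ≤ L) (hc : 0 < c) (hc1 : c ≤ 1 / 4)
    (hpar : ∀ q, q2 ≤ q → ∀ m l, 2 ≤ m → m + l ≤ L → Par q B m l c)
    (hcl : ∀ l < L, CA l q0 ∧ CA1 l q0 c ∧ (1 ≤ l → CG l q0 c)) :
    CA L (max q0 q2) ∧ CA1 L (max q0 q2) (c / 16) ∧ CG L (max q0 q2) (c / 16) := by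
  have hW0 := t_W0
  have hW1 := t_W1
  have hUNQ := t_UNQ hW0
  have hTSS := t_TSS
  have hTRS := t_TRS
  have hW2 := t_W2 hW0
  have hW3 := t_W3 hW0
  have hW5 := t_W5 hW0
  have hALL := t_ALL hW0 hUNQ
  have hGP := t_GP hTSS
  have hGP0 := t_GP0 hTSS
  have hTL := t_TL hTRS hW1
  have hRI := t_RI hTRS (t_CRD t_NB)
  have hDC := t_DC
  have hOUT := t_OUT hUNQ
  have hXP := t_XP hW0 hW4 hUNQ
  refine ⟨?_, ?_, ?_⟩
  · -- CA
    intro V _ G _ W τ H h0
    have h0' := h0 hL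
    obtain ⟨m, hm1, hmL, hpr, hbk⟩ := t_BKOF V G W L τ 0 H hL
    obtain ⟨l, rfl⟩ := Nat.exists_eq_add_of_le hmL
    rw [Nat.add_sub_cancel_left] at hpr hbk
    rcases Nat.lt_or_ge m 2 with hm | hm
    · obtain rfl : m = 1 := by omega
      obtain ⟨cA, cA1, _⟩ := hcl l (by omega)
      rw [show (fun i => τ (1 + i)) = fun i => τ (i + 1) from funext fun i => by rw [add_comm],
        Nat.sub_self, pow_zero, one_mul, add_comm 1 l] at hpr
      rw [add_comm 1 l] at H ⊢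
      exact (step_one hc cA cA1 H ((le_max_left _ _).trans h0') hpr).1
    · obtain ⟨X, _, hX⟩ := hbk hm ∅ (by simp) (by simp)
      have P := hpar (τ 0) ((le_max_right _ _).trans h0') m l hm le_rfl
      obtain ⟨cA, cA1, cG⟩ := hcl l (by omega)
      rcases Nat.eq_zero_or_pos l with hl | hl
      · subst hl
        have hW := hX.tot
        simp only [range_zero, sum_empty, add_zero] at hW
        rw [hpr]
        have h1 : pr 0 (fun i => τ (m + i)) = 1 := by simp [pr]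
        rw [h1, mul_one]
        exact KR.pure G KR.t_SUM KR.t_LAST KR.t_CRUDE KR.t_ID KR.t_MOVE KR.t_BUD KR.t_YF KR.t_CNT
          (KR.t_P1 KR.t_CRUDE KR.t_ID) (KR.t_NUMP KR.t_RL) hm P.h1 hX.hXW hX.hX hX.hc hW
      · obtain ⟨T, _, _, c1, c2⟩ := core hW0 hW2 hW3 hW5 hUNQ hALL hTSS hGP hGP0 hTL hRI hDC hOUT
          hX P (Or.inl hl) cA cA1 cG ((le_max_left _ _).trans h0') hc (by linarith)
        have := blk_CA (G := G) (W := W) (X := X) (q := τ 0) (m := m) (l := l) (c := c)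
          (p := (pr l (fun i => τ (m + i)) : ℝ)) (Nat.cast_nonneg _) hc
          ⟨T, _, c1, c2⟩
        rw [hpr]
        exact_mod_cast this
  · -- CA1
    intro V _ G _ W τ H h0
    have h0' := h0 hL
    obtain ⟨m, hm1, hmL, hpr, hbk⟩ := t_BKOF V G W L τ 1 H hL
    obtain ⟨l, rfl⟩ := Nat.exists_eq_add_of_le hmL
    rw [Nat.add_sub_cancel_left] at hpr hbk
    have hprn : (0 : ℝ) ≤ (pr (m + l) τ : ℝ) := Nat.cast_nonneg _
    rcases Nat.lt_or_ge m 2 with hm | hm
    · obtain rfl : m = 1 := by omega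
      obtain ⟨cA, cA1, _⟩ := hcl l (by omega)
      rw [show (fun i => τ (1 + i)) = fun i => τ (i + 1) from funext fun i => by rw [add_comm],
        Nat.sub_self, pow_zero, one_mul, add_comm 1 l] at hpr
      rw [add_comm 1 l] at H hprn ⊢
      refine le_trans ?_ ((step_one hc cA cA1 H ((le_max_left _ _).trans h0') hpr).2
        (Or.inl le_rfl))
      exact mul_le_mul_of_nonneg_right (by linarith) hprn
    · obtain ⟨X, _, hX⟩ := hbk hm ∅ (by simp) (by simp)
      have P := hpar (τ 0) ((le_max_right _ _).trans h0') m l hm le_rfl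
      obtain ⟨cA, cA1, cG⟩ := hcl l (by omega)
      obtain ⟨T, t1, _, c1, c2⟩ := core hW0 hW2 hW3 hW5 hUNQ hALL hTSS hGP hGP0 hTL hRI hDC hOUT
          hX P (Or.inr le_rfl) cA cA1 cG ((le_max_left _ _).trans h0') hc (by linarith)
      rw [t1 le_rfl, sum_empty, sub_zero] at c2
      have h3 : (((cl G W (m + l + 1)).filter
          (fun K => K ∩ X ∉ (∅ : Finset (Finset V)))).card : ℝ) ≤
          ((cl G W (m + l + 1)).card : ℝ) := by
        exact_mod_cast Finset.card_le_card (filter_subset _ _)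
      have h4 : (pr (m + l) τ : ℝ) = (τ 0 : ℝ) ^ (m - 1) * (pr l (fun i => τ (m + i)) : ℝ) := by
        rw [hpr]; push_cast; rfl
      rw [← h4] at c2
      have h5 : (1 + c / 16) * (pr (m + l) τ : ℝ) ≤ (1 + c / 4) * (pr (m + l) τ : ℝ) :=
        mul_le_mul_of_nonneg_right (by linarith) hprn
      linarith
  · -- CG
    intro V _ G _ W τ x H h0' hxW hxl
    obtain ⟨m, hm1, hmL, hpr, hbk⟩ := t_BKOF V G W L τ 0 H hL
    obtain ⟨l, rfl⟩ := Nat.exists_eq_add_of_le hmL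
    rw [Nat.add_sub_cancel_left] at hpr hbk
    have hprn : (0 : ℝ) ≤ (pr (m + l) τ : ℝ) := Nat.cast_nonneg _
    rcases Nat.lt_or_ge m 2 with hm | hm
    · obtain rfl : m = 1 := by omega
      obtain ⟨cA, cA1, _⟩ := hcl l (by omega)
      rw [show (fun i => τ (1 + i)) = fun i => τ (i + 1) from funext fun i => by rw [add_comm],
        Nat.sub_self, pow_zero, one_mul, add_comm 1 l] at hpr
      rw [add_comm 1 l] at H hprn ⊢
      left
      refine le_trans ?_ ((step_one hc cA cA1 H ((le_max_left _ _).trans h0') hpr).2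
        (Or.inr ⟨x, hxW, hxl⟩))
      exact mul_le_mul_of_nonneg_right (by linarith) hprn
    · obtain ⟨X, hxX, hX⟩ := hbk hm {x} (by simp) (by
        intro y hy
        rw [mem_singleton] at hy
        subst hy
        exact ⟨hxW, hxl.le⟩)
      have hxX' : x ∈ X := hxX (mem_singleton_self _)
      have P := hpar (τ 0) ((le_max_right _ _).trans h0') m l hm le_rfl
      obtain ⟨cA, cA1, cG⟩ := hcl l (by omega)
      have h4 : (pr (m + l) τ : ℝ) = (τ 0 : ℝ) ^ (m - 1) * (pr l (fun i => τ (m + i)) : ℝ) := by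
        rw [hpr]; push_cast; rfl
      rcases Nat.eq_zero_or_pos l with hl | hl
      · subst hl
        have h5 : (pr 0 (fun i => τ (m + i)) : ℝ) = 1 := by simp [pr]
        rw [h5, mul_one] at h4
        rw [h4] at hprn ⊢
        rcases pureCG hW0 hW2 hW3 hW5 hUNQ hALL hTSS hGP0 hTL hRI hDC hOUT hXP hX
          (P.weaken (by linarith)) hxX' hxl with h6 | h6
        · left
          refine le_trans ?_ h6
          exact mul_le_mul_of_nonneg_right (by linarith) hprn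
        · right
          refine le_trans h6 ?_
          exact mul_le_mul_of_nonneg_right (by linarith) hprn
      · obtain ⟨T, _, t2, c1, c2⟩ := core hW0 hW2 hW3 hW5 hUNQ hALL hTSS hGP hGP0 hTL hRI hDC
          hOUT hX P (Or.inl hl) cA cA1 cG ((le_max_left _ _).trans h0') hc (by linarith)
        rw [h4]
        exact blk_CG (G := G) (W := W) (X := X) (q := τ 0) (m := m) (l := l) (c := c)
          (p := (pr l (fun i => τ (m + i)) : ℝ)) (Nat.cast_nonneg _) hc (by linarith) hxX' hxl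
          ⟨T, _, t2, c1, c2⟩

/-- all claims, explicit -/
theorem all_levels (hW4 : S_W4) (L : ℕ) : Cl L (Q0 L) (1 / (4 * 16 ^ L)) := by
  induction L with
  | zero =>
    intro l' hl'
    obtain rfl : l' = 0 := by omega
    exact ⟨base_CA _, base_CA1 _ (by norm_num), fun h => absurd h (by omega)⟩
  | succ L ih =>
    have hc : (0 : ℝ) < 1 / (4 * 16 ^ L) := by positivity
    have hc1 : (1 : ℝ) / (4 * 16 ^ L) ≤ 1 / 4 := by
      rw [div_le_div_iff₀ (by positivity) (by norm_num)]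
      have : (1 : ℝ) ≤ 16 ^ L := one_le_pow₀ (by norm_num)
      linarith
    have hcc : (1 : ℝ) / (4 * 16 ^ (L + 1)) = 1 / (4 * 16 ^ L) / 16 := by
      rw [pow_succ]
      field_simp
    obtain ⟨a1, a2, a3⟩ := step hW4 (L := L + 1) (q0 := Q0 L) (q2 := Q0 (L + 1))
      (B := 500 * (L + 1) ^ 2 * 32 ^ (L + 1)) (by omega) hc hc1
      (fun q hq m l hm hml => par_expl hq hm hml)
      (fun l hl => ih l (by omega))
    rw [max_eq_right (Q0_mono L)] at a1 a2 a3
    rw [hcc]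
    intro l' hl'
    rcases Nat.lt_or_ge l' (L + 1) with h2 | h2
    · exact (ih.weaken (Q0_mono L) (by linarith)) l' (by omega)
    · obtain rfl : l' = L + 1 := by omega
      exact ⟨a1, a2, fun _ => a3⟩

theorem ca (hW4 : S_W4) (r : ℕ) : CA r (Q0 r) := (all_levels hW4 r r le_rfl).1

open Pool.Agent.Results.MP_76b19e_co.ForcedCliques (SeqHyp jumps_sum exists_seq cliqueCount
  cliqueCount_eq) in
open FIN2 in
/-- the final statement (t_FIN2 with a given threshold, proof by helper478) -/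
theorem fin_expl {r q0 : ℕ} (hr : 2 ≤ r) (hq0 : CA r q0) (hpos : 1 ≤ q0) {n k : ℕ} (hk : k < n)
    (hD : q0 ≤ n - k) (hdom : r * (n - k) + 1 ≤ n) {s : ℕ} (hs : s ≤ r - 1)
    (hst : s * (s + 1) ≤ 2 * (n - 1 - r * (n - k)))
    (hst2 : s = r - 1 ∨ 2 * (n - 1 - r * (n - k)) < (s + 1) * (s + 2)) :
    minCliques n k r = (n - k) ^ (r - 1 - s) := by
  have hres := Pool.Agent.Results.MP_76b19e_co.ForcedCliques.result n k r hr
  apply le_antisymm
  · exact (hres.2 hk hdom s hs hst hst2).1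
  · have hne : {N | ∃ G : SimpleGraph (Fin n), Admissible n k r G ∧
        cliqueCount G (r + 1) = N}.Nonempty := by
      obtain ⟨G, hG⟩ := hres.1.2 ⟨hk, hdom⟩
      exact ⟨_, G, hG, rfl⟩
    obtain ⟨G, hG, hGc⟩ := Nat.sInf_mem hne
    unfold minCliques
    rw [← hGc]
    classical
    obtain ⟨q, hq, hq1⟩ := exists_seq G (by omega) hG
    rw [cliqueCount_eq]
    have hStr : Str G univ r q 0 :=
      ⟨hq.hm, fun j hj => by simpa using hq.hX j hj, by simpa using hq.hW⟩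
    have h1 := hq0 (Fin n) G univ q hStr (fun _ => by
      rw [hq1]
      exact hD)
    refine le_trans ?_ h1
    refine le_trans ?_ (pr_ge (q := q) (r := r) (D := n - k) hq.hm hq1)
    refine Nat.pow_le_pow_right (by omega) ?_
    have hW := hq.hW
    rw [card_univ, Fintype.card_fin] at hW
    have hJ1 := (jumps_sum q (r - 1) (fun i hi => hq.hm i (by omega))).2
    have hrr : r - 1 + 1 = r := by omega
    rw [hrr, hq1] at hJ1
    have hJdef : J q (r - 1) = ((range (r - 1)).filter (fun i => q i ≠ q (i + 1))).card := rfl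
    rw [← hJdef] at hJ1
    have hJr := FIN2.count q (r - 1)
    have hJs : J q (r - 1) ≤ s := by
      rcases hst2 with h2 | h2
      · omega
      · by_contra hcon
        push Not at hcon
        have h3 : (s + 1) * (s + 2) ≤ J q (r - 1) * (J q (r - 1) + 1) :=
          Nat.mul_le_mul (by omega) (by omega)
        omega
    omega

end Pool.Agent.N917.MB
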