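import Pool.Agent.N917.MB.Step

/-!
Project MB (helper917): the case without tail.
-/

set_option autoImplicit false

namespace Pool.Agent.N917.MB

open Finset
open Pool.Agent.Results.MP_76b19e_co.ForcedCliques (nn cnb cl Admissible minCliques nn_mono mem_cl
  cl_one)
open Pool.Agent.N917.KR (gw es)

section

variable {V : Type} [DecidableEq V] {G : SimpleGraph V} [DecidableRel G.Adj]

theorem pureCG (hW0 : S_W0) (hW2 : S_W2) (hW3 : S_W3) (hW5 : S_W5)
    (hUNQ : S_UNQ) (hALL : S_ALL) (hTSS : S_TSS) (hGP0 : S_GP0) (hTL : S_TL)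
    (hRI : S_RI) (hDC : S_DC) (hOUT : S_OUT) (hXP : S_XP)
    {W X : Finset V} {q m : ℕ} {τ : ℕ → ℕ} {B : ℕ}
    (H : Bk G W X q m 0 τ 0) (P : Par q B m 0 1) {x : V} (hx : x ∈ X) (hxl : nn G W x < q) :
    (1 + 1 / 32) * (q : ℝ) ^ (m - 1) ≤ ((cl G W (m + 1)).card : ℝ) ∨
    (((cl G W (m + 1)).filter (fun K => x ∈ K)).card : ℝ) ≤
      (1 - 1 / 32) * (q : ℝ) ^ (m - 1) := by
  classical
  have hX := H.toHX P.h1
  obtain ⟨w0, _, _⟩ := hW0 V G X q m hX
  have h4 := P.h4
  obtain ⟨u1, u2, u3, u4⟩ := hUNQ V G X q m B hX (by omega)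
  have hp : (pr 0 τ : ℝ) = 1 := by simp [pr]
  set Kl := cl G W (m + 1) with hKl
  set Q : ℝ := (q : ℝ) ^ (m - 1) with hQ
  have hQ0 : 0 ≤ Q := by positivity
  set T := (K3 G X q m B).filter
    (fun R => ¬ ((1 + 1 / 4) * (wt G q m X R * 1) ≤ (Tr G W X (m + 1) R).card)) with hT
  have hTL' : ∀ R ∈ K3 G X q m B, wt G q m X R * 1 ≤ (Tr G W X (m + 1) R).card ∧
      ((∃ v ∈ R, nn G W v < q) →
        (1 + 1 / 4) * (wt G q m X R * 1) ≤ (Tr G W X (m + 1) R).card) := by
    intro R hR
    unfold K3 at hR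
    rw [mem_filter] at hR
    have := hTL V G W X q m 0 τ 0 0 1 H (base_CA 0) (base_CA1 0 le_rfl) (Nat.zero_le _)
      one_pos le_rfl P.h1 P.h2 R hR.1 hR.2.2.1 hR.2.1.le
    rw [hp] at this
    exact ⟨this.1, fun h => this.2 (Or.inr h)⟩
  have hTlow : ∀ R ∈ T, ∀ v ∈ R, ¬ nn G W v < q := by
    intro R hR v hv hlow
    rw [hT, mem_filter] at hR
    exact hR.2 ((hTL' R hR.1).2 ⟨v, hv, hlow⟩)
  -- the groups with a single clique
  set C1 := (Co G X q m B).filter (fun i => (Gp G W X (m + 1) i).card < 2) with hC1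
  have hC1' : ∀ i ∈ C1, Gp G W X (m + 1) i = {i ∪ cnb G X i} ∧
      ∀ u ∈ cnb G X i, ¬ nn G W u < q := by
    intro i hi
    rw [hC1, mem_filter] at hi
    have hi' := hi.1
    unfold Co at hi'
    rw [mem_filter] at hi'
    rcases hGP0 V G W X q m τ 0 H i hi'.1 hi'.2.1 with h | h
    · omega
    · exact h.2
  set f : Finset V → Finset V := fun i => i ∪ cnb G X i with hf
  have hfmem : ∀ i ∈ C1, f i ∈ Gp G W X (m + 1) i := by
    intro i hi
    rw [(hC1' i hi).1]
    exact mem_singleton_self _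
  have hfinj : Set.InjOn f (C1 : Set (Finset V)) := by
    intro i hi j hj hij
    rw [mem_coe] at hi hj
    have h1 := hfmem i hi
    have h2 := hfmem j hj
    rw [← hij] at h2
    unfold Gp at h1 h2
    rw [mem_filter] at h1 h2
    exact u1 i (mem_filter.1 hi).1 j (mem_filter.1 hj).1 (m + 1) (f i)
      ((mem_cl G).1 h1.1).2 h1.2.1 h2.2.1
  set O := Kl.filter (fun K => K ∩ X ∉ K0 G X q m ∪ K3 G X q m B) with hO
  have hGO : ∀ i ∈ Co G X q m B, Gp G W X (m + 1) i ⊆ O := fun i hi => Gp_out hOUT H P hi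
  set I1 := C1.image f with hI1
  have hI1c : I1.card = C1.card := Finset.card_image_of_injOn hfinj
  have hI1O : I1 ⊆ O := by
    intro K hK
    rw [hI1, mem_image] at hK
    obtain ⟨i, hi, rfl⟩ := hK
    exact hGO i (mem_filter.1 hi).1 (hfmem i hi)
  have hs := P.s le_rfl one_pos
  have hmδ := P.mδ le_rfl one_pos
  have hom : ∀ i ∈ Co G X q m B, om G q m X i ≤ 1 + 1 / 1000 := by
    intro i hi
    have := hW3 V G X q m B hX (by omega) i hi
    linarith
  have hom0 : ∀ i ∈ Co G X q m B, 0 ≤ om G q m X i := by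
    intro i hi
    unfold om
    apply Finset.sum_nonneg
    intro v hv
    exact (w0 _ (mem_filter.1 (u2 i hi v hv)).1).1
  -- the other groups
  have hdc1 := hDC (Finset V) (O \ I1) (Co G X q m B \ C1) ∅ (Gp G W X (m + 1))
      (fun _ => ∅) (om G q m X) (wt G q m X) 1
      ((1 + 1 / 1000) / 2) 0 0
      (by
        intro i hi K hK
        rw [mem_sdiff] at hi
        rw [mem_sdiff]
        refine ⟨hGO i hi.1 hK, fun hKI => ?_⟩
        rw [hI1, mem_image] at hKI
        obtain ⟨j, hj, rfl⟩ := hKI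
        have h1 := hfmem j hj
        unfold Gp at h1 hK
        rw [mem_filter] at h1 hK
        have := u1 i hi.1 j (mem_filter.1 hj).1 (m + 1) (f j)
          ((mem_cl G).1 h1.1).2 hK.2.1 h1.2.1
        exact hi.2 (this ▸ hj))
      (by intro i hi; exact absurd hi (by simp))
      (by
        intro i hi
        rw [mem_sdiff] at hi
        have h1 : 2 ≤ (Gp G W X (m + 1) i).card := by
          by_contra h
          exact hi.2 (mem_filter.2 ⟨hi.1, by omega⟩)
        have h2 : (2 : ℝ) ≤ ((Gp G W X (m + 1) i).card : ℝ) := by exact_mod_cast h1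
        have h3 := hom i hi.1
        linarith)
      (by intro i hi; exact absurd hi (by simp))
      (by
        intro k hk
        rw [Finset.card_le_one]
        intro i hi j hj
        rw [mem_filter] at hi hj
        have hi2 := hi.2
        have hj2 := hj.2
        unfold Gp at hi2 hj2
        rw [mem_filter] at hi2 hj2
        exact u1 i (mem_sdiff.1 hi.1).1 j (mem_sdiff.1 hj.1).1 (m + 1) k
          ((mem_cl G).1 hi2.1).2 hi2.2.1 hj2.2.1)
      (by intro k _; simp) (by norm_num) le_rfl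
  obtain ⟨k1, k2⟩ := classK4 (G := G) hW5 hTSS hOUT hDC H P (base_CA 0) (Nat.zero_le _)
  have hdc2 := hDC (Finset V) O ∅ (K4 G X q m B) (fun _ => ∅)
      (fun i => Kl.filter (fun K => i ⊆ K)) (om G q m X) (wt G q m X) 1
      0 ((m : ℝ) ^ 2 / B) (2 ^ (m + 0 + 1))
      (by intro i hi; exact absurd hi (by simp)) (fun i hi => K4_out hOUT H P hi)
      (by intro i hi; exact absurd hi (by simp))
      (by intro i hi; have := k1 i hi; rw [hp] at this; exact this)
      (by intro k _; simp) k2 le_rfl (by positivity)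
  -- translate everything to reals
  have hC1O : (I1.card : ℝ) ≤ (O.card : ℝ) := by exact_mod_cast Finset.card_le_card hI1O
  have hOI : ((O \ I1).card : ℝ) = (O.card : ℝ) - (I1.card : ℝ) := by
    rw [Finset.card_sdiff_of_subset hI1O, Nat.cast_sub (Finset.card_le_card hI1O)]
  simp only [sum_empty, add_zero, zero_add, mul_one, mul_zero, zero_mul] at hdc1 hdc2
  rw [hOI] at hdc1
  have h02 := class02 (G := G) hW0 hW2 hRI H P
  rw [hp] at h02
  simp only [add_zero, mul_one] at h02
  have h3' : (1 + 1 / 4) * (∑ R ∈ (K3 G X q m B) \ T, wt G q m X R) ≤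
      ((Kl.filter (fun K => K ∩ X ∈ (K3 G X q m B) \ T)).card : ℝ) := by
    rw [hKl, ← card_Tr, Finset.mul_sum]
    push_cast
    apply Finset.sum_le_sum
    intro R hR
    rw [mem_sdiff] at hR
    by_contra hcon
    apply hR.2
    rw [hT, mem_filter]
    refine ⟨hR.1, ?_⟩
    rw [mul_one]
    exact hcon
  have hT' : (∑ R ∈ T, wt G q m X R) ≤ ((Kl.filter (fun K => K ∩ X ∈ T)).card : ℝ) := by
    rw [hKl, ← card_Tr]
    push_cast
    apply Finset.sum_le_sum
    intro R hR
    rw [hT, mem_filter] at hR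
    have := (hTL' R hR.1).1
    rwa [mul_one] at this
  have hdis : (Kl.filter (fun K => K ∩ X ∈ K0 G X q m)).card +
      (Kl.filter (fun K => K ∩ X ∈ (K3 G X q m B) \ T)).card + O.card +
      (Kl.filter (fun K => K ∩ X ∈ T)).card ≤ Kl.card := by
    rw [← Finset.card_union_of_disjoint, ← Finset.card_union_of_disjoint,
      ← Finset.card_union_of_disjoint]
    · apply Finset.card_le_card
      intro K hK
      rw [mem_union, mem_union, mem_union, mem_filter, mem_filter, hO, mem_filter,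
        mem_filter] at hK
      rcases hK with ((hK | hK) | hK) | hK <;> exact hK.1
    · rw [Finset.disjoint_left]
      intro K hK hK'
      rw [mem_union, mem_union, mem_filter, mem_filter, hO, mem_filter] at hK
      rw [mem_filter] at hK'
      have h3 : K ∩ X ∈ K3 G X q m B := (mem_filter.1 (hT ▸ hK'.2)).1
      rcases hK with (hK | hK) | hK
      · exact (Finset.disjoint_left.1 K03) hK.2 h3
      · exact (mem_sdiff.1 hK.2).2 hK'.2
      · exact hK.2 (mem_union_right _ h3)
    · rw [Finset.disjoint_left]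
      intro K hK hK'
      rw [mem_union, mem_filter, mem_filter] at hK
      rw [hO, mem_filter] at hK'
      rcases hK with hK | hK
      · exact hK'.2 (mem_union_left _ hK.2)
      · exact hK'.2 (mem_union_right _ (mem_sdiff.1 hK.2).1)
    · rw [Finset.disjoint_left]
      intro K hK hK'
      rw [mem_filter] at hK hK'
      exact (Finset.disjoint_left.1 K03) hK.2 (mem_sdiff.1 hK'.2).1
  have hdis' : ((Kl.filter (fun K => K ∩ X ∈ K0 G X q m)).card : ℝ) +
      ((Kl.filter (fun K => K ∩ X ∈ (K3 G X q m B) \ T)).card : ℝ) + (O.card : ℝ) +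
      ((Kl.filter (fun K => K ∩ X ∈ T)).card : ℝ) ≤ (Kl.card : ℝ) := by exact_mod_cast hdis
  have hall := hALL V G X q m B hX (by omega)
  have hs3 : ∑ S ∈ K3 G X q m B, wt G q m X S =
      ∑ S ∈ (K3 G X q m B) \ T, wt G q m X S + ∑ S ∈ T, wt G q m X S :=
    (Finset.sum_sdiff (filter_subset _ _)).symm
  have hsC : ∑ i ∈ Co G X q m B, om G q m X i =
      ∑ i ∈ Co G X q m B \ C1, om G q m X i + ∑ i ∈ C1, om G q m X i :=
    (Finset.sum_sdiff (filter_subset _ _)).symm
  have hO1 : ∑ i ∈ C1, om G q m X i ≤ (1 + 1 / 1000) * (I1.card : ℝ) := by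
    rw [hI1c]
    calc ∑ i ∈ C1, om G q m X i ≤ ∑ _i ∈ C1, (1 + 1 / 1000 : ℝ) :=
          Finset.sum_le_sum fun i hi => hom i (mem_filter.1 hi).1
      _ = _ := by rw [Finset.sum_const, nsmul_eq_mul]; ring
  -- cliques without x
  set C1x := C1.filter (fun i => ¬ x ∈ i) with hC1x
  have hO1x : ∑ i ∈ C1x, om G q m X i ≤ (1 + 1 / 1000) * (C1x.card : ℝ) := by
    calc ∑ i ∈ C1x, om G q m X i ≤ ∑ _i ∈ C1x, (1 + 1 / 1000 : ℝ) :=
          Finset.sum_le_sum fun i hi => hom i (mem_filter.1 (mem_filter.1 hi).1).1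
      _ = _ := by rw [Finset.sum_const, nsmul_eq_mul]; ring
  have hxp : ∑ i ∈ C1.filter (fun i => x ∈ i), om G q m X i ≤ Q / 100 := by
    have h1 := hXP V G X q m B hX P.h4 x
    have h2 : ∑ i ∈ C1.filter (fun i => x ∈ i), om G q m X i ≤
        ∑ i ∈ (Co G X q m B).filter (fun i => x ∈ i), om G q m X i := by
      apply Finset.sum_le_sum_of_subset_of_nonneg
      · intro i hi
        rw [mem_filter] at hi ⊢
        exact ⟨(mem_filter.1 hi.1).1, hi.2⟩
      · intro i hi _
        exact hom0 i (mem_filter.1 hi).1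
    have h8 : (800 : ℝ) * m ≤ q := by exact_mod_cast P.h8
    have hm2 : (2 : ℝ) ≤ m := by exact_mod_cast H.hm
    have hq0 : (0 : ℝ) < q := by linarith
    have h9 : 8 * (m : ℝ) / q ≤ 1 / 100 := by
      rw [div_le_iff₀ hq0]
      linarith
    have h10 : Q * (8 * (m : ℝ) / q) ≤ Q * (1 / 100) := mul_le_mul_of_nonneg_left h9 hQ0
    linarith
  have hsx : ∑ i ∈ C1, om G q m X i =
      ∑ i ∈ C1.filter (fun i => x ∈ i), om G q m X i + ∑ i ∈ C1x, om G q m X i :=
    (Finset.sum_filter_add_sum_filter_not C1 (fun i => x ∈ i) (om G q m X)).symm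
  have hnox : (Kl.filter (fun K => K ∩ X ∈ T)).card + C1x.card ≤
      (Kl.filter (fun K => ¬ x ∈ K)).card := by
    have hinj : Set.InjOn f (C1x : Set (Finset V)) :=
      hfinj.mono (by intro i hi; exact mem_coe.2 (mem_filter.1 (mem_coe.1 hi)).1)
    rw [← Finset.card_image_of_injOn hinj, ← Finset.card_union_of_disjoint]
    · apply Finset.card_le_card
      intro K hK
      rw [mem_union, mem_filter, mem_image] at hK
      rw [mem_filter]
      rcases hK with hK | ⟨i, hi, rfl⟩
      · refine ⟨hK.1, fun h => hTlow _ hK.2 x (mem_inter.2 ⟨h, hx⟩) hxl⟩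
      · rw [hC1x, mem_filter] at hi
        refine ⟨(mem_filter.1 (hfmem i hi.1)).1, fun h => ?_⟩
        rw [hf] at h
        simp only [mem_union] at h
        rcases h with h | h
        · exact hi.2 h
        · exact (hC1' i hi.1).2 x h hxl
    · rw [Finset.disjoint_left]
      intro K hK hK'
      rw [mem_filter] at hK
      rw [mem_image] at hK'
      obtain ⟨i, hi, rfl⟩ := hK'
      have hi1 : i ∈ C1 := (mem_filter.1 hi).1
      have h1 := hGO i (mem_filter.1 hi1).1 (hfmem i hi1)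
      rw [hO, mem_filter] at h1
      exact h1.2 (mem_union_right _ (mem_filter.1 (hT ▸ hK.2)).1)
  have hnox' : ((Kl.filter (fun K => K ∩ X ∈ T)).card : ℝ) + (C1x.card : ℝ) ≤
      ((Kl.filter (fun K => ¬ x ∈ K)).card : ℝ) := by exact_mod_cast hnox
  have hsplit := card_split Kl (fun K => x ∈ K)
  have hA0 : 0 ≤ ∑ S ∈ K0 G X q m, wt G q m X S + ∑ S ∈ K2 G X q m, wt G q m X S := by
    apply add_nonneg
    · exact Finset.sum_nonneg fun S hS => (w0 S (K0_sub hS)).1
    · exact Finset.sum_nonneg fun S hS => (w0 S (mem_filter.1 hS).1).1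
  have hF : ∑ i ∈ K4 G X q m B, wt G q m X i ≤ 1 / 1000 * (O.card : ℝ) := by
    refine hdc2.trans ?_
    have hOn : (0 : ℝ) ≤ (O.card : ℝ) := Nat.cast_nonneg _
    have h1 : (((2 ^ (m + 1) : ℕ) : ℝ) * ((m : ℝ) ^ 2 / B)) ≤ 1 / 1000 := by
      simpa using hmδ
    exact mul_le_mul_of_nonneg_right h1 hOn
  have hw3 : 0 ≤ ∑ R ∈ (K3 G X q m B) \ T, wt G q m X R :=
    Finset.sum_nonneg fun S hS => (w0 S (K3_sub (mem_sdiff.1 hS).1)).1
  have hwT : 0 ≤ ∑ R ∈ T, wt G q m X R :=
    Finset.sum_nonneg fun S hS => (w0 S (K3_sub (mem_filter.1 hS).1)).1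
  have hC10 : 0 ≤ ∑ i ∈ C1, om G q m X i :=
    Finset.sum_nonneg fun i hi => hom0 i (mem_filter.1 hi).1
  have hI0 : (0 : ℝ) ≤ (I1.card : ℝ) := Nat.cast_nonneg _
  by_cases hcon : (1 + 1 / 32) * Q ≤ (Kl.card : ℝ)
  · exact Or.inl hcon
  · right
    push Not at hcon
    clear_value Q
    generalize (Kl.card : ℝ) = N at *
    generalize (O.card : ℝ) = o at *
    generalize (I1.card : ℝ) = N1 at *
    generalize (C1x.card : ℝ) = N1x at *
    generalize ((Kl.filter (fun K => x ∈ K)).card : ℝ) = Nx at *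
    generalize ((Kl.filter (fun K => ¬ x ∈ K)).card : ℝ) = Nn at *
    generalize ((Kl.filter (fun K => K ∩ X ∈ T)).card : ℝ) = NT at *
    linarith

end

end Pool.Agent.N917.MB
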