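import Pool.Agent.N917.MB.Core

/-!
Project MB (helper917): consequences of the core for a structure, and the case without tail.
-/

set_option autoImplicit false

namespace Pool.Agent.N917.MB

open Finset
open Pool.Agent.Results.MP_76b19e_co.ForcedCliques (nn cnb cl Admissible minCliques nn_mono mem_cl
  cl_one)
open Pool.Agent.N917.KR (gw es)

section

variable {V : Type} [DecidableEq V] {G : SimpleGraph V} [DecidableRel G.Adj]

theorem card_split (A : Finset (Finset V)) (P : Finset V → Prop) [DecidablePred P] :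
    ((A.filter P).card : ℝ) + ((A.filter (fun K => ¬ P K)).card : ℝ) = (A.card : ℝ) := by
  exact_mod_cast Finset.card_filter_add_card_filter_not (s := A) P

/-- lower bound, tail present -/
theorem blk_CA {W X : Finset V} {q m l : ℕ} {c : ℝ} {p : ℝ} (hp0 : 0 ≤ p)
    (hc : 0 < c)
    (hcore : ∃ T : Finset (Finset V), ∃ w : ℝ,
      w * p ≤ (((cl G W (m + l + 1)).filter (fun K => K ∩ X ∈ T)).card : ℝ) ∧
      (1 + c / 4) * (((q : ℝ) ^ (m - 1) - w) * p) ≤
        (((cl G W (m + l + 1)).filter (fun K => K ∩ X ∉ T)).card : ℝ)) :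
    (q : ℝ) ^ (m - 1) * p ≤ ((cl G W (m + l + 1)).card : ℝ) := by
  obtain ⟨T, w, h1, h2⟩ := hcore
  have h3 := card_split (cl G W (m + l + 1)) (fun K => K ∩ X ∈ T)
  have h4 : (0 : ℝ) ≤ (((cl G W (m + l + 1)).filter (fun K => K ∩ X ∉ T)).card : ℝ) :=
    Nat.cast_nonneg _
  rcases le_total (((q : ℝ) ^ (m - 1) - w) * p) 0 with h | h
  · have : ((q : ℝ) ^ (m - 1) - w) * p = (q : ℝ) ^ (m - 1) * p - w * p := by ring
    linarith
  · have h5 : ((q : ℝ) ^ (m - 1) - w) * p ≤ (1 + c / 4) * (((q : ℝ) ^ (m - 1) - w) * p) := by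
      nlinarith
    have : ((q : ℝ) ^ (m - 1) - w) * p = (q : ℝ) ^ (m - 1) * p - w * p := by ring
    linarith

/-- gain or few cliques containing `x` -/
theorem blk_CG {W X : Finset V} {q m l : ℕ} {c : ℝ} {p : ℝ} (hp0 : 0 ≤ p)
    (hc : 0 < c) (hc1 : c ≤ 1) {x : V} (hx : x ∈ X) (hxl : nn G W x < q)
    (hcore : ∃ T : Finset (Finset V), ∃ w : ℝ, (∀ R ∈ T, ∀ v ∈ R, ¬ nn G W v < q) ∧
      w * p ≤ (((cl G W (m + l + 1)).filter (fun K => K ∩ X ∈ T)).card : ℝ) ∧
      (1 + c / 4) * (((q : ℝ) ^ (m - 1) - w) * p) ≤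
        (((cl G W (m + l + 1)).filter (fun K => K ∩ X ∉ T)).card : ℝ)) :
    (1 + c / 16) * ((q : ℝ) ^ (m - 1) * p) ≤ ((cl G W (m + l + 1)).card : ℝ) ∨
    (((cl G W (m + l + 1)).filter (fun K => x ∈ K)).card : ℝ) ≤
      (1 - c / 16) * ((q : ℝ) ^ (m - 1) * p) := by
  obtain ⟨T, w, h0, h1, h2⟩ := hcore
  have h3 := card_split (cl G W (m + l + 1)) (fun K => K ∩ X ∈ T)
  have h5 := card_split (cl G W (m + l + 1)) (fun K => x ∈ K)
  have h6 : (((cl G W (m + l + 1)).filter (fun K => K ∩ X ∈ T)).card : ℝ) ≤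
      (((cl G W (m + l + 1)).filter (fun K => ¬ x ∈ K)).card : ℝ) := by
    have : ((cl G W (m + l + 1)).filter (fun K => K ∩ X ∈ T)).card ≤
        ((cl G W (m + l + 1)).filter (fun K => ¬ x ∈ K)).card := by
      apply Finset.card_le_card
      intro K hK
      rw [mem_filter] at hK ⊢
      refine ⟨hK.1, fun h => h0 _ hK.2 x (mem_inter.2 ⟨h, hx⟩) hxl⟩
    exact_mod_cast this
  by_cases hcon : (1 + c / 16) * ((q : ℝ) ^ (m - 1) * p) ≤ ((cl G W (m + l + 1)).card : ℝ)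
  · exact Or.inl hcon
  · right
    push Not at hcon
    set Q : ℝ := (q : ℝ) ^ (m - 1) * p with hQ
    have hQ0 : 0 ≤ Q := by positivity
    have h7 : ((q : ℝ) ^ (m - 1) - w) * p = Q - w * p := by rw [hQ]; ring
    rw [h7] at h2
    -- from the assumption, w p > 3/4 Q
    have h8 : 3 / 4 * Q ≤ w * p := by
      by_contra h9
      push Not at h9
      have h10 : (1 + c / 4) * (Q - w * p) + w * p ≤ ((cl G W (m + l + 1)).card : ℝ) := by
        linarith
      have h11 : (1 + c / 4) * (Q - w * p) + w * p = Q + c / 4 * (Q - w * p) := by ring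
      have h12 : c / 4 * (Q / 4) ≤ c / 4 * (Q - w * p) :=
        mul_le_mul_of_nonneg_left (by linarith) (by linarith)
      nlinarith
    nlinarith

end

theorem base_CA (q0 : ℕ) : CA 0 q0 := by
  intro V _ G _ W τ H _
  have h := H.tot
  simp only [range_zero, sum_empty, zero_add, add_zero] at h
  rw [zero_add, cl_one]
  simpa [pr] using h

theorem base_CA1 (q0 : ℕ) {c : ℝ} (hc : c ≤ 1) : CA1 0 q0 c := by
  intro V _ G _ W τ H _
  have h := H.tot
  simp only [range_zero, sum_empty, zero_add] at h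
  rw [zero_add, cl_one]
  have h2 : (2 : ℝ) ≤ (W.card : ℝ) := by exact_mod_cast h
  simp only [pr, zero_tsub, range_zero, prod_empty, Nat.cast_one, mul_one]
  linarith

theorem CA1.weaken {l q0 q1 : ℕ} {c c' : ℝ} (h : CA1 l q0 c) (hq : q0 ≤ q1) (hc : c' ≤ c) :
    CA1 l q1 c' := by
  intro V _ G _ W τ H h0
  refine le_trans ?_ (h V G W τ H fun hl => hq.trans (h0 hl))
  exact mul_le_mul_of_nonneg_right (by linarith) (Nat.cast_nonneg _)

theorem CA.weaken {l q0 q1 : ℕ} (h : CA l q0) (hq : q0 ≤ q1) : CA l q1 :=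
  fun V _ G _ W τ H h0 => h V G W τ H fun hl => hq.trans (h0 hl)

theorem CG.weaken {l q0 q1 : ℕ} {c c' : ℝ} (h : CG l q0 c) (hq : q0 ≤ q1) (hc : c' ≤ c) :
    CG l q1 c' := by
  intro V _ G _ W τ x H h0 hx hl
  have hp : (0 : ℝ) ≤ pr l τ := Nat.cast_nonneg _
  rcases h V G W τ x H (hq.trans h0) hx hl with h1 | h1
  · left
    exact (mul_le_mul_of_nonneg_right (by linarith) hp).trans h1
  · right
    exact h1.trans (mul_le_mul_of_nonneg_right (by linarith) hp)

/-- the claims for all smaller numbers of levels -/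
def Cl (l q0 : ℕ) (c : ℝ) : Prop :=
  ∀ l' ≤ l, CA l' q0 ∧ CA1 l' q0 c ∧ (1 ≤ l' → CG l' q0 c)

theorem Cl.weaken {l q0 q1 : ℕ} {c c' : ℝ} (h : Cl l q0 c) (hq : q0 ≤ q1) (hc : c' ≤ c) :
    Cl l q1 c' := fun l' hl' =>
  ⟨(h l' hl').1.weaken hq, (h l' hl').2.1.weaken hq hc, fun h1 => ((h l' hl').2.2 h1).weaken hq hc⟩

end Pool.Agent.N917.MB
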