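import Pool.Agent.N917.KR.Tail
import Pool.Agent.N917.KR.SUM
import Pool.Agent.N917.KR.LAST
import Pool.Agent.N917.KR.CRU
import Pool.Agent.N917.KR.MOVE
import Pool.Agent.N917.KR.BUD
import Pool.Agent.N917.KR.YF
import Pool.Agent.N917.KR.CNT
import Pool.Agent.N917.KR.RL
import Pool.Agent.N917.KR.P1
import Pool.Agent.N917.KR.NUMP
import Pool.Agent.N917.KR.TR
import Pool.Agent.N917.KR.FL1
import Pool.Agent.N917.KR.FL2
import Pool.Agent.N917.KR.FIN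

/-!
Project MB (helper917): several blocks, all `n`, large `D` (MP_76b19e_co).  Statements of the parts.

Everything below is about a graph `G`, `nn G W v` = number of vertices of `W` not adjacent to `v`
(`v` included if `v ∈ W`), `cnb G W S` = common neighbours in `W` of the vertices of `S`,
`cl G W j` = `j`-cliques inside `W`, `gw G j X S` the greedy weight of project KR and
`es G q X S = ∑ v ∈ S, (q - nn G X v)`.
-/

namespace Pool.Agent.N917.MB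

open Finset
open Pool.Agent.Results.MP_76b19e_co.ForcedCliques (nn cnb cl Admissible minCliques)
open Pool.Agent.N917.KR (gw es)

/-- product over the non-jumps of `τ 0, ..., τ (l - 1)` -/
def pr (l : ℕ) (τ : ℕ → ℕ) : ℕ := ∏ j ∈ range (l - 1), if τ (j + 1) = τ j then τ j else 1

section defs

variable {V : Type} [DecidableEq V]

/-- `l` levels with slack `σ` -/
structure Str (G : SimpleGraph V) [DecidableRel G.Adj] (W : Finset V) (l : ℕ) (τ : ℕ → ℕ)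
    (σ : ℕ) : Prop where
  mono : ∀ i, i + 1 < l → τ i ≤ τ (i + 1)
  lev : ∀ j < l, ∑ i ∈ range j, τ i + 1 + σ ≤ (W.filter (fun v => nn G W v ≤ τ j)).card
  tot : ∑ i ∈ range l, τ i + 1 + σ ≤ W.card

/-- first block of length `m ≥ 2` and value `q`, chosen set `X`, tail `τ` of length `l` -/
structure Bk (G : SimpleGraph V) [DecidableRel G.Adj] (W X : Finset V) (q m l : ℕ) (τ : ℕ → ℕ)
    (σ : ℕ) : Prop where
  hm : 2 ≤ m
  hXW : X ⊆ W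
  hX : X.card = (m - 1) * q + 1
  hc : ∀ x ∈ X, nn G W x ≤ q
  mono : ∀ i, i + 1 < l → τ i ≤ τ (i + 1)
  hτ : 1 ≤ l → q < τ 0
  lev : ∀ j < l, m * q + ∑ i ∈ range j, τ i + 1 + σ ≤ (W.filter (fun v => nn G W v ≤ τ j)).card
  tot : m * q + ∑ i ∈ range l, τ i + 1 + σ ≤ W.card

/-- the part of the hypotheses about `X` only -/
structure HX (G : SimpleGraph V) [DecidableRel G.Adj] (X : Finset V) (q m : ℕ) : Prop where
  hq : 16 * m ^ 2 ≤ q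
  hm : 2 ≤ m
  hX : X.card = (m - 1) * q + 1
  hc : ∀ x ∈ X, nn G X x ≤ q

/-- normalised weight of an `m`-clique -/
noncomputable def wt (G : SimpleGraph V) [DecidableRel G.Adj] (q m : ℕ) (X S : Finset V) : ℝ :=
  (q : ℝ) ^ (m - 1) * gw G m X S

/-- cliques with trace `R` on `X` -/
def Tr (G : SimpleGraph V) [DecidableRel G.Adj] (W X : Finset V) (j : ℕ) (R : Finset V) :
    Finset (Finset V) := (cl G W j).filter (fun K => K ∩ X = R)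

/-- cores -/
def Co (G : SimpleGraph V) [DecidableRel G.Adj] (X : Finset V) (q m B : ℕ) : Finset (Finset V) :=
  (cl G X (m - 1)).filter (fun P => 2 ≤ (cnb G X P).card ∧ (cnb G X P).card ≤ B ∧
    ∀ v ∈ cnb G X P, q < 2 * es G q X (insert v P))

/-- the cliques of the group of `P` -/
def Gp (G : SimpleGraph V) [DecidableRel G.Adj] (W X : Finset V) (j : ℕ) (P : Finset V) :
    Finset (Finset V) := (cl G W j).filter (fun K => P ⊆ K ∧ ∃ u ∈ cnb G X P, u ∈ K)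

/-- the weight of the group of `P` -/
noncomputable def om (G : SimpleGraph V) [DecidableRel G.Adj] (q m : ℕ) (X P : Finset V) : ℝ :=
  ∑ v ∈ cnb G X P, wt G q m X (insert v P)

/-- class 0: small deficit -/
def K0 (G : SimpleGraph V) [DecidableRel G.Adj] (X : Finset V) (q m : ℕ) : Finset (Finset V) :=
  (cl G X m).filter (fun S => 2 * es G q X S ≤ q)

/-- class 1: members of groups -/
def K1 (G : SimpleGraph V) [DecidableRel G.Adj] (X : Finset V) (q m B : ℕ) :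
    Finset (Finset V) :=
  (cl G X m).filter (fun S => ∃ P ∈ Co G X q m B, P ⊆ S)

/-- class 2: neighbours of class 0 -/
def K2 (G : SimpleGraph V) [DecidableRel G.Adj] (X : Finset V) (q m : ℕ) : Finset (Finset V) :=
  (cl G X m).filter (fun S => q ≤ es G q X S ∧ ∃ R ∈ K0 G X q m, (S ∩ R).card = m - 1)

/-- class 3: medium deficit, not in a group -/
def K3 (G : SimpleGraph V) [DecidableRel G.Adj] (X : Finset V) (q m B : ℕ) :
    Finset (Finset V) :=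
  (cl G X m).filter (fun S => q < 2 * es G q X S ∧ es G q X S + 1 ≤ q ∧
    ¬ ∃ P ∈ Co G X q m B, P ⊆ S)

/-- class 4: the rest -/
def K4 (G : SimpleGraph V) [DecidableRel G.Adj] (X : Finset V) (q m B : ℕ) :
    Finset (Finset V) :=
  (cl G X m).filter (fun S => q ≤ es G q X S ∧ (¬ ∃ P ∈ Co G X q m B, P ⊆ S) ∧
    ¬ ∃ R ∈ K0 G X q m, (S ∩ R).card = m - 1)

end defs

/-! ### The claims proved by induction on the number of levels -/

def CA (l q0 : ℕ) : Prop := ∀ (V : Type) [DecidableEq V] (G : SimpleGraph V) [DecidableRel G.Adj]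
  (W : Finset V) (τ : ℕ → ℕ), Str G W l τ 0 → (1 ≤ l → q0 ≤ τ 0) →
  pr l τ ≤ (cl G W (l + 1)).card

def CA1 (l q0 : ℕ) (c : ℝ) : Prop := ∀ (V : Type) [DecidableEq V] (G : SimpleGraph V)
  [DecidableRel G.Adj] (W : Finset V) (τ : ℕ → ℕ), Str G W l τ 1 → (1 ≤ l → q0 ≤ τ 0) →
  (1 + c) * (pr l τ : ℝ) ≤ (cl G W (l + 1)).card

def CG (l q0 : ℕ) (c : ℝ) : Prop := ∀ (V : Type) [DecidableEq V] (G : SimpleGraph V)
  [DecidableRel G.Adj] (W : Finset V) (τ : ℕ → ℕ) (x : V), Str G W l τ 0 → q0 ≤ τ 0 → x ∈ W →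
  nn G W x < τ 0 →
  (1 + c) * (pr l τ : ℝ) ≤ (cl G W (l + 1)).card ∨
  (((cl G W (l + 1)).filter (fun K => x ∈ K)).card : ℝ) ≤ (1 - c) * (pr l τ : ℝ)

/-! ### Weights -/

def S_W0 : Prop := ∀ (V : Type) [DecidableEq V] (G : SimpleGraph V) [DecidableRel G.Adj]
  (X : Finset V) (q m : ℕ), HX G X q m →
  (∀ S ∈ cl G X m, 0 ≤ wt G q m X S ∧ wt G q m X S ≤ m) ∧
  (∀ P ∈ cl G X (m - 1), 0 ≤ gw G (m - 1) X P ∧
    (q : ℝ) ^ (m - 1) * gw G (m - 1) X P ≤ (m : ℝ) - 1) ∧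
  (∀ S ∈ cl G X m, ∀ v ∈ S,
    1 + es G q X (S.erase v) ≤ (cnb G X (S.erase v)).card)

def S_W1 : Prop := ∀ (V : Type) [DecidableEq V] (G : SimpleGraph V) [DecidableRel G.Adj]
  (X : Finset V) (q m : ℕ), HX G X q m → ∀ S ∈ cl G X m, q ≤ 2 * es G q X S →
  wt G q m X S ≤ 1 + 4 * (m : ℝ) / q

def S_W2 : Prop := ∀ (V : Type) [DecidableEq V] (G : SimpleGraph V) [DecidableRel G.Adj]
  (X : Finset V) (q m : ℕ), HX G X q m → ∀ R ∈ K0 G X q m,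
  ∑ S ∈ (cl G X m).filter (fun S => q ≤ es G q X S ∧ (S ∩ R).card = m - 1), wt G q m X S ≤
    2 * (m : ℝ) ^ 4

def S_W3 : Prop := ∀ (V : Type) [DecidableEq V] (G : SimpleGraph V) [DecidableRel G.Adj]
  (X : Finset V) (q m B : ℕ), HX G X q m → 4 * B ≤ q → ∀ P ∈ Co G X q m B,
  om G q m X P ≤ 1 + 4 * (B : ℝ) * (m : ℝ) ^ 2 / q

def S_W4 : Prop := ∀ (V : Type) [DecidableEq V] (G : SimpleGraph V) [DecidableRel G.Adj]
  (X : Finset V) (q m : ℕ), HX G X q m → ∀ (x : V) (c : ℕ), 1 ≤ c →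
  ∑ S ∈ (cl G X m).filter (fun S => x ∈ S ∧ c ≤ (cnb G X (S.erase x)).card), gw G m X S ≤
    (m : ℝ) / c

def S_W5 : Prop := ∀ (V : Type) [DecidableEq V] (G : SimpleGraph V) [DecidableRel G.Adj]
  (X : Finset V) (q m B : ℕ), HX G X q m → 1 ≤ B → ∀ S ∈ K4 G X q m B,
  wt G q m X S ≤ (m : ℝ) ^ 2 / B

/-- uniqueness of cores, and the classes -/
def S_UNQ : Prop := ∀ (V : Type) [DecidableEq V] (G : SimpleGraph V) [DecidableRel G.Adj]
  (X : Finset V) (q m B : ℕ), HX G X q m → 4 * B ≤ q →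
  (∀ P ∈ Co G X q m B, ∀ P' ∈ Co G X q m B, ∀ (j : ℕ) (K : Finset V), G.IsNClique j K →
    P ⊆ K → P' ⊆ K → P = P') ∧
  (∀ P ∈ Co G X q m B, ∀ v ∈ cnb G X P, insert v P ∈ K1 G X q m B) ∧
  (∀ S ∈ K1 G X q m B, ∃ P ∈ Co G X q m B, ∃ v ∈ cnb G X P, S = insert v P) ∧
  (∀ S ∈ K1 G X q m B, q < 2 * es G q X S)

/-- the sum of all weights -/
def S_ALL : Prop := ∀ (V : Type) [DecidableEq V] (G : SimpleGraph V) [DecidableRel G.Adj]
  (X : Finset V) (q m B : ℕ), HX G X q m → 4 * B ≤ q →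
  (q : ℝ) ^ (m - 1) ≤ ∑ S ∈ K0 G X q m, wt G q m X S + ∑ P ∈ Co G X q m B, om G q m X P +
    ∑ S ∈ K2 G X q m, wt G q m X S + ∑ S ∈ K3 G X q m B, wt G q m X S +
    ∑ S ∈ K4 G X q m B, wt G q m X S

/-! ### Structures -/

def S_NB : Prop := ∀ (V : Type) [DecidableEq V] (G : SimpleGraph V) [DecidableRel G.Adj]
  (W : Finset V) (l : ℕ) (τ : ℕ → ℕ) (σ : ℕ), Str G W (l + 1) τ σ → ∀ v ∈ W, nn G W v ≤ τ 0 →
  Str G (cnb G W {v}) l (fun i => τ (i + 1)) (σ + (τ 0 - nn G W v)) ∧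
  (cl G (cnb G W {v}) (l + 1)).card = ((cl G W (l + 2)).filter (fun K => v ∈ K)).card

def S_CRD : Prop := ∀ (V : Type) [DecidableEq V] (G : SimpleGraph V) [DecidableRel G.Adj]
  (l : ℕ) (W : Finset V) (τ : ℕ → ℕ) (σ : ℕ), Str G W l τ σ →
  (1 + σ) * pr l τ ≤ (l + 1).factorial * (cl G W (l + 1)).card

def S_TRS : Prop := ∀ (V : Type) [DecidableEq V] (G : SimpleGraph V) [DecidableRel G.Adj]
  (W X : Finset V) (q m l : ℕ) (τ : ℕ → ℕ) (σ : ℕ), Bk G W X q m l τ σ → ∀ R ∈ cl G X m,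
  es G q X R + 1 ≤ q →
  Str G (cnb G (W \ X) R) l τ (q - 1 - es G q X R + σ) ∧
  ((∃ v ∈ R, nn G W v < q) → Str G (cnb G (W \ X) R) l τ (q - es G q X R + σ)) ∧
  (cl G (cnb G (W \ X) R) (l + 1)).card ≤ (Tr G W X (m + l + 1) R).card

def S_TSS : Prop := ∀ (V : Type) [DecidableEq V] (G : SimpleGraph V) [DecidableRel G.Adj]
  (W X : Finset V) (q m l : ℕ) (τ : ℕ → ℕ) (σ : ℕ), Bk G W X q m l τ σ → ∀ S ∈ cl G X m,
  Str G (cnb G W S) l τ σ ∧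
  (cl G (cnb G W S) (l + 1)).card = ((cl G W (m + l + 1)).filter (fun K => S ⊆ K)).card ∧
  (∀ y ∈ cnb G W S, ((cl G (cnb G W S) (l + 1)).filter (fun K => y ∈ K)).card =
    ((cl G W (m + l + 1)).filter (fun K => S ⊆ K ∧ y ∈ K)).card)

def S_GP : Prop := ∀ (V : Type) [DecidableEq V] (G : SimpleGraph V) [DecidableRel G.Adj]
  (W X : Finset V) (q m l : ℕ) (τ : ℕ → ℕ) (σ q0 : ℕ) (c : ℝ), Bk G W X q m l τ σ → 1 ≤ l →
  CA l q0 → CG l q0 c → q0 ≤ q → 0 < c → c ≤ 1 → ∀ P ∈ cl G X (m - 1), 2 ≤ (cnb G X P).card →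
  (1 + c) * (pr l τ : ℝ) ≤ (Gp G W X (m + l + 1) P).card

def S_GP0 : Prop := ∀ (V : Type) [DecidableEq V] (G : SimpleGraph V) [DecidableRel G.Adj]
  (W X : Finset V) (q m : ℕ) (τ : ℕ → ℕ) (σ : ℕ), Bk G W X q m 0 τ σ →
  ∀ P ∈ cl G X (m - 1), 2 ≤ (cnb G X P).card →
  2 ≤ (Gp G W X (m + 1) P).card ∨
  (σ = 0 ∧ Gp G W X (m + 1) P = {P ∪ cnb G X P} ∧ ∀ u ∈ cnb G X P, ¬ nn G W u < q)

/-- cliques whose trace has medium deficit -/
def S_TL : Prop := ∀ (V : Type) [DecidableEq V] (G : SimpleGraph V) [DecidableRel G.Adj]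
  (W X : Finset V) (q m l : ℕ) (τ : ℕ → ℕ) (σ q0 : ℕ) (c : ℝ), Bk G W X q m l τ σ →
  CA l q0 → CA1 l q0 c → q0 ≤ q → 0 < c → c ≤ 1 → 16 * m ^ 2 ≤ q → 16 * (m : ℝ) ≤ c * q →
  ∀ R ∈ cl G X m, es G q X R + 1 ≤ q → q ≤ 2 * es G q X R →
  wt G q m X R * (pr l τ : ℝ) ≤ (Tr G W X (m + l + 1) R).card ∧
  ((1 ≤ σ ∨ ∃ v ∈ R, nn G W v < q) →
    (1 + c / 4) * (wt G q m X R * (pr l τ : ℝ)) ≤ (Tr G W X (m + l + 1) R).card)

/-- cliques whose trace has small deficit -/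
def S_RI : Prop := ∀ (V : Type) [DecidableEq V] (G : SimpleGraph V) [DecidableRel G.Adj]
  (W X : Finset V) (q m l : ℕ) (τ : ℕ → ℕ) (σ : ℕ), Bk G W X q m l τ σ →
  4 * (m + 2 * m ^ 4) * (l + 1).factorial ≤ q → ∀ R ∈ K0 G X q m,
  2 * (m + 2 * m ^ 4) * pr l τ ≤ (Tr G W X (m + l + 1) R).card

/-- double counting -/
def S_DC : Prop := ∀ (α : Type) [DecidableEq α] (K P Q : Finset α) (A A' : α → Finset α)
  (ω w : α → ℝ) (p a δ : ℝ) (M : ℕ), (∀ i ∈ P, A i ⊆ K) → (∀ i ∈ Q, A' i ⊆ K) →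
  (∀ i ∈ P, ω i * p ≤ a * (A i).card) → (∀ i ∈ Q, w i * p ≤ δ * (A' i).card) →
  (∀ k ∈ K, (P.filter (fun i => k ∈ A i)).card ≤ 1) →
  (∀ k ∈ K, (Q.filter (fun i => k ∈ A' i)).card ≤ M) → 0 ≤ a → 0 ≤ δ →
  (∑ i ∈ P, ω i + ∑ i ∈ Q, w i) * p ≤ (a + M * δ) * K.card

/-- cliques with a trace of class 0 or 3 are not in groups and do not contain class 4 cliques -/
def S_OUT : Prop := ∀ (V : Type) [DecidableEq V] (G : SimpleGraph V) [DecidableRel G.Adj]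
  (W X : Finset V) (q m l : ℕ) (τ : ℕ → ℕ) (σ B : ℕ), Bk G W X q m l τ σ → HX G X q m →
  4 * B ≤ q → ∀ K ∈ cl G W (m + l + 1), K ∩ X ∈ K0 G X q m ∪ K3 G X q m B →
  (∀ P ∈ Co G X q m B, K ∉ Gp G W X (m + l + 1) P) ∧ (∀ S ∈ K4 G X q m B, ¬ S ⊆ K)

/-- the sum over the groups whose core contains `x` -/
def S_XP : Prop := ∀ (V : Type) [DecidableEq V] (G : SimpleGraph V) [DecidableRel G.Adj]
  (X : Finset V) (q m B : ℕ), HX G X q m → 8 * B ≤ q → ∀ x : V,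
  ∑ P ∈ (Co G X q m B).filter (fun P => x ∈ P), om G q m X P ≤
    (q : ℝ) ^ (m - 1) * (8 * (m : ℝ) / q)

/-- splitting off the first block -/
def S_BKOF : Prop := ∀ (V : Type) [DecidableEq V] (G : SimpleGraph V) [DecidableRel G.Adj]
  (W : Finset V) (l : ℕ) (τ : ℕ → ℕ) (σ : ℕ), Str G W l τ σ → 1 ≤ l →
  ∃ m, 1 ≤ m ∧ m ≤ l ∧ pr l τ = (τ 0) ^ (m - 1) * pr (l - m) (fun i => τ (m + i)) ∧
    (2 ≤ m → ∀ Y : Finset V, Y.card ≤ 1 → (∀ y ∈ Y, y ∈ W ∧ nn G W y ≤ τ 0) →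
      ∃ X, Y ⊆ X ∧ Bk G W X (τ 0) m (l - m) (fun i => τ (m + i)) σ)

/-- final step -/
def S_FIN2 : Prop := (∀ r, 1 ≤ r → ∃ q0, CA r q0) → ∀ r, 2 ≤ r → ∃ D0 : ℕ, ∀ n k : ℕ, k < n →
  D0 ≤ n - k → r * (n - k) + 1 ≤ n → ∀ s ≤ r - 1, s * (s + 1) ≤ 2 * (n - 1 - r * (n - k)) →
  (s = r - 1 ∨ 2 * (n - 1 - r * (n - k)) < (s + 1) * (s + 2)) →
  minCliques n k r = (n - k) ^ (r - 1 - s)

end Pool.Agent.N917.MB
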