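import Pool.Agent.N917.MB.Stm

/-!
Project MB (helper917), MP_76b19e_co: leaf W0, basic bounds of the weights (helper362).
-/

set_option autoImplicit false

namespace Pool.Agent.N917.MB

open Finset
open Pool.Agent.Results.MP_76b19e_co.ForcedCliques (nn cnb cl Admissible minCliques mem_cl)
open Pool.Agent.N917.KR (gw es)

namespace W0

variable {V : Type} [DecidableEq V]

lemma crude {G : SimpleGraph V} [DecidableRel G.Adj] {X S : Finset V} {q j c : ℕ}
    (hS : S ∈ cl G X (j + 1)) (hc : ∀ x ∈ X, nn G X x ≤ q) (hc1 : 1 ≤ c)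
    (hX : c + j * q ≤ X.card) :
    0 ≤ gw G (j + 1) X S ∧ (q : ℝ) ^ j * gw G (j + 1) X S ≤ ((j : ℝ) + 1) / c := by
  obtain ⟨hSX, hSc⟩ := (mem_cl G).1 hS
  have h := KR.t_CRUDE V G q j c (fun v => q - nn G X v) X S hSc.2 hc1 hX (fun v hv => by
    have := hc v (hSX hv)
    omega)
  refine ⟨h.1, h.2.trans ?_⟩
  have hc0 : (0 : ℝ) < (c : ℝ) := by exact_mod_cast hc1
  calc ∑ w ∈ S, 1 / ((c : ℝ) + ∑ u ∈ S.erase w, ((q - nn G X u : ℕ) : ℝ))
      ≤ ∑ w ∈ S, 1 / (c : ℝ) := by
        apply sum_le_sum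
        intro w _
        apply one_div_le_one_div_of_le hc0
        have : (0 : ℝ) ≤ ∑ u ∈ S.erase w, ((q - nn G X u : ℕ) : ℝ) :=
          sum_nonneg fun u _ => Nat.cast_nonneg _
        linarith
    _ = ((j : ℝ) + 1) / c := by
        rw [sum_const, hSc.2, nsmul_eq_mul]
        push_cast
        ring

end W0

theorem t_W0 : S_W0 := by
  intro V _ G _ X q m h
  obtain ⟨n, rfl⟩ : ∃ n, m = n + 2 := ⟨m - 2, by have := h.hm; omega⟩
  have hX : X.card = (n + 1) * q + 1 := by simpa using h.hX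
  have e1 : n + 2 - 1 = n + 1 := rfl
  refine ⟨?_, ?_, ?_⟩
  · intro S hS
    obtain ⟨h1, h2⟩ := W0.crude (j := n + 1) (c := 1) hS h.hc le_rfl (by rw [hX]; omega)
    rw [wt, e1]
    refine ⟨by positivity, h2.trans ?_⟩
    push_cast
    linarith
  · intro P hP
    rw [e1] at hP ⊢
    obtain ⟨h1, h2⟩ := W0.crude (j := n) (c := q + 1) hP h.hc (by omega)
      (by rw [hX]; ring_nf; omega)
    refine ⟨h1, ?_⟩
    have hq : (0 : ℝ) ≤ (q : ℝ) := Nat.cast_nonneg _
    have hn : (0 : ℝ) ≤ (n : ℝ) := Nat.cast_nonneg _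
    calc (q : ℝ) ^ (n + 1) * gw G (n + 1) X P = q * ((q : ℝ) ^ n * gw G (n + 1) X P) := by ring
      _ ≤ q * (((n : ℝ) + 1) / ((q + 1 : ℕ) : ℝ)) := mul_le_mul_of_nonneg_left h2 hq
      _ ≤ (n : ℝ) + 1 := by
          push_cast
          rw [mul_div_assoc', div_le_iff₀ (by linarith)]
          nlinarith
      _ = ((n + 2 : ℕ) : ℝ) - 1 := by push_cast; ring
  · intro S hS v hv
    obtain ⟨hSX, hSc⟩ := (mem_cl G).1 hS
    have h2 := (KR.t_BUD V G X (S.erase v)).2.1
    have h3 : ∑ w ∈ S.erase v, nn G X w + es G q X (S.erase v) = (n + 1) * q := by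
      rw [es, ← sum_add_distrib]
      calc ∑ w ∈ S.erase v, (nn G X w + (q - nn G X w)) = ∑ w ∈ S.erase v, q := by
            apply sum_congr rfl
            intro w hw
            have := h.hc w (hSX (mem_of_mem_erase hw))
            omega
        _ = (n + 1) * q := by
            rw [sum_const, card_erase_of_mem hv, hSc.2, smul_eq_mul]
            rfl
    rw [hX] at h2
    omega

end Pool.Agent.N917.MB
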