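import Pool.Agent.N917.MB.Stm

/-!
Project MB (helper917), MP_76b19e_co: leaf W4, the probability that `x` is picked (helper664).
-/

set_option autoImplicit false

namespace Pool.Agent.N917.MB

open Finset
open Pool.Agent.Results.MP_76b19e_co.ForcedCliques (nn cnb cl Admissible minCliques mem_cl mem_cnb)
open Pool.Agent.N917.KR (gw es)

namespace W4

variable {V : Type} [DecidableEq V]

/-- the cliques which contain `x` and keep at least `c` common neighbours without `x` -/
def F (G : SimpleGraph V) [DecidableRel G.Adj] (X : Finset V) (x : V) (c j : ℕ) :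
    Finset (Finset V) :=
  (cl G X j).filter (fun S => x ∈ S ∧ c ≤ (cnb G X (S.erase x)).card)

lemma erase_mem {G : SimpleGraph V} [DecidableRel G.Adj] {X S : Finset V} {j : ℕ}
    (hS : S ∈ cl G X (j + 1)) {v : V} (hv : v ∈ S) : S.erase v ∈ cl G X j := by
  rw [mem_cl] at hS ⊢
  exact ⟨(erase_subset _ _).trans hS.1, hS.2.erase_of_mem hv⟩

lemma mem_cnb_erase {G : SimpleGraph V} [DecidableRel G.Adj] {X S : Finset V} {j : ℕ}
    (hS : S ∈ cl G X (j + 1)) {v : V} (hv : v ∈ S) : v ∈ cnb G X (S.erase v) := by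
  rw [mem_cl] at hS
  rw [mem_cnb]
  refine ⟨hS.1 hv, fun s hs => ?_⟩
  rw [mem_erase] at hs
  exact hS.2.1 hs.2 hv hs.1

lemma cnb_anti (G : SimpleGraph V) [DecidableRel G.Adj] (X : Finset V) {S T : Finset V}
    (h : S ⊆ T) : cnb G X T ⊆ cnb G X S := by
  intro v hv
  rw [mem_cnb] at hv ⊢
  exact ⟨hv.1, fun s hs => hv.2 s (h hs)⟩

theorem part1 (G : SimpleGraph V) [DecidableRel G.Adj] (X : Finset V) (x : V) (c j : ℕ)
    (hc : 1 ≤ c) (hsum : ∑ S ∈ cl G X j, gw G j X S = 1)
    (hnn : ∀ S : Finset V, 0 ≤ gw G j X S) :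
    ∑ S ∈ F G X x c (j + 1), gw G j X (S.erase x) / (cnb G X (S.erase x)).card ≤ 1 / (c : ℝ) := by
  have hc0 : (0 : ℝ) < c := by exact_mod_cast hc
  have h1 : ∑ S ∈ F G X x c (j + 1), gw G j X (S.erase x) / (cnb G X (S.erase x)).card ≤
      ∑ S ∈ F G X x c (j + 1), gw G j X (S.erase x) / c := by
    refine sum_le_sum fun S hS => ?_
    rw [F, mem_filter] at hS
    exact div_le_div_of_nonneg_left (hnn _) hc0 (by exact_mod_cast hS.2.2)
  have hinj : Set.InjOn (fun S : Finset V => S.erase x) (F G X x c (j + 1) : Set (Finset V)) := by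
    intro S hS T hT h
    rw [mem_coe, F, mem_filter] at hS hT
    have h2 : insert x (S.erase x) = insert x (T.erase x) := by
      have h' : S.erase x = T.erase x := h
      rw [h']
    rwa [insert_erase hS.2.1, insert_erase hT.2.1] at h2
  have h3 : ∑ S ∈ F G X x c (j + 1), gw G j X (S.erase x) ≤ 1 := by
    rw [← hsum, ← sum_image (f := fun S => gw G j X S) (g := fun S : Finset V => S.erase x) hinj]
    refine sum_le_sum_of_subset_of_nonneg ?_ fun S _ _ => hnn S
    intro T hT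
    rw [mem_image] at hT
    obtain ⟨S, hS, rfl⟩ := hT
    rw [F, mem_filter] at hS
    exact erase_mem hS.1 hS.2.1
  refine h1.trans ?_
  rw [← sum_div]
  exact div_le_div_of_nonneg_right h3 hc0.le

theorem part2 (G : SimpleGraph V) [DecidableRel G.Adj] (X : Finset V) (x : V) (c j : ℕ)
    (hnn : ∀ S : Finset V, 0 ≤ gw G j X S) :
    ∑ S ∈ F G X x c (j + 1), ∑ v ∈ S.erase x, gw G j X (S.erase v) / (cnb G X (S.erase v)).card ≤
      ∑ S ∈ F G X x c j, gw G j X S := by
  classical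
  have h1 : ∑ S ∈ F G X x c j, ∑ v ∈ cnb G X S, gw G j X S / (cnb G X S).card ≤
      ∑ S ∈ F G X x c j, gw G j X S := by
    refine sum_le_sum fun S _ => ?_
    rw [sum_const, nsmul_eq_mul]
    by_cases h : (cnb G X S).card = 0
    · rw [h]
      simpa using hnn S
    · have : ((cnb G X S).card : ℝ) ≠ 0 := by exact_mod_cast h
      rw [mul_div_cancel₀ _ this]
  refine le_trans ?_ h1
  rw [Finset.sum_sigma', Finset.sum_sigma']
  set φ : (Σ _ : Finset V, V) → (Σ _ : Finset V, V) := fun a => ⟨a.1.erase a.2, a.2⟩ with hφ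
  set g : (Σ _ : Finset V, V) → ℝ := fun a => gw G j X a.1 / (cnb G X a.1).card with hg
  have hmem : ∀ a ∈ (F G X x c (j + 1)).sigma (fun S => S.erase x),
      a.1 ∈ cl G X (j + 1) ∧ x ∈ a.1 ∧ c ≤ (cnb G X (a.1.erase x)).card ∧ a.2 ≠ x ∧ a.2 ∈ a.1 := by
    intro a ha
    rw [mem_sigma, F, mem_filter, mem_erase] at ha
    exact ⟨ha.1.1, ha.1.2.1, ha.1.2.2, ha.2.1, ha.2.2⟩
  have hinj : Set.InjOn φ ((F G X x c (j + 1)).sigma (fun S => S.erase x) :
      Set (Σ _ : Finset V, V)) := by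
    rintro ⟨S, v⟩ ha ⟨T, u⟩ hb h
    have ha' := hmem _ ha
    have hb' := hmem _ hb
    simp only [hφ, Sigma.mk.injEq, heq_eq_eq] at h
    obtain ⟨h2, rfl⟩ := h
    have h3 : insert v (S.erase v) = insert v (T.erase v) := by rw [h2]
    rw [insert_erase ha'.2.2.2.2, insert_erase hb'.2.2.2.2] at h3
    have h4 : S = T := h3
    rw [h4]
  have h4 : ∑ a ∈ (F G X x c (j + 1)).sigma (fun S => S.erase x), g (φ a) =
      ∑ b ∈ ((F G X x c (j + 1)).sigma (fun S => S.erase x)).image φ, g b :=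
    (sum_image hinj).symm
  have h5 : ∑ b ∈ ((F G X x c (j + 1)).sigma (fun S => S.erase x)).image φ, g b ≤
      ∑ b ∈ (F G X x c j).sigma (fun S => cnb G X S), g b := by
    refine sum_le_sum_of_subset_of_nonneg ?_ fun a _ _ => ?_
    · intro b hb
      rw [mem_image] at hb
      obtain ⟨a, ha, rfl⟩ := hb
      obtain ⟨e1, e2, e3, e4, e5⟩ := hmem a ha
      rw [mem_sigma, F, mem_filter]
      refine ⟨⟨erase_mem e1 e5, mem_erase.2 ⟨e4.symm, e2⟩, e3.trans (card_le_card ?_)⟩,
        mem_cnb_erase e1 e5⟩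
      exact cnb_anti G X (erase_subset_erase _ (erase_subset _ _))
    · exact div_nonneg (hnn _) (Nat.cast_nonneg _)
  exact (le_of_eq h4).trans h5

theorem key (G : SimpleGraph V) [DecidableRel G.Adj] (X : Finset V) (q m : ℕ) (hX : HX G X q m)
    (x : V) (c : ℕ) (hc : 1 ≤ c) : ∀ j ≤ m, ∑ S ∈ F G X x c j, gw G j X S ≤ (j : ℝ) / c := by
  have hnn : ∀ (j : ℕ) (S : Finset V), 0 ≤ gw G j X S := fun j S => KR.CRU.gw_nonneg G j X S
  intro j
  induction j with
  | zero =>
    intro _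
    have : F G X x c 0 = ∅ := by
      rw [F, filter_eq_empty_iff]
      intro S hS
      rw [mem_cl] at hS
      have h0 : S = ∅ := card_eq_zero.1 hS.2.2
      rw [h0]
      simp
    rw [this, sum_empty]
    simp
  | succ j ih =>
    intro hj
    have hsum : ∑ S ∈ cl G X j, gw G j X S = 1 := by
      refine KR.t_SUM V G q j X ?_ hX.hc
      rw [hX.hX]
      have : (j - 1) * q ≤ (m - 1) * q := Nat.mul_le_mul_right _ (by omega)
      omega
    have h1 := part1 G X x c j hc hsum (hnn j)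
    have h2 := (part2 G X x c j (hnn j)).trans (ih (by omega))
    have h3 : ∑ S ∈ F G X x c (j + 1), gw G (j + 1) X S =
        ∑ S ∈ F G X x c (j + 1), gw G j X (S.erase x) / (cnb G X (S.erase x)).card +
        ∑ S ∈ F G X x c (j + 1), ∑ v ∈ S.erase x,
          gw G j X (S.erase v) / (cnb G X (S.erase v)).card := by
      rw [← sum_add_distrib]
      refine sum_congr rfl fun S hS => ?_
      rw [F, mem_filter, mem_cl] at hS
      rw [KR.t_LAST V G j X S hS.1.2.2, ← add_sum_erase _ _ hS.2.1]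
    rw [h3]
    calc _ ≤ 1 / (c : ℝ) + (j : ℝ) / c := add_le_add h1 h2
      _ = ((j + 1 : ℕ) : ℝ) / c := by push_cast; ring

end W4

theorem t_W4 : S_W4 := by
  intro V _ G _ X q m hX x c hc
  exact W4.key G X q m hX x c hc m le_rfl

end Pool.Agent.N917.MB
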